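import Pool.Agent.V8H95.EF.Key
import Pool.Agent.V8H95.MF.Lift

/-!
From solutions in a box of `ℤ^d` to approximate eigenfunctions on the torus.
-/

set_option autoImplicit false
set_option linter.unusedSectionVars false
set_option linter.unusedVariables false

open Complex MeasureTheory
open scoped BigOperators ComplexConjugate ENNReal

namespace Pool.Agent.V8H95.NE

open Pool.Agent.H4R2.AE Pool.Agent.V8H99.AD Pool.Agent.V8H95.MF Pool.Agent.V8H95.BW
open Pool.Agent.V8H95.EF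

variable {d : ℕ}

/-- the maximum norm on `ℤ^d` -/
def nz (v : Fin d → ℤ) : ℕ := Finset.univ.sup fun i => (v i).natAbs

theorem nz_le {v : Fin d → ℤ} {r : ℕ} : nz v ≤ r ↔ ∀ i, (v i).natAbs ≤ r := by
  unfold nz
  rw [Finset.sup_le_iff]
  exact ⟨fun h i => h i (Finset.mem_univ i), fun h i _ => h i⟩

theorem nz_step (v : Fin d → ℤ) (i : Fin d) (s : ℤ) (hs : s.natAbs ≤ 1) :
    nz (v + Pi.single i s) ≤ nz v + 1 := by
  rw [nz_le]
  intro j
  have h1 : (v j).natAbs ≤ nz v := nz_le.1 le_rfl j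
  rw [Pi.add_apply]
  have h2 : ((Pi.single i s : Fin d → ℤ) j).natAbs ≤ 1 := by
    by_cases hj : j = i
    · subst hj
      rw [Pi.single_eq_same]
      exact hs
    · rw [Pi.single_eq_of_ne hj]
      simp
  have h3 := Int.natAbs_add_le (v j) ((Pi.single i s : Fin d → ℤ) j)
  omega

/-- the cut-off function -/
noncomputable def ct (W : ℕ) (v : Fin d → ℤ) : ℝ := max 0 (1 - (nz v : ℝ) / (W + 1))

theorem ct_nonneg (W : ℕ) (v : Fin d → ℤ) : 0 ≤ ct W v := le_max_left _ _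

theorem ct_le (W : ℕ) (v : Fin d → ℤ) : ct W v ≤ 1 := by
  unfold ct
  apply max_le zero_le_one
  have : 0 ≤ (nz v : ℝ) / (W + 1) := by positivity
  linarith

theorem ct_lip (W : ℕ) (v : Fin d → ℤ) (i : Fin d) (s : ℤ) (hs : s.natAbs ≤ 1) :
    |ct W v - ct W (v + Pi.single i s)| ≤ 1 / (W + 1) := by
  have h1 := nz_step v i s hs
  have h2 := nz_step (v + Pi.single i s) i (-s) (by omega)
  have e : v + Pi.single i s + Pi.single i (-s) = v := by
    rw [add_assoc, ← Pi.single_add, add_neg_cancel, Pi.single_zero, add_zero]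
  rw [e] at h2
  unfold ct
  have h3 := abs_max_sub_max_le_abs (1 - (nz v : ℝ) / (W + 1))
    (1 - (nz (v + Pi.single i s) : ℝ) / (W + 1)) 0
  rw [max_comm _ (0 : ℝ), max_comm _ (0 : ℝ)] at h3
  refine h3.trans ?_
  have hW : (0 : ℝ) < W + 1 := by positivity
  have e2 : 1 - (nz v : ℝ) / (W + 1) - (1 - (nz (v + Pi.single i s) : ℝ) / (W + 1)) =
      ((nz (v + Pi.single i s) : ℝ) - nz v) / (W + 1) := by
    field_simp
    ring
  rw [e2, abs_div, abs_of_pos hW]
  apply div_le_div_of_nonneg_right _ hW.le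
  have h4 : (nz (v + Pi.single i s) : ℝ) ≤ nz v + 1 := by exact_mod_cast h1
  have h5 : (nz v : ℝ) ≤ nz (v + Pi.single i s) + 1 := by exact_mod_cast h2
  rw [abs_le]
  constructor <;> linarith

theorem ct_zero (W : ℕ) (v : Fin d → ℤ) (h : W < nz v) : ct W v = 0 := by
  unfold ct
  apply max_eq_left
  have hW : (0 : ℝ) < W + 1 := by positivity
  have h1 : ((W : ℝ) + 1) ≤ nz v := by exact_mod_cast h
  have : 1 ≤ (nz v : ℝ) / (W + 1) := by
    rw [le_div_iff₀ hW]
    linarith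
  linarith

theorem ct_half (W : ℕ) (v : Fin d → ℤ) (h : 2 * nz v ≤ W + 1) : 1 / 2 ≤ ct W v := by
  unfold ct
  refine le_trans ?_ (le_max_right _ _)
  have hW : (0 : ℝ) < W + 1 := by positivity
  have h1 : 2 * (nz v : ℝ) ≤ W + 1 := by exact_mod_cast h
  have : (nz v : ℝ) / (W + 1) ≤ 1 / 2 := by
    rw [div_le_iff₀ hW]
    linarith
  linarith

/-- the box of radius `r` -/
noncomputable def bx (x₀ : Fin d → ℤ) (r : ℕ) : Finset (Fin d → ℤ) :=
  Fintype.piFinset fun i => Finset.Icc (x₀ i - r) (x₀ i + r)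

theorem mem_bx {x₀ x : Fin d → ℤ} {r : ℕ} : x ∈ bx x₀ r ↔ nz (x - x₀) ≤ r := by
  unfold bx
  rw [Fintype.mem_piFinset, nz_le]
  refine forall_congr' fun i => ?_
  rw [Finset.mem_Icc, Pi.sub_apply]
  omega

/-- the mass in the box -/
noncomputable def bm (u : (Fin d → ℤ) → ℂ) (x₀ : Fin d → ℤ) (r : ℕ) : ℝ :=
  ∑ x ∈ bx x₀ r, ‖u x‖ ^ 2

theorem bm_nonneg (u : (Fin d → ℤ) → ℂ) (x₀ : Fin d → ℤ) (r : ℕ) : 0 ≤ bm u x₀ r :=
  Finset.sum_nonneg fun _ _ => by positivity

/-- a function with finite support bounded by the mass in a box -/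
theorem l2_box (g : L2 d) (u : (Fin d → ℤ) → ℂ) (x₀ : Fin d → ℤ) (r : ℕ) (c : ℝ) (s : Fin d → ℤ)
    (h0 : ∀ x, ‖g x‖ ^ 2 ≤ c * ‖u (x + s)‖ ^ 2) (h1 : ∀ x, r < nz (x + s - x₀) → g x = 0) :
    ‖g‖ ^ 2 ≤ c * bm u x₀ r := by
  rw [← nsq_eq, ← (Equiv.subRight s).tsum_eq]
  rw [tsum_eq_sum (s := bx x₀ r)]
  · unfold bm
    rw [Finset.mul_sum]
    refine Finset.sum_le_sum fun x _ => ?_
    have h2 := h0 ((Equiv.subRight s) x)
    have e : (Equiv.subRight s) x + s = x := by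
      show x - s + s = x
      abel
    rw [e] at h2
    exact h2
  · intro x hx
    rw [mem_bx, not_le] at hx
    have e : (Equiv.subRight s) x + s = x := by
      show x - s + s = x
      abel
    rw [h1 _ (by rw [e]; exact hx)]
    simp

/-- solutions in a box, cut off -/
theorem cut {lam : ℝ} {ω : (Fin d → ℤ) → ℝ} {H : L2 d →L[ℂ] L2 d} (hH : IsAnderson lam ω H)
    (ψ : (Fin d → ℤ) → ℂ) (E : ℝ) (x₀ : Fin d → ℤ) (W : ℕ)
    (hψ : ∀ x, nz (x - x₀) ≤ W → HF lam ω ψ x = (E : ℂ) * ψ x) :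
    ∃ f : L2 d, (∀ x, f x = (ct W (x - x₀) : ℂ) * ψ x) ∧ ‖f‖ ^ 2 ≤ bm ψ x₀ (W + 1) ∧
      ‖H f - ((E : ℝ) : ℂ) • f‖ ≤ 2 * d / (W + 1) * √(bm ψ x₀ (W + 1)) := by
  have hW : (0 : ℝ) < W + 1 := by positivity
  have hfin : ∀ u : (Fin d → ℤ) → ℂ, ∀ (s : Fin d → ℤ) (r : ℕ),
      (∀ x, r < nz (x + s - x₀) → u x = 0) → (Function.support u).Finite := by
    intro u s r hu
    have h1 : (Function.support u) ⊆ ((bx (x₀ - s) r : Finset (Fin d → ℤ)) : Set (Fin d → ℤ)) := by
      intro x hx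
      rw [Finset.mem_coe, mem_bx]
      by_contra hc
      push Not at hc
      apply hx
      apply hu
      have e : x + s - x₀ = x - (x₀ - s) := by abel
      rw [e]
      exact hc
    exact (Finset.finite_toSet _).subset h1
  obtain ⟨f, hf⟩ := exists_l2 (fun x => (ct W (x - x₀) : ℂ) * ψ x) (hfin _ 0 W fun x hx => by
    rw [add_zero] at hx
    rw [ct_zero W _ hx]
    simp)
  have hf' : ∀ x, f x = (ct W (x - x₀) : ℂ) * ψ x := fun x => congrFun hf x
  -- the commutator terms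
  have hg : ∀ (i : Fin d) (s : ℤ), s.natAbs ≤ 1 → ∃ g : L2 d,
      (∀ x, g x = ((ct W (x - x₀) - ct W (x - x₀ + Pi.single i s) : ℝ) : ℂ) *
        ψ (x + Pi.single i s)) ∧ ‖g‖ ≤ 1 / (W + 1) * √(bm ψ x₀ (W + 1)) := by
    intro i s hs
    obtain ⟨u, hu⟩ : ∃ u : (Fin d → ℤ) → ℂ, ∀ x, u x =
        ((ct W (x - x₀) - ct W (x - x₀ + Pi.single i s) : ℝ) : ℂ) * ψ (x + Pi.single i s) :=
      ⟨_, fun _ => rfl⟩
    have hz : ∀ x, W + 1 < nz (x + Pi.single i s - x₀) → u x = 0 := by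
      intro x hx
      have e : x + Pi.single i s - x₀ = x - x₀ + Pi.single i s := by abel
      rw [e] at hx
      have h1 := nz_step (x - x₀) i s hs
      have h2 : ct W (x - x₀) = 0 := ct_zero W _ (by omega)
      have h3 : ct W (x - x₀ + Pi.single i s) = 0 := ct_zero W _ (by omega)
      rw [hu, h2, h3]
      simp
    obtain ⟨g, hg⟩ := exists_l2 u (hfin u (Pi.single i s) (W + 1) hz)
    have hg' : ∀ x, g x = ((ct W (x - x₀) - ct W (x - x₀ + Pi.single i s) : ℝ) : ℂ) *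
        ψ (x + Pi.single i s) := fun x => (congrFun hg x).trans (hu x)
    refine ⟨g, hg', ?_⟩
    have h1 := l2_box g ψ x₀ (W + 1) ((1 / ((W : ℝ) + 1)) ^ 2) (Pi.single i s) (fun x => by
      rw [hg', norm_mul, mul_pow, Complex.norm_real, Real.norm_eq_abs]
      have := ct_lip W (x - x₀) i s hs
      gcongr) (fun x hx => by
      rw [hg]
      exact hz x hx)
    apply le_of_sq_le_sq _ (by positivity)
    rw [mul_pow, Real.sq_sqrt (bm_nonneg _ _ _)]
    exact h1
  choose g hg1 hg2 using hg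
  refine ⟨f, hf', ?_, ?_⟩
  · have h1 := l2_box f ψ x₀ (W + 1) 1 0 (fun x => by
      rw [hf', norm_mul, mul_pow, Complex.norm_real, Real.norm_eq_abs, abs_of_nonneg (ct_nonneg _ _),
        add_zero]
      have h2 : ct W (x - x₀) ^ 2 ≤ 1 := pow_le_one₀ (ct_nonneg _ _) (ct_le _ _)
      gcongr) (fun x hx => by
      rw [add_zero] at hx
      rw [hf', ct_zero W _ (by omega)]
      simp)
    rwa [one_mul] at h1
  · have key : H f - ((E : ℝ) : ℂ) • f = ∑ i : Fin d, (g i 1 (by norm_num) + g i (-1) (by norm_num)) := by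
      apply lp.ext
      funext x
      rw [lp.coeFn_sub, Pi.sub_apply, lp.coeFn_smul, Pi.smul_apply, lp.coeFn_sum, Finset.sum_apply,
        hH f x, smul_eq_mul]
      have e1 : ∀ i : Fin d, (g i 1 (by norm_num) + g i (-1) (by norm_num) : L2 d) x =
          (2 * f x - f (x + Pi.single i 1) - f (x - Pi.single i 1)) -
          (ct W (x - x₀) : ℂ) * (2 * ψ x - ψ (x + Pi.single i 1) - ψ (x - Pi.single i 1)) := by
        intro i
        rw [lp.coeFn_add, Pi.add_apply, hg1, hg1, hf', hf', hf']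
        have e2 : x + Pi.single i (-1) = x - Pi.single i 1 := by
          rw [Pi.single_neg]
          abel
        have e3 : x - x₀ + Pi.single i (-1) = x - Pi.single i 1 - x₀ := by
          rw [Pi.single_neg]
          abel
        have e4 : x - x₀ + Pi.single i 1 = x + Pi.single i 1 - x₀ := by abel
        rw [e2, e3, e4]
        push_cast
        ring
      simp only [e1]
      have e5 : ∀ (A B : Fin d → ℂ) (c : ℂ), ∑ i, (A i - c * B i) = ∑ i, A i - c * ∑ i, B i := by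
        intro A B c
        rw [Finset.sum_sub_distrib, Finset.mul_sum]
      refine Eq.trans ?_ (e5 (fun i => 2 * f x - f (x + Pi.single i 1) - f (x - Pi.single i 1))
        (fun i => 2 * ψ x - ψ (x + Pi.single i 1) - ψ (x - Pi.single i 1))
        (ct W (x - x₀) : ℂ)).symm
      by_cases hx : nz (x - x₀) ≤ W
      · have h1 := hψ x hx
        unfold HF at h1
        have h2 : ∑ i : Fin d, (2 * ψ x - ψ (x + Pi.single i 1) - ψ (x - Pi.single i 1)) =
            (E : ℂ) * ψ x - ((lam * ω x : ℝ) : ℂ) * ψ x := by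
          linear_combination h1
        rw [h2, hf' x]
        ring
      · push Not at hx
        have h2 : f x = 0 := by
          rw [hf', ct_zero W _ hx]
          simp
        rw [ct_zero W _ hx, h2]
        simp
    rw [key]
    refine (norm_sum_le _ _).trans ?_
    have h1 : ∀ i ∈ (Finset.univ : Finset (Fin d)),
        ‖g i 1 (by norm_num) + g i (-1) (by norm_num)‖ ≤ 2 * (1 / (W + 1) * √(bm ψ x₀ (W + 1))) := by
      intro i _
      refine (norm_add_le _ _).trans ?_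
      have h1 := hg2 i 1 (by norm_num)
      have h2 := hg2 i (-1) (by norm_num)
      linarith
    refine (Finset.sum_le_sum h1).trans (le_of_eq ?_)
    rw [Finset.sum_const, Finset.card_univ, Fintype.card_fin, nsmul_eq_mul]
    ring

/-- **from the torus to boxes of `ℤ^d`** -/
theorem box_mass {L : ℕ} [NeZero L] {lam : ℝ} {ω : (Fin d → ℤ) → ℝ} (hω : ∀ x, |ω x| ≤ 1)
    (W R : ℕ) (hL : 4 * W + 2 < L) (hR : 2 * R ≤ W + 1) (k τ M t : ℝ) (ht : 0 < t)
    (hτ : 2 * d / (W + 1) ≤ τ * √t)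
    (hprop : ∀ (φ : XT d L) (E : ℝ), ‖φ‖ = 1 →
      ‖HC lam (fun y : T d L => ω (rep y)) φ - ((E : ℝ) : ℂ) • φ‖ ≤ τ → E ≤ k →
        ∀ y0 : T d L, ‖rs (fun y => nn (y - y0) ≤ R) φ‖ ^ 2 ≤ M)
    (htM : t ≤ M) (ψ : (Fin d → ℤ) → ℂ) (E : ℝ) (hE : E ≤ k) (x₀ : Fin d → ℤ) (hx₀ : nz x₀ ≤ W)
    (hψ : ∀ x, nz (x - x₀) ≤ W → HF lam ω ψ x = (E : ℂ) * ψ x) :
    bm ψ x₀ R ≤ 4 * M * bm ψ x₀ (W + 1) := by
  classical
  obtain ⟨H, hH⟩ := Exist.exists_anderson d lam ω 1 zero_le_one hω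
  obtain ⟨f, hf, hf1, hf2⟩ := cut hH ψ E x₀ W hψ
  set m := bm ψ x₀ (W + 1) with hm
  have hm0 : 0 ≤ m := bm_nonneg _ _ _
  have hfs : SuppIn f (2 * W) := by
    intro x hx i
    have h1 : nz (x - x₀) ≤ W := by
      by_contra hc
      push Not at hc
      apply hx
      rw [hf, ct_zero W _ hc]
      simp
    have h2 := nz_le.1 h1 i
    have h3 := nz_le.1 hx₀ i
    rw [Pi.sub_apply] at h2
    push_cast
    rw [abs_le]
    omega
  have hτn : ‖tau L f‖ = ‖f‖ := tau_norm_eq hfs (by omega)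
  have hτr : ‖HC lam (fun y : T d L => ω (rep y)) (tau L f) - ((E : ℝ) : ℂ) • tau L f‖ ≤
      2 * d / (W + 1) * √m := by
    rw [← tau_H hH hfs (by omega), ← tau_smul]
    have e : tau L (H f) - tau L (((E : ℝ) : ℂ) • f) = tau L (H f - ((E : ℝ) : ℂ) • f) := by
      have := map_sub (tauL d L) (H f) (((E : ℝ) : ℂ) • f)
      exact this.symm
    rw [e]
    exact (tau_norm_le _).trans hf2
  -- the mass of `ψ` in the small box
  have hrep : ∀ x ∈ bx x₀ R, rep (fun i => (x i : ZMod L) : T d L) = x := by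
    intro x hx
    rw [mem_bx, nz_le] at hx
    funext i
    show ((x i : ℤ) : ZMod L).valMinAbs = x i
    rw [ZMod.valMinAbs_spec]
    refine ⟨rfl, ?_⟩
    have h1 := hx i
    have h2 := nz_le.1 hx₀ i
    rw [Pi.sub_apply] at h1
    constructor <;> omega
  have hmass : bm ψ x₀ R ≤ 4 * ‖rs (fun y => nn (y - fun i => (x₀ i : ZMod L)) ≤ R) (tau L f)‖ ^ 2 := by
    rw [rs_norm]
    unfold bm
    have h1 : ∑ x ∈ bx x₀ R, ‖ψ x‖ ^ 2 ≤ ∑ x ∈ bx x₀ R, 4 * ‖f x‖ ^ 2 := by
      refine Finset.sum_le_sum fun x hx => ?_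
      rw [mem_bx] at hx
      rw [hf, norm_mul, mul_pow, Complex.norm_real, Real.norm_eq_abs, abs_of_nonneg (ct_nonneg _ _)]
      have h2 := ct_half W (x - x₀) (by omega)
      have h3 : (1 / 2) ^ 2 ≤ ct W (x - x₀) ^ 2 := by gcongr
      have h4 : 0 ≤ ‖ψ x‖ ^ 2 := by positivity
      nlinarith
    refine h1.trans ?_
    rw [← Finset.mul_sum]
    apply mul_le_mul_of_nonneg_left _ (by norm_num)
    have h2 : ∑ x ∈ bx x₀ R, ‖f x‖ ^ 2 =
        ∑ y ∈ (bx x₀ R).image (fun x => (fun i => (x i : ZMod L) : T d L)), ‖(tau L f) y‖ ^ 2 := by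
      rw [Finset.sum_image]
      · refine Finset.sum_congr rfl fun x hx => ?_
        rw [tau_apply, hrep x hx]
      · intro x hx x' hx' h
        have h3 := hrep x hx
        have h4 := hrep x' hx'
        have h5 : (fun i => (x i : ZMod L) : T d L) = fun i => (x' i : ZMod L) := h
        rw [h5, h4] at h3
        exact h3.symm
    rw [h2]
    have h3 : ∀ y ∈ (bx x₀ R).image (fun x => (fun i => (x i : ZMod L) : T d L)),
        nn (y - fun i => (x₀ i : ZMod L)) ≤ R := by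
      intro y hy
      rw [Finset.mem_image] at hy
      obtain ⟨x, hx, rfl⟩ := hy
      refine nn_le fun i => ?_
      rw [mem_bx, nz_le] at hx
      refine (na_le_cast _ (x i - x₀ i) ?_).trans (hx i)
      rw [Int.cast_sub]
      rfl
    refine le_trans (le_of_eq (Finset.sum_congr rfl fun y hy => ?_))
      (Finset.sum_le_sum_of_subset_of_nonneg (Finset.subset_univ _) fun y _ _ => ?_)
    · rw [if_pos (h3 y hy)]
    · split_ifs <;> positivity
  have hrsle : ∀ y0 : T d L, ‖rs (fun y => nn (y - y0) ≤ R) (tau L f)‖ ^ 2 ≤ ‖f‖ ^ 2 := by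
    intro y0
    rw [← hτn, rs_norm, EuclideanSpace.norm_sq_eq]
    refine Finset.sum_le_sum fun y _ => ?_
    split_ifs
    · exact le_rfl
    · positivity
  rcases le_or_gt (‖f‖ ^ 2) (t * m) with hsmall | hbig
  · calc bm ψ x₀ R ≤ 4 * ‖f‖ ^ 2 :=
          hmass.trans (mul_le_mul_of_nonneg_left (hrsle _) (by norm_num))
      _ ≤ 4 * (t * m) := by gcongr
      _ ≤ 4 * (M * m) := by gcongr
      _ = _ := by ring
  · have hfpos : 0 < ‖f‖ := by
      have h1 : 0 < ‖f‖ ^ 2 := lt_of_le_of_lt (by positivity) hbig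
      by_contra hc
      have h2 : ‖f‖ = 0 := le_antisymm (not_lt.1 hc) (norm_nonneg _)
      rw [h2] at h1
      norm_num at h1
    have htn0 : 0 < ‖tau L f‖ := by rw [hτn]; exact hfpos
    obtain ⟨φ, hφ⟩ : ∃ φ : XT d L, φ = ((‖tau L f‖⁻¹ : ℝ) : ℂ) • tau L f := ⟨_, rfl⟩
    have hφ1 : ‖φ‖ = 1 := by
      rw [hφ, norm_smul, Complex.norm_real, Real.norm_eq_abs, abs_of_pos (by positivity),
        inv_mul_cancel₀ htn0.ne']
    have hsq : √(t * m) ≤ ‖f‖ := by
      rw [Real.sqrt_le_left hfpos.le]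
      exact hbig.le
    have hτ0 : 0 ≤ τ := by
      have h1 : 0 < √t := Real.sqrt_pos.2 ht
      have h2 : 0 ≤ τ * √t := le_trans (by positivity) hτ
      by_contra hc
      push Not at hc
      nlinarith
    have hφr : ‖HC lam (fun y : T d L => ω (rep y)) φ - ((E : ℝ) : ℂ) • φ‖ ≤ τ := by
      have e : HC lam (fun y : T d L => ω (rep y)) φ - ((E : ℝ) : ℂ) • φ =
          ((‖tau L f‖⁻¹ : ℝ) : ℂ) • (HC lam (fun y : T d L => ω (rep y)) (tau L f) -
            ((E : ℝ) : ℂ) • tau L f) := by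
        rw [hφ, map_smul, smul_sub, smul_comm]
      rw [e, norm_smul, Complex.norm_real, Real.norm_eq_abs, abs_of_pos (by positivity), hτn,
        inv_mul_le_iff₀ hfpos]
      calc ‖HC lam (fun y : T d L => ω (rep y)) (tau L f) - ((E : ℝ) : ℂ) • tau L f‖ ≤
          2 * d / (W + 1) * √m := hτr
        _ ≤ (τ * √t) * √m := by gcongr
        _ = √(t * m) * τ := by rw [Real.sqrt_mul ht.le]; ring
        _ ≤ ‖f‖ * τ := by gcongr
    have h1 := hprop φ E hφ1 hφr hE (fun i => (x₀ i : ZMod L))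
    have h2 : ‖rs (fun y => nn (y - fun i => (x₀ i : ZMod L)) ≤ R) (tau L f)‖ ^ 2 =
        ‖f‖ ^ 2 * ‖rs (fun y => nn (y - fun i => (x₀ i : ZMod L)) ≤ R) φ‖ ^ 2 := by
      rw [rs_norm, rs_norm, Finset.mul_sum]
      refine Finset.sum_congr rfl fun y _ => ?_
      rw [mul_ite, mul_zero]
      congr 1
      rw [hφ, PiLp.smul_apply, norm_smul, Complex.norm_real, Real.norm_eq_abs,
        abs_of_pos (by positivity), hτn, mul_pow]
      field_simp
    rw [h2] at hmass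
    calc bm ψ x₀ R ≤ 4 * (‖f‖ ^ 2 * ‖rs (fun y => nn (y - fun i => (x₀ i : ZMod L)) ≤ R) φ‖ ^ 2) :=
          hmass
      _ ≤ 4 * (m * M) := by
          have h3 : 0 ≤ ‖rs (fun y => nn (y - fun i => (x₀ i : ZMod L)) ≤ R) φ‖ ^ 2 := by positivity
          gcongr
      _ = _ := by ring

end Pool.Agent.V8H95.NE
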