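import Pool.Agent.V8H95.NE.Hs

/-!
The Efron-Stein inequality for operators and the exchange of a coordinate.
-/

set_option autoImplicit false
set_option linter.unusedSectionVars false
set_option linter.unusedVariables false

open Complex MeasureTheory
open scoped BigOperators ComplexConjugate

namespace Pool.Agent.V8H95.NE

open Pool.Agent.H4R2.AE Pool.Agent.V8H99.AD Pool.Agent.V8H95.MF Pool.Agent.V8H95.BW
open Pool.Agent.V8H95.EF Pool.Agent.V8H95.NM

section swap
variable {m : Type} [Fintype m] [DecidableEq m] (μ : Measure ℝ) [IsProbabilityMeasure μ]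

theorem swap_mp (y : m) : MeasurePreserving
    (fun q : ℝ × (m → ℝ) => (q.2 y, Function.update q.2 y q.1))
    (μ.prod (Measure.pi fun _ : m => μ)) (μ.prod (Measure.pi fun _ : m => μ)) := by
  have hm : Measurable (fun q : ℝ × (m → ℝ) => (q.2 y, Function.update q.2 y q.1)) := by
    refine Measurable.prodMk ((measurable_pi_apply y).comp measurable_snd) ?_
    refine measurable_pi_lambda _ fun x => ?_
    by_cases h : x = y
    · subst h
      simp only [Function.update_self]
      exact measurable_fst
    · simp only [Function.update_of_ne h]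
      exact (measurable_pi_apply x).comp measurable_snd
  refine ⟨hm, ?_⟩
  symm
  refine Measure.prod_eq_generateFrom (C := {s : Set ℝ | MeasurableSet s})
    (D := Set.pi Set.univ '' Set.pi Set.univ fun _ : m => {s : Set ℝ | MeasurableSet s})
    (MeasurableSpace.generateFrom_measurableSet) generateFrom_pi
    (MeasurableSpace.isPiSystem_measurableSet) isPiSystem_pi
    ⟨fun _ => Set.univ, fun _ => by simp, fun _ => by simp, by simp [Set.iUnion_const]⟩
    ⟨fun _ => Set.univ, fun _ => ⟨fun _ => Set.univ, fun _ _ => by simp, by simp⟩,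
      fun _ => by simp, by simp [Set.iUnion_const]⟩ ?_
  rintro s hs0 _ ⟨t, ht, rfl⟩
  have hs : MeasurableSet s := hs0
  have ht' : ∀ i, MeasurableSet (t i) := fun i => ht i (Set.mem_univ i)
  rw [Measure.map_apply hm (hs.prod (MeasurableSet.univ_pi ht'))]
  have e : (fun q : ℝ × (m → ℝ) => (q.2 y, Function.update q.2 y q.1)) ⁻¹'
      (s ×ˢ Set.univ.pi t) = (t y) ×ˢ Set.univ.pi (Function.update t y s) := by
    ext ⟨c, V⟩
    simp only [Set.mem_preimage, Set.mem_prod, Set.mem_pi, Set.mem_univ, forall_true_left]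
    constructor
    · rintro ⟨h1, h2⟩
      refine ⟨?_, fun i => ?_⟩
      · have := h2 y
        simpa using this
      · by_cases hi : i = y
        · subst hi
          simpa using h1
        · have := h2 i
          rw [Function.update_of_ne hi] at this ⊢
          exact this
    · rintro ⟨h1, h2⟩
      refine ⟨?_, fun i => ?_⟩
      · have := h2 y
        simpa using this
      · by_cases hi : i = y
        · subst hi
          simpa using h1
        · have := h2 i
          rw [Function.update_of_ne hi] at this ⊢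
          exact this
  rw [e, Measure.prod_prod, Measure.pi_pi, Measure.pi_pi]
  have e1 : ∀ i, μ (Function.update t y s i) = Function.update (fun i => μ (t i)) y (μ s) i := by
    intro i
    by_cases hi : i = y
    · subst hi
      simp
    · rw [Function.update_of_ne hi, Function.update_of_ne hi]
  have e2 : ∏ i, μ (t i) = μ (t y) * ∏ i ∈ Finset.univ \ {y}, μ (t i) := by
    have := Finset.prod_update_of_mem (Finset.mem_univ y) (fun i => μ (t i)) (μ (t y))
    rw [Function.update_eq_self] at this
    exact this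
  rw [Finset.prod_congr rfl fun i _ => e1 i, Finset.prod_update_of_mem (Finset.mem_univ y), e2]
  ring

theorem exch (y : m) (f : (m → ℝ) → (m → ℝ) → ℝ)
    (hf : Measurable fun q : ℝ × (m → ℝ) => f (Function.update q.2 y q.1) q.2) :
    ∫ q : ℝ × (m → ℝ), f q.2 (Function.update q.2 y q.1) ∂(μ.prod (Measure.pi fun _ : m => μ)) =
      ∫ q : ℝ × (m → ℝ), f (Function.update q.2 y q.1) q.2
        ∂(μ.prod (Measure.pi fun _ : m => μ)) := by
  have h := swap_mp μ y
  have h1 := integral_map (μ := μ.prod (Measure.pi fun _ : m => μ)) h.measurable.aemeasurable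
    (f := fun q : ℝ × (m → ℝ) => f (Function.update q.2 y q.1) q.2) (by
      rw [h.map_eq]
      exact hf.aestronglyMeasurable)
  rw [h.map_eq] at h1
  rw [h1]
  refine integral_congr_ae (Filter.Eventually.of_forall fun q => ?_)
  simp

end swap

variable {d L : ℕ} [NeZero L]

section
variable (μ : Measure ℝ) [IsProbabilityMeasure μ]

/-- the Efron-Stein inequality for vectors, with a reference value -/
theorem es_vec_c (c : ℝ) (Y : (T d L → ℝ) → XT d L) (hY : Continuous Y) (C : ℝ)
    (hC : ∀ V, ‖Y V‖ ≤ C) :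
    ∫ V, ‖Y V - ∫ U, Y U ∂(Measure.pi fun _ : T d L => μ)‖ ^ 2 ∂(Measure.pi fun _ : T d L => μ) ≤
      ∫ V, ∑ y, ‖Y V - Y (Function.update V y c)‖ ^ 2 ∂(Measure.pi fun _ : T d L => μ) := by
  set P : Measure (T d L → ℝ) := Measure.pi fun _ : T d L => μ with hP
  have hC0 : 0 ≤ C := (norm_nonneg _).trans (hC fun _ => 0)
  have hYi : Integrable Y P := Integrable.of_bound (C := C) hY.aestronglyMeasurable
    (Filter.Eventually.of_forall hC)
  have hco : ∀ x : T d L, (∫ U, Y U ∂P) x = ∫ U, (Y U) x ∂P := by
    intro x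
    exact ((EuclideanSpace.proj x : XT d L →L[ℂ] ℂ).integral_comp_comm hYi).symm
  have hcx : ∀ x : T d L, Continuous fun V => (Y V) x := fun x =>
    (EuclideanSpace.proj x : XT d L →L[ℂ] ℂ).continuous.comp hY
  have hbx : ∀ (x : T d L) (V : T d L → ℝ), ‖(Y V) x‖ ≤ C := fun x V =>
    (PiLp.norm_apply_le (Y V) x).trans (hC V)
  have hup : ∀ y : T d L, Measurable fun V : T d L → ℝ => Function.update V y c :=
    fun y => ES.update_meas y c
  have i1 : ∀ x : T d L, Integrable (fun V => ‖(Y V) x - ∫ U, (Y U) x ∂P‖ ^ 2) P := by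
    intro x
    refine int_of P _ ((hcx x).measurable.sub_const _ |>.norm.pow_const 2) ((C + C) ^ 2) fun V => ?_
    rw [abs_pow, abs_norm]
    refine pow_le_pow_left₀ (norm_nonneg _) ((norm_sub_le _ _).trans (add_le_add (hbx x V) ?_)) 2
    have := norm_integral_le_of_norm_le_const (μ := P) (f := fun U => (Y U) x) (C := C)
      (Filter.Eventually.of_forall fun V => hbx x V)
    simpa using this
  have i2 : ∀ x y : T d L, Integrable (fun V => ‖(Y V) x - (Y (Function.update V y c)) x‖ ^ 2) P := by
    intro x y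
    refine int_of P _ (((hcx x).measurable.sub ((hcx x).measurable.comp (hup y))).norm.pow_const 2)
      ((C + C) ^ 2) fun V => ?_
    rw [abs_pow, abs_norm]
    exact pow_le_pow_left₀ (norm_nonneg _) ((norm_sub_le _ _).trans
      (add_le_add (hbx x V) (hbx x _))) 2
  have h1 : ∀ V, ‖Y V - ∫ U, Y U ∂P‖ ^ 2 = ∑ x, ‖(Y V) x - ∫ U, (Y U) x ∂P‖ ^ 2 := by
    intro V
    rw [EuclideanSpace.norm_sq_eq]
    refine Finset.sum_congr rfl fun x _ => ?_
    rw [PiLp.sub_apply, hco]
  have h2 : ∀ V, ∑ y, ‖Y V - Y (Function.update V y c)‖ ^ 2 =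
      ∑ y, ∑ x, ‖(Y V) x - (Y (Function.update V y c)) x‖ ^ 2 := by
    intro V
    refine Finset.sum_congr rfl fun y _ => ?_
    rw [EuclideanSpace.norm_sq_eq]
    exact Finset.sum_congr rfl fun x _ => by rw [PiLp.sub_apply]
  simp only [h1, h2]
  rw [integral_finsetSum _ fun x _ => i1 x,
    integral_finsetSum _ fun y _ => integrable_finsetSum _ fun x _ => i2 x y]
  have h3 : ∀ y : T d L, ∫ V, ∑ x, ‖(Y V) x - (Y (Function.update V y c)) x‖ ^ 2 ∂P =
      ∑ x, ∫ V, ‖(Y V) x - (Y (Function.update V y c)) x‖ ^ 2 ∂P := fun y =>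
    integral_finsetSum _ fun x _ => i2 x y
  simp only [h3]
  rw [Finset.sum_comm]
  refine Finset.sum_le_sum fun x _ => ?_
  exact ES.es (T d L) μ c (fun V => (Y V) x) (hcx x).measurable C (hbx x)

theorem hs_cont : Continuous (hs : (XT d L →L[ℂ] XT d L) → ℝ) := by
  unfold hs
  refine continuous_finsetSum _ fun x _ => ?_
  exact ((ContinuousLinearMap.apply ℂ (XT d L) (es x : XT d L)).continuous.norm).pow 2

/-- the Efron-Stein inequality for operators -/
theorem es_hs (c : ℝ) (X : (T d L → ℝ) → XT d L →L[ℂ] XT d L) (hX : Continuous X) (C : ℝ)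
    (hC : ∀ V, ‖X V‖ ≤ C) :
    ∫ V, hs (X V - ∫ U, X U ∂(Measure.pi fun _ : T d L => μ)) ∂(Measure.pi fun _ : T d L => μ) ≤
      ∫ V, ∑ y, hs (X V - X (Function.update V y c)) ∂(Measure.pi fun _ : T d L => μ) := by
  set P : Measure (T d L → ℝ) := Measure.pi fun _ : T d L => μ with hP
  have hC0 : 0 ≤ C := (norm_nonneg _).trans (hC fun _ => 0)
  have hXi : Integrable X P := Integrable.of_bound (C := C) hX.aestronglyMeasurable
    (Filter.Eventually.of_forall hC)
  have hup : ∀ y : T d L, Continuous fun V : T d L → ℝ => Function.update V y c :=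
    fun y => continuous_id.update y continuous_const
  have hcx : ∀ x : T d L, Continuous fun V => X V (es x) := fun x =>
    hX.clm_apply continuous_const
  have hbx : ∀ (x : T d L) (V : T d L → ℝ), ‖X V (es x)‖ ≤ C := by
    intro x V
    have h2 := (X V).le_opNorm (es x)
    rw [es_norm, mul_one] at h2
    exact h2.trans (hC V)
  have hmean : ∀ x : T d L, (∫ U, X U ∂P) (es x) = ∫ U, X U (es x) ∂P := fun x =>
    ContinuousLinearMap.integral_apply hXi (es x)
  have hmb : ∀ x : T d L, ‖∫ U, X U (es x) ∂P‖ ≤ C := by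
    intro x
    have := norm_integral_le_of_norm_le_const (μ := P) (f := fun U => X U (es x)) (C := C)
      (Filter.Eventually.of_forall fun V => hbx x V)
    simpa using this
  have i1 : ∀ x : T d L, Integrable (fun V => ‖X V (es x) - ∫ U, X U (es x) ∂P‖ ^ 2) P := by
    intro x
    refine int_of P _ (((hcx x).sub continuous_const).norm.pow 2).measurable ((C + C) ^ 2)
      fun V => ?_
    rw [abs_pow, abs_norm]
    exact pow_le_pow_left₀ (norm_nonneg _) ((norm_sub_le _ _).trans
      (add_le_add (hbx x V) (hmb x))) 2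
  have i2 : ∀ x y : T d L,
      Integrable (fun V => ‖X V (es x) - X (Function.update V y c) (es x)‖ ^ 2) P := by
    intro x y
    refine int_of P _ (((hcx x).sub ((hcx x).comp (hup y))).norm.pow 2).measurable ((C + C) ^ 2)
      fun V => ?_
    rw [abs_pow, abs_norm]
    exact pow_le_pow_left₀ (norm_nonneg _) ((norm_sub_le _ _).trans
      (add_le_add (hbx x V) (hbx x _))) 2
  have h1 : ∀ V, hs (X V - ∫ U, X U ∂P) = ∑ x, ‖X V (es x) - ∫ U, X U (es x) ∂P‖ ^ 2 := by
    intro V
    unfold hs
    refine Finset.sum_congr rfl fun x _ => ?_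
    rw [sub_apply, hmean]
  have h2 : ∀ V, ∑ y, hs (X V - X (Function.update V y c)) =
      ∑ x, ∑ y, ‖X V (es x) - X (Function.update V y c) (es x)‖ ^ 2 := by
    intro V
    rw [Finset.sum_comm]
    refine Finset.sum_congr rfl fun y _ => ?_
    unfold hs
    exact Finset.sum_congr rfl fun x _ => by rw [sub_apply]
  simp only [h1, h2]
  rw [integral_finsetSum _ fun x _ => i1 x,
    integral_finsetSum _ fun x _ => integrable_finsetSum _ fun y _ => i2 x y]
  exact Finset.sum_le_sum fun x _ => es_vec_c μ c (fun V => X V (es x)) (hcx x) C (hbx x)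

end

end Pool.Agent.V8H95.NE
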