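import Pool.Agent.V8H95.NE.Oq
import Pool.Agent.V8H95.NM.Fin3

/-!
Every approximate eigenfunction in dimension three.
-/

set_option autoImplicit false
set_option linter.unusedSectionVars false
set_option linter.unusedVariables false

open Complex MeasureTheory
open scoped BigOperators ComplexConjugate

namespace Pool.Agent.V8H95.NE

open Pool.Agent.H4R2.AE Pool.Agent.V8H99.AD Pool.Agent.V8H95.MF Pool.Agent.V8H95.BW
open Pool.Agent.V8H95.EF Pool.Agent.V8H95.NM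

theorem every_q (N P : ℕ) (a : ℝ) (ha : 0 < a) (ha1 : a ≤ 1) :
    ∃ k lam0 : ℝ, 0 < k ∧ 0 < lam0 ∧
    ∀ (μ : Measure ℝ) [IsProbabilityMeasure μ], μ (Set.Icc (-1) 1)ᶜ = 0 →
    ∀ lam : ℝ, 0 < lam → lam ≤ lam0 → ∀ (L : ℕ) [NeZero L],
    1 / lam ^ 3 ≤ (L : ℝ) → (L : ℝ) ≤ 1 / lam ^ N →
    ∃ G : Set (T 3 L → ℝ), MeasurableSet G ∧
      (Measure.pi fun _ : T 3 L => μ).real Gᶜ ≤ lam ^ P ∧
      ∀ V ∈ G, ∀ (ψ : XT 3 L) (E : ℝ), ‖ψ‖ = 1 →
        ‖HC lam V ψ - ((E : ℝ) : ℂ) • ψ‖ ≤ lam ^ 5 → E ≤ k →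
        ∀ x0 : T 3 L, ‖rs (fun x => (nn (x - x0) : ℝ) ≤ lam ^ (a - 2)) ψ‖ ^ 2 ≤
          50 * lam ^ (a / 32) := by
  obtain ⟨N2, hN2⟩ : ∃ N2 : ℕ, N2 = N := ⟨_, rfl⟩
  obtain ⟨P1, hP1⟩ : ∃ P1 : ℕ, P1 = P + 5 := ⟨_, rfl⟩
  obtain ⟨Jb', bq', hJb', hbq', hexp'⟩ := expo (a / 2) (by positivity) (by linarith) (P1 + 3 * N2)
  obtain ⟨M, hM⟩ : ∃ M : ℕ, M = 2 ^ (bq' - 1) := ⟨_, rfl⟩
  have hM1 : 1 ≤ M := by rw [hM]; exact Nat.one_le_two_pow
  obtain ⟨Q, hQ⟩ : ∃ Q : ℕ, Q = 9 * N2 + M + P1 + 21 := ⟨_, rfl⟩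
  obtain ⟨Jb, bq, hJb, hbq, hexp⟩ := expo (a / 2) (by positivity) (by linarith) Q
  obtain ⟨g0, hg0⟩ : ∃ g0 : ℕ, g0 = bq * Jb := ⟨_, rfl⟩
  obtain ⟨p, hp⟩ : ∃ p : ℕ, p = (3 * N2 + 40) * 2 ^ g0 + (6 * N2 + M + P1 + 1) := ⟨_, rfl⟩
  have hpN : 3 * N2 + 40 ≤ p := by
    have hg1 : 1 ≤ 2 ^ g0 := Nat.one_le_two_pow
    have : (3 * N2 + 40) * 1 ≤ (3 * N2 + 40) * 2 ^ g0 := Nat.mul_le_mul_left _ hg1
    omega
  obtain ⟨Cg, Cs, A, hCg, hCs, hA, hGG, hIN, hRC⟩ := consts_exist g0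
  obtain ⟨k', K', hk', hK', HE⟩ := torus_event 3 le_rfl p
  obtain ⟨θ, hθ⟩ : ∃ θ : ℝ, θ = 1 / 3000 := ⟨_, rfl⟩
  have hθ0 : 0 < θ := by rw [hθ]; norm_num
  have hK0 := K0_ge g0
  have hAp : 0 < A := by linarith
  obtain ⟨x0, hx0, hsm⟩ := smallx [4 * Cg, 8 * (Jb + 2), 400 / θ,
    4 * K0 g0 + 4 + 4 * (Jb + 1) * K0 g0, (4 * A * 1 + 800) / θ ^ 2,
    4 * Cs * K0 g0 * A * 1, 4 * Cs * (Jb + 1) * K0 g0, 5000, 4 * K' / θ, 12 / θ, k',
    1 / (k' * (θ / 4) ^ 2 * (a / 32)),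
    4 * A + 1 + 32 * (M : ℝ) ^ 2 * A,
    32 * (M : ℝ) ^ 3 * (2 ^ M) ^ 2 * (1 + (Jb + 1) * K0 g0), 324 * A, 6 * A ^ 2]
  obtain ⟨k, hk⟩ : ∃ k : ℝ, k = 1 / (2 * A ^ 2) := ⟨_, rfl⟩
  have hk0 : 0 < k := by rw [hk]; positivity
  have ha32 : 0 < a / 32 := by positivity
  refine ⟨k, min 1 (x0 ^ (1 / (a / 32))), hk0, by positivity, ?_⟩
  intro μ _ hμ lam hlam hlam0 L _ hL1 hL2
  have hl1 : lam ≤ 1 := hlam0.trans (min_le_left _ _)
  obtain ⟨x, hx⟩ : ∃ x : ℝ, x = lam ^ (a / 32) := ⟨_, rfl⟩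
  have hxp : 0 < x := by rw [hx]; positivity
  have hxx0 : x ≤ x0 := by
    rw [hx]
    have h1 : lam ^ (a / 32) ≤ (x0 ^ (1 / (a / 32))) ^ (a / 32) :=
      Real.rpow_le_rpow hlam.le (hlam0.trans (min_le_right _ _)) ha32.le
    rwa [← Real.rpow_mul hx0.le, one_div_mul_cancel ha32.ne', Real.rpow_one] at h1
  have hS := hsm x hxp hxx0
  have s03 : 4 * Cg * x ≤ 1 := hS _ (by simp)
  have s04 : 8 * (Jb + 2) * x ≤ 1 := hS _ (by simp)
  have s05 : 400 / θ * x ≤ 1 := hS _ (by simp)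
  have s06 : (4 * K0 g0 + 4 + 4 * (Jb + 1) * K0 g0) * x ≤ 1 := hS _ (by simp)
  have s07 : (4 * A * 1 + 800) / θ ^ 2 * x ≤ 1 := hS _ (by simp)
  have s08 : 4 * Cs * K0 g0 * A * 1 * x ≤ 1 := hS _ (by simp)
  have s09 : 4 * Cs * (Jb + 1) * K0 g0 * x ≤ 1 := hS _ (by simp)
  have s12 : 5000 * x ≤ 1 := hS _ (by simp)
  have s20 : 4 * K' / θ * x ≤ 1 := hS _ (by simp)
  have s21 : 12 / θ * x ≤ 1 := hS _ (by simp)
  have s22 : k' * x ≤ 1 := hS _ (by simp)
  have s24 : 1 / (k' * (θ / 4) ^ 2 * (a / 32)) * x ≤ 1 := hS _ (by simp)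
  have s30 : (4 * A + 1 + 32 * (M : ℝ) ^ 2 * A) * x ≤ 1 := hS _ (by simp)
  have s31 : 32 * (M : ℝ) ^ 3 * (2 ^ M) ^ 2 * (1 + (Jb + 1) * K0 g0) * x ≤ 1 := hS _ (by simp)
  have s32 : 324 * A * x ≤ 1 := hS _ (by simp)
  have s33 : 6 * A ^ 2 * x ≤ 1 := hS _ (by simp)
  clear hS hsm
  have hx1 : x ≤ 1 := by rw [hx]; exact Real.rpow_le_one hlam.le hl1 ha32.le
  have hx32 : x ^ 32 = lam ^ a := by
    rw [hx, ← Real.rpow_natCast, ← Real.rpow_mul hlam.le]
    congr 1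
    push_cast
    ring
  have hpw : ∀ n m : ℕ, m ≤ n → x ^ n ≤ x ^ m := fun n m hnm =>
    pow_le_pow_of_le_one hxp.le hx1 hnm
  have hlx32 : lam ≤ x ^ 32 := by
    rw [hx32]
    calc lam = lam ^ (1 : ℝ) := (Real.rpow_one lam).symm
      _ ≤ lam ^ a := Real.rpow_le_rpow_of_exponent_ge hlam hl1 ha1
  have hlx16 : lam ≤ x ^ 16 := hlx32.trans (hpw 32 16 (by norm_num))
  obtain ⟨hxJ, hxb⟩ := hexp lam hlam hl1
  obtain ⟨hxJ', hxb'⟩ := hexp' lam hlam hl1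
  have e32 : a / 2 / 16 = a / 32 := by ring
  rw [e32, ← hx] at hxJ hxb
  rw [e32, ← hx, ← hM] at hxb'
  have hlx8 : lam ≤ x ^ 8 := hlx16.trans (hpw 16 8 (by norm_num))
  have hlx2 : lam ≤ x ^ 2 := hlx16.trans (hpw 16 2 (by norm_num))
  have hlx : lam ≤ x := by
    have := hlx16.trans (hpw 16 1 (by norm_num))
    rwa [pow_one] at this
  have hl5 : lam ≤ 1 / 5000 := by linarith
  have hrp2 : lam ^ (a - 2) = x ^ 32 / lam ^ 2 := by
    rw [hx32, Real.rpow_sub hlam, Real.rpow_ofNat]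
  -- the scales
  obtain ⟨ℓ', hℓ'⟩ : ∃ ℓ', ℓ' = scl 3 k' (θ / 4 / lam) := ⟨_, rfl⟩
  have hθ4 : θ / 4 ≤ 1 / 8 := by rw [hθ]; norm_num
  have t20 : 4 * K' * x ≤ θ := by
    rw [div_mul_eq_mul_div, div_le_one hθ0] at s20
    exact s20
  have t21 : 12 * x ≤ θ := by
    rw [div_mul_eq_mul_div, div_le_one hθ0] at s21
    exact s21
  have h3l : 3 * lam ≤ θ / 4 := by linarith
  have hKl : K' * lam ≤ θ / 4 := by
    have : K' * lam ≤ K' * x := by gcongr
    linarith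
  have t24 : x ≤ k' * (θ / 4) ^ 2 * (a / 32) := by
    rw [div_mul_eq_mul_div, div_le_one (by positivity)] at s24
    linarith
  have g2 : x ^ 2 / lam ^ 2 ≤ ℓ' := by
    have h1 := scl3_ge' k' (θ / 4) lam (a / 32) hk' (by positivity) (by linarith) hlam
      (by linarith) h3l ha32
    rw [← hx, ← hℓ'] at h1
    refine le_trans ?_ h1
    rw [pow_two x]
    gcongr
  have g4 : ℓ' ≤ 1 / lam ^ 3 := by
    rw [hℓ']
    exact scl3_le k' (θ / 4) lam hk' (by positivity) (by linarith) hlam h3l (by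
      have : k' * lam ≤ k' * x := by gcongr
      linarith)
  have g5 : 1 / lam ≤ x ^ 2 / lam ^ 2 := by
    rw [div_le_div_iff₀ hlam (by positivity)]
    calc 1 * lam ^ 2 = lam * lam := by ring
      _ ≤ x ^ 2 * lam := by gcongr
  have hℓ'0 : 0 < ℓ' := lt_of_lt_of_le (by positivity) g2
  have hmono : ∀ n m : ℕ, n ≤ m → 1 / lam ^ n ≤ 1 / lam ^ m := fun n m hnm => by
    apply one_div_le_one_div_of_le (by positivity)
    exact pow_le_pow_of_le_one hlam.le hl1 hnm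
  have hL0 : (1 : ℝ) ≤ L := by
    refine le_trans ?_ hL1
    have := hmono 0 3 (by norm_num)
    rwa [pow_zero, div_one] at this
  rw [← hN2] at hL2
  have hLhi : (L : ℝ) * lam ^ N2 ≤ 1 := by
    rw [le_div_iff₀ (by positivity)] at hL2
    exact hL2
  have hlamL : 1 / lam ≤ lam ^ 2 * L := by
    calc 1 / lam = lam ^ 2 * (1 / lam ^ 3) := by field_simp
      _ ≤ _ := by gcongr
  have hℓ'l : 1 / lam ≤ ℓ' := g5.trans g2
  have hℓ1 : 1 ≤ ℓ' := by
    refine le_trans ?_ hℓ'l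
    rw [le_div_iff₀ hlam]
    linarith
  have hLe : (L : ℝ) ≤ 2 * ℓ' ^ (p + 2) := by
    have h1 : 1 / lam ^ N2 ≤ ℓ' ^ (p + 2) := by
      calc 1 / lam ^ N2 ≤ 1 / lam ^ (p + 2) := hmono _ _ (by omega)
        _ = (1 / lam) ^ (p + 2) := by rw [div_pow, one_pow]
        _ ≤ _ := by gcongr
    have h2 : 0 < ℓ' ^ (p + 2) := by positivity
    linarith
  have hℓL : ℓ' ≤ L := g4.trans hL1
  rw [hℓ'] at hℓ1 hLe hℓL
  obtain ⟨E0, hE, G0, hG0m, hG0P, hG0⟩ := HE μ lam (θ / 4) hlam hKl hθ4 L hℓ1 hLe hℓL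
  rw [← hℓ'] at hℓ1 hLe hℓL hG0P hG0
  obtain ⟨G, hGm, hGP, hG⟩ := Arith.pi_real_inter μ hμ G0 hG0m _ hG0P
  have hGc : (Measure.pi fun _ : T 3 L => μ).real Gᶜ ≤ (ℓ' ^ p)⁻¹ := by
    have := probReal_add_probReal_compl (μ := Measure.pi fun _ : T 3 L => μ) hGm
    linarith
  have hpG : (Measure.pi fun _ : T 3 L => μ).real Gᶜ ≤ lam ^ p := by
    refine hGc.trans ?_
    rw [inv_le_comm₀ (by positivity) (by positivity)]
    calc (lam ^ p)⁻¹ = (1 / lam) ^ p := by rw [div_pow, one_pow, one_div]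
      _ ≤ ℓ' ^ p := by gcongr
  have hm0 : 1 / (L : ℝ) ^ 2 ≤ (ℓ' ^ 2)⁻¹ := by
    rw [← one_div]
    gcongr
  have hm1 : (ℓ' ^ 2)⁻¹ ≤ 1 := inv_le_one_of_one_le₀ (one_le_pow₀ hℓ1)
  have hmp : 0 < (ℓ' ^ 2)⁻¹ := by positivity
  have e4 : 4 * (θ / 4) = θ := by ring
  obtain ⟨c0, hc0d⟩ : ∃ c0 : ℝ, c0 = E0 - 2 * (ℓ' ^ 2)⁻¹ := ⟨_, rfl⟩
  have hGd : ∀ V ∈ G, ∃ ψ : T 3 L → ℝ, Gd lam c0 θ (ℓ' ^ 2)⁻¹ V ψ := by
    intro V hV
    obtain ⟨w, hw1, hw2⟩ := hG0 V (hG V hV).1 (hG V hV).2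
    have := gd_of_mass hlam.le hl1 (by positivity) hθ4 hE (hG V hV).2 hw1 hm0 hm1 hw2
    rw [hc0d]
    rwa [e4] at this
  have hml : (ℓ' ^ 2)⁻¹ ≤ lam ^ 2 := by
    rw [inv_le_comm₀ (by positivity) (by positivity)]
    calc (lam ^ 2)⁻¹ = (1 / lam) ^ 2 := by rw [div_pow, one_pow, one_div]
      _ ≤ ℓ' ^ 2 := by gcongr
  have hc0 : |c0| ≤ 3 := by
    rw [hc0d]
    refine (abs_sub _ _).trans ?_
    rw [abs_of_pos (by positivity : (0 : ℝ) < 2 * (ℓ' ^ 2)⁻¹)]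
    linarith
  -- the small parameters at the energy `κ²`
  have hSm : ∀ κ : ℝ, 0 < κ → lam ^ 2 ≤ κ * x ^ 16 → κ ≤ 1 / A →
      Sm L Cg Cs A g0 bq Jb Q N2 p lam c0 θ (ℓ' ^ 2)⁻¹ κ x θ 1
        1 ((Measure.pi fun _ : T 3 L => μ).real Gᶜ) := by
    intro κ hκ0 hklo hκA
    have hmκ : (ℓ' ^ 2)⁻¹ ≤ x ^ 3 * κ ^ 2 := by
      rw [inv_le_iff_one_le_mul₀ (by positivity)]
      have h1 : (x ^ 2 / lam ^ 2) ^ 2 ≤ ℓ' ^ 2 := by gcongr
      have h2 : (lam ^ 2) ^ 2 ≤ (κ * x ^ 16) ^ 2 := by gcongr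
      calc (1 : ℝ) = lam ^ 4 / lam ^ 4 := by field_simp
        _ ≤ (κ * x ^ 16) ^ 2 / lam ^ 4 := by
            rw [← pow_mul] at h2
            gcongr
        _ = κ ^ 2 * x ^ 32 / lam ^ 4 := by ring
        _ ≤ κ ^ 2 * x ^ 7 / lam ^ 4 := by
            have := hpw 32 7 (by norm_num)
            gcongr
        _ = x ^ 3 * κ ^ 2 * (x ^ 2 / lam ^ 2) ^ 2 := by
            field_simp
        _ ≤ x ^ 3 * κ ^ 2 * ℓ' ^ 2 := by gcongr
    have hkA : A * (1 * κ) ≤ 1 := by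
      rw [le_div_iff₀ hAp] at hκA
      linarith
    have hk2 : 1 * κ ≤ 1 := by
      refine le_trans ?_ hkA
      have h1 : 0 ≤ 1 * κ := by positivity
      nlinarith
    exact
    { lam0 := hlam
      x0 := hxp
      x1 := hx1
      lx := hlx16
      xJ := hxJ
      xb := hxb
      hQ := by omega
      J1 := hJb
      hg := hg0.ge
      hb := hbq
      k0 := hκ0
      klo := hklo
      k1 := hkA
      k2 := hk2
      Lhi := hLhi
      L1 := hL0
      Llo := by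
        refine le_trans ?_ hlamL
        rw [le_div_iff₀ hlam]
        linarith
      Llo2 := by
        rw [one_mul]
        refine le_trans ?_ hlamL
        rw [le_div_iff₀ hlam]
        linarith
      hp := by omega
      pG0 := measureReal_nonneg
      pG1 := hpG
      m0 := hmp.le
      hm := hmκ
      c := hc0
      Cg1 := hCg
      Cs1 := hCs
      A1 := hA
      th0 := hθ0
      thv := le_rfl
      hv := by rw [hθ]
      s20 := one_pos
      s21 := le_rfl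
      K21 := le_rfl
      z1 := hx1
      z2 := by linarith
      z3 := s03
      z4 := s04
      z5 := by
        rw [div_mul_eq_mul_div, div_le_one hθ0] at s05
        exact s05
      z6 := s06
      z7 := by
        rw [div_mul_eq_mul_div, div_le_one (by positivity)] at s07
        exact s07
      z8 := s08
      z9 := s09 }
  -- the radius
  obtain ⟨R, hR⟩ : ∃ R : ℕ, R = ⌊x ^ 32 / lam ^ 2⌋₊ := ⟨_, rfl⟩
  have hr1 : 1 ≤ x ^ 32 / lam ^ 2 := by
    rw [le_div_iff₀ (by positivity)]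
    calc 1 * lam ^ 2 = lam * lam := by ring
      _ ≤ x ^ 32 * 1 := by gcongr
      _ = x ^ 32 := mul_one _
  have hRr : 2 * (R : ℝ) + 1 ≤ 3 * (x ^ 32 / lam ^ 2) := by
    have h1 : (R : ℝ) ≤ x ^ 32 / lam ^ 2 := by
      rw [hR]
      exact Nat.floor_le (by positivity)
    linarith
  obtain ⟨κm, hκm⟩ : ∃ κm : ℝ, κm = lam ^ 2 / x ^ 16 := ⟨_, rfl⟩
  have hκm0 : 0 < κm := by rw [hκm]; positivity
  obtain ⟨n, hn⟩ : ∃ n : ℕ, n = ⌈2 / lam ^ 4⌉₊ := ⟨_, rfl⟩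
  have hn1 : 2 / lam ^ 4 ≤ (n : ℝ) := by rw [hn]; exact Nat.le_ceil _
  have hn2 : (n : ℝ) ≤ 3 / lam ^ 4 := by
    have h1 : (n : ℝ) < 2 / lam ^ 4 + 1 := by
      rw [hn]
      exact Nat.ceil_lt_add_one (by positivity)
    have h2 : (1 : ℝ) ≤ 1 / lam ^ 4 := by
      rw [le_div_iff₀ (by positivity), one_mul]
      exact pow_le_one₀ hlam.le hl1
    have h3 : 3 / lam ^ 4 = 2 / lam ^ 4 + 1 / lam ^ 4 := by ring
    linarith
  have hA1 : 1 / A ≤ 1 := by
    rw [div_le_one hAp]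
    linarith
  obtain ⟨S, hSm', hSP, hS⟩ := grid μ (κm ^ 2) ((1 / A) ^ 2) (lam ^ 4 / 2) (by positivity) n (by
      refine lt_of_lt_of_le ?_ hn1
      rw [div_div_eq_mul_div]
      apply div_lt_div_of_pos_right _ (by positivity)
      have h1 : (1 / A) ^ 2 ≤ 1 := pow_le_one₀ (by positivity) hA1
      have h2 : 0 < κm ^ 2 := by positivity
      linarith) (2 * lam ^ P1) (by positivity)
    (fun V t => ∀ ψ : XT 3 L, ‖HC lam V ψ - ((c0 + t : ℝ) : ℂ) • ψ‖ ≤ lam ^ 5 → ‖ψ‖ = 1 →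
      ∀ y0 : T 3 L, ‖rs (fun y => nn (y - y0) ≤ R) ψ‖ ^ 2 ≤ 50 * x) (by
      intro e he1 he2
      have he0 : 0 < e := lt_of_lt_of_le (by positivity) he1
      have hκe : √e ^ 2 = e := Real.sq_sqrt he0.le
      have hκe0 : 0 < √e := Real.sqrt_pos.2 he0
      have hsm := hSm (√e) hκe0 (by
        have h1 : κm ≤ √e := Real.le_sqrt_of_sq_le he1
        rw [hκm, div_le_iff₀ (by positivity)] at h1
        exact h1) (by
        rw [Real.sqrt_le_left (by positivity)]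
        exact he2)
      obtain ⟨S, h1, h2, h3⟩ := one_e_q μ hμ G hsm hGm hGd hGG hIN hRC M hM1 s30 s12
      refine ⟨S, h1, h2.trans ?_, ?_⟩
      · exact prob_bd hsm M P1 hM1 hxb' (by omega) (by omega) s31
      · intro V hV t ht ψ hψ hψ1 y0
        have hr : ‖HC lam V ψ - ((c0 + t : ℝ) : ℂ) • ψ‖ ≤ lam * et lam (√e) x := by
          refine hψ.trans ?_
          have := hsm.et_ge
          calc lam ^ 5 = lam * lam ^ 4 := by ring
            _ ≤ _ := by gcongr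
        have h4 := h3 V hV ψ (c0 + t) lam hlam.le hr hψ1 (by
          rw [hκe]
          have e1 : c0 + t - (c0 + e) = t - e := by ring
          rw [e1]
          refine ht.trans ?_
          have := hsm.et_ge
          linarith) R y0
        refine h4.trans ?_
        have e2 : 8 * √((3 : ℕ) : ℝ) * et lam (√e) x / √e = 8 * √((3 : ℕ) : ℝ) * (lam ^ 2 / x ^ 8) := by
          unfold et
          field_simp
        rw [e2]
        have h5 : √((3 : ℕ) : ℝ) ≤ 7 / 4 := by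
          rw [Real.sqrt_le_left (by norm_num)]
          norm_num
        have h6 : 1 / (L : ℝ) ≤ lam ^ 2 / x ^ 8 := by
          rw [div_le_div_iff₀ (by positivity) (by positivity)]
          have h7 : x ^ 8 ≤ 1 := pow_le_one₀ hxp.le hx1
          have h8 : 1 ≤ 1 / lam := by
            rw [le_div_iff₀ hlam]
            linarith
          calc 1 * x ^ 8 ≤ 1 := by linarith
            _ ≤ 1 / lam := h8
            _ ≤ lam ^ 2 * L := hlamL
        calc 72 * ((2 * R + 1) * (8 * √((3 : ℕ) : ℝ) * (lam ^ 2 / x ^ 8) + 1 / L)) +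
              48 * (x + lam ^ 2) ≤
            72 * ((3 * (x ^ 32 / lam ^ 2)) * (8 * (7 / 4) * (lam ^ 2 / x ^ 8) + lam ^ 2 / x ^ 8)) +
              48 * (x + (x ^ 2) ^ 2) := by gcongr
          _ = 3240 * x ^ 24 + 48 * (x + x ^ 4) := by
              field_simp
              ring
          _ ≤ 3240 * x ^ 2 + 48 * (x + x ^ 2) := by
              have := hpw 24 2 (by norm_num)
              have := hpw 4 2 (by norm_num)
              gcongr
          _ = (3288 * x) * x + 48 * x := by ring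
          _ ≤ 1 * x + 48 * x := by
              have : 3288 * x ≤ 1 := by linarith
              gcongr
          _ ≤ 50 * x := by linarith)
  refine ⟨G ∩ S, hGm.inter hSm', ?_, ?_⟩
  · have h1 : (Measure.pi fun _ : T 3 L => μ).real (G ∩ S)ᶜ ≤
        (Measure.pi fun _ : T 3 L => μ).real Gᶜ + (Measure.pi fun _ : T 3 L => μ).real Sᶜ := by
      rw [Set.compl_inter]
      exact measureReal_union_le _ _
    have h3 : (n : ℝ) * (2 * lam ^ P1) ≤ 6 * lam ^ (P + 1) := by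
      calc (n : ℝ) * (2 * lam ^ P1) ≤ 3 / lam ^ 4 * (2 * lam ^ P1) := by gcongr
        _ = _ := by
            rw [hP1, show P + 5 = (P + 1) + 4 by ring, pow_add lam (P + 1) 4]
            field_simp
            ring
    have h4 : lam ^ p ≤ lam ^ (P + 1) := pow_le_pow_of_le_one hlam.le hl1 (by omega)
    have h5 : 7 * lam ^ (P + 1) ≤ lam ^ P := by
      calc 7 * lam ^ (P + 1) = (7 * lam) * lam ^ P := by ring
        _ ≤ 1 * lam ^ P := by
            have : 7 * lam ≤ 1 := by linarith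
            gcongr
        _ = _ := one_mul _
    linarith
  · intro V hV ψ E hψ1 hψ hEk y0
    obtain ⟨φ, hφ⟩ := hGd V hV.1
    have hEq := E_ge_q hφ ψ hψ1 E
    have hκm4 : lam ^ 4 ≤ κm ^ 2 := by
      rw [hκm, div_pow, le_div_iff₀ (by positivity)]
      have h1 : (x ^ 16) ^ 2 ≤ 1 := pow_le_one₀ (by positivity) (pow_le_one₀ hxp.le hx1)
      calc lam ^ 4 * (x ^ 16) ^ 2 ≤ lam ^ 4 * 1 := by gcongr
        _ = (lam ^ 2) ^ 2 := by ring
    have hl54 : lam ^ 5 ≤ lam ^ 4 := pow_le_pow_of_le_one hlam.le hl1 (by norm_num)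
    have hmain : ‖rs (fun y => nn (y - y0) ≤ R) ψ‖ ^ 2 ≤ 50 * x := by
      rcases le_total (E - c0) (κm ^ 2) with hlow | hhigh
      · have h1 : ∀ y, ‖ψ y‖ ^ 2 ≤ 12 * A * κm ^ 3 := by
          intro y
          have h1 := low_pt_q hIN hAp.le hφ ψ hψ1 E κm hκm0 (by linarith) (by linarith) y
          refine h1.trans ?_
          have h2 : ‖HC lam V ψ - ((E : ℝ) : ℂ) • ψ‖ ^ 2 ≤ (lam ^ 5) ^ 2 := by gcongr
          have h3 : (lam ^ 5) ^ 2 ≤ κm ^ 4 := by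
            calc (lam ^ 5) ^ 2 ≤ (lam ^ 4) ^ 2 := by gcongr
              _ ≤ (κm ^ 2) ^ 2 := by gcongr
              _ = κm ^ 4 := by ring
          have h4 : 2 * A * ‖HC lam V ψ - ((E : ℝ) : ℂ) • ψ‖ ^ 2 / κm ≤ 2 * A * κm ^ 3 := by
            rw [div_le_iff₀ hκm0]
            calc 2 * A * ‖HC lam V ψ - ((E : ℝ) : ℂ) • ψ‖ ^ 2 ≤ 2 * A * κm ^ 4 := by
                  have := h2.trans h3
                  gcongr
              _ = _ := by ring
          linarith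
        have h2 := cube_mass ψ _ h1 R y0
        refine h2.trans ?_
        calc (2 * (R : ℝ) + 1) ^ 3 * (12 * A * κm ^ 3) ≤
            (3 * (x ^ 32 / lam ^ 2)) ^ 3 * (12 * A * κm ^ 3) := by gcongr
          _ = (324 * A) * x ^ 48 := by
              rw [hκm]
              field_simp
              ring
          _ ≤ (324 * A) * (x * x) := by
              have := hpw 48 2 (by norm_num)
              have e3 : x * x = x ^ 2 := by ring
              rw [e3]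
              gcongr
          _ = (324 * A * x) * x := by ring
          _ ≤ 1 * x := by gcongr
          _ ≤ 50 * x := by linarith
      · refine hS V hV.2 (E - c0) hhigh ?_ ψ ?_ hψ1 y0
        · have h2 : (1 / A) ^ 2 = k + k := by
            rw [hk]
            field_simp
            ring
          have h3 : 3 * lam ≤ k := by
            rw [hk, le_div_iff₀ (by positivity)]
            calc 3 * lam * (2 * A ^ 2) = 6 * A ^ 2 * lam := by ring
              _ ≤ 6 * A ^ 2 * x := by gcongr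
              _ ≤ 1 := s33
          have h4 : -lam ≤ E0 := (abs_le.1 hE).1
          have h5 : lam ^ 2 ≤ lam := by nlinarith
          rw [hc0d]
          linarith
        · have e5 : c0 + (E - c0) = E := by ring
          rw [e5]
          exact hψ
    rw [← hx]
    refine le_trans ?_ hmain
    classical
    rw [rs_norm, rs_norm]
    refine Finset.sum_le_sum fun y _ => ?_
    by_cases h1 : (nn (y - y0) : ℝ) ≤ lam ^ (a - 2)
    · rw [if_pos h1, if_pos (by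
        rw [hR]
        exact Nat.le_floor (by rw [← hrp2]; exact h1))]
    · rw [if_neg h1]
      split_ifs <;> positivity

end Pool.Agent.V8H95.NE
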