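import Pool.Agent.V8H95.NM.Par4

/-!
Hilbert-Schmidt norms and powers of self-adjoint operators.
-/

set_option autoImplicit false
set_option linter.unusedSectionVars false
set_option linter.unusedVariables false

open Complex MeasureTheory
open scoped BigOperators ComplexConjugate

namespace Pool.Agent.V8H95.NE

open Pool.Agent.H4R2.AE Pool.Agent.V8H99.AD Pool.Agent.V8H95.MF Pool.Agent.V8H95.BW
open Pool.Agent.V8H95.EF Pool.Agent.V8H95.NM

variable {d L : ℕ} [NeZero L]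

/-- the square of the Hilbert-Schmidt norm -/
noncomputable def hs (C : XT d L →L[ℂ] XT d L) : ℝ := ∑ x : T d L, ‖C (es x)‖ ^ 2

theorem hs_nonneg (C : XT d L →L[ℂ] XT d L) : 0 ≤ hs C :=
  Finset.sum_nonneg fun _ _ => by positivity

theorem sum_inner_es (f : XT d L) : ∑ x : T d L, ‖(inner ℂ f (es x) : ℂ)‖ ^ 2 = ‖f‖ ^ 2 := by
  rw [EuclideanSpace.norm_sq_eq]
  refine Finset.sum_congr rfl fun x _ => ?_
  rw [← inner_conj_symm, Complex.norm_conj, inner_es]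

theorem hs_aux (b : OrthonormalBasis (T d L) ℂ (XT d L)) (C : XT d L →L[ℂ] XT d L) :
    hs C = ∑ α, ‖(ContinuousLinearMap.adjoint C) (b α)‖ ^ 2 := by
  unfold hs
  have h1 : ∀ x : T d L, ‖C (es x)‖ ^ 2 = ∑ α, ‖(inner ℂ (b α) (C (es x)) : ℂ)‖ ^ 2 := fun x =>
    (b.sum_sq_norm_inner_right _).symm
  simp only [h1]
  rw [Finset.sum_comm]
  refine Finset.sum_congr rfl fun α _ => ?_
  rw [← sum_inner_es]
  exact Finset.sum_congr rfl fun x _ => by rw [ContinuousLinearMap.adjoint_inner_left]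

theorem hs_adj (C : XT d L →L[ℂ] XT d L) : hs (ContinuousLinearMap.adjoint C) = hs C := by
  rw [hs_aux (EuclideanSpace.basisFun (T d L) ℂ) C]
  unfold hs
  refine Finset.sum_congr rfl fun x _ => ?_
  rw [EuclideanSpace.basisFun_apply]
  rfl

theorem hs_basis (b : OrthonormalBasis (T d L) ℂ (XT d L)) (C : XT d L →L[ℂ] XT d L) :
    hs C = ∑ α, ‖C (b α)‖ ^ 2 := by
  rw [← hs_adj C, hs_aux b, ContinuousLinearMap.adjoint_adjoint]

theorem ex_basis (A : XT d L →L[ℂ] XT d L) (hA : IsSelfAdjoint A) :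
    ∃ (b : OrthonormalBasis (T d L) ℂ (XT d L)) (E : T d L → ℝ),
      ∀ α, A (b α) = ((E α : ℝ) : ℂ) • b α := by
  have hT : ((A : XT d L →L[ℂ] XT d L) : XT d L →ₗ[ℂ] XT d L).IsSymmetric :=
    ContinuousLinearMap.isSelfAdjoint_iff_isSymmetric.1 hA
  have hn : Module.finrank ℂ (XT d L) = Fintype.card (T d L) := finrank_euclideanSpace
  set b0 := hT.eigenvectorBasis hn with hb0
  set eq := (Fintype.equivFin (T d L)).symm with heq
  refine ⟨b0.reindex eq, fun α => hT.eigenvalues hn (eq.symm α), fun α => ?_⟩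
  rw [OrthonormalBasis.reindex_apply]
  exact hT.apply_eigenvectorBasis hn _

theorem pow_ev {A : XT d L →L[ℂ] XT d L} {u : XT d L} {E : ℝ} (h : A u = ((E : ℝ) : ℂ) • u)
    (n : ℕ) : (A ^ n) u = ((E ^ n : ℝ) : ℂ) • u := by
  induction n with
  | zero => simp
  | succ n ih =>
    have e : (A ^ (n + 1)) u = (A ^ n) (A u) := by rw [pow_succ]; rfl
    rw [e, h, map_smul, ih, smul_smul]
    congr 1
    push_cast
    ring

theorem inner_pow {A : XT d L →L[ℂ] XT d L} (hA : IsSelfAdjoint A) {u : XT d L} {E : ℝ}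
    (h : A u = ((E : ℝ) : ℂ) • u) (n : ℕ) (v : XT d L) :
    (inner ℂ u ((A ^ n) v) : ℂ) = ((E ^ n : ℝ) : ℂ) * inner ℂ u v := by
  induction n generalizing v with
  | zero => simp
  | succ n ih =>
    have e : (A ^ (n + 1)) v = (A ^ n) (A v) := by rw [pow_succ]; rfl
    rw [e, ih, ← sa_inner hA, h, inner_smul_left, Complex.conj_ofReal]
    push_cast
    ring

theorem pow_diff_real (a b : ℝ) (n : ℕ) :
    (a ^ (n + 1) - b ^ (n + 1)) ^ 2 ≤
      ((n : ℝ) + 1) ^ 2 * ((a - b) ^ 2 * (a ^ n) ^ 2 + (a - b) ^ 2 * (b ^ n) ^ 2) := by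
  have h1 : a ^ (n + 1) - b ^ (n + 1) =
      (∑ i ∈ Finset.range (n + 1), a ^ i * b ^ (n - i)) * (a - b) := by
    have := Commute.geom_sum₂_mul (Commute.all a b) (n + 1)
    rw [← this]
    simp
  set M := max |a| |b| with hM
  have hM0 : 0 ≤ M := (abs_nonneg a).trans (le_max_left _ _)
  have h2 : |∑ i ∈ Finset.range (n + 1), a ^ i * b ^ (n - i)| ≤ (n + 1) * M ^ n := by
    refine (Finset.abs_sum_le_sum_abs _ _).trans ?_
    have h3 : ∀ i ∈ Finset.range (n + 1), |a ^ i * b ^ (n - i)| ≤ M ^ n := by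
      intro i hi
      have hin : i ≤ n := Nat.lt_succ_iff.1 (Finset.mem_range.1 hi)
      rw [abs_mul, abs_pow, abs_pow]
      calc |a| ^ i * |b| ^ (n - i) ≤ M ^ i * M ^ (n - i) := by
            gcongr
            · exact le_max_left _ _
            · exact le_max_right _ _
        _ = M ^ n := by rw [← pow_add, Nat.add_sub_cancel' hin]
    refine (Finset.sum_le_sum h3).trans (le_of_eq ?_)
    simp
  have h3 : (M ^ n) ^ 2 ≤ (a ^ n) ^ 2 + (b ^ n) ^ 2 := by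
    have e : ∀ t : ℝ, (t ^ n) ^ 2 = (|t| ^ n) ^ 2 := fun t => by
      rw [← abs_pow, sq_abs]
    rw [e a, e b]
    rcases max_choice |a| |b| with h | h
    · rw [hM, h]
      have : 0 ≤ (|b| ^ n) ^ 2 := by positivity
      linarith
    · rw [hM, h]
      have : 0 ≤ (|a| ^ n) ^ 2 := by positivity
      linarith
  rw [h1, mul_pow, ← sq_abs (∑ i ∈ Finset.range (n + 1), a ^ i * b ^ (n - i))]
  have h4 := pow_le_pow_left₀ (abs_nonneg _) h2 2
  calc _ ≤ ((n + 1) * M ^ n) ^ 2 * (a - b) ^ 2 := by gcongr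
    _ = ((n : ℝ) + 1) ^ 2 * ((a - b) ^ 2 * (M ^ n) ^ 2) := by ring
    _ ≤ ((n : ℝ) + 1) ^ 2 * ((a - b) ^ 2 * ((a ^ n) ^ 2 + (b ^ n) ^ 2)) := by gcongr
    _ = _ := by ring

/-- **a mean value inequality for powers of self-adjoint operators** -/
theorem hs_pow_sub (A B : XT d L →L[ℂ] XT d L) (hA : IsSelfAdjoint A) (hB : IsSelfAdjoint B)
    (n : ℕ) : hs (A ^ (n + 1) - B ^ (n + 1)) ≤
      ((n : ℝ) + 1) ^ 2 * (hs ((A - B) * A ^ n) + hs ((A - B) * B ^ n)) := by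
  obtain ⟨b, E, hb⟩ := ex_basis A hA
  obtain ⟨b', E', hb'⟩ := ex_basis B hB
  have hex : ∀ C : XT d L →L[ℂ] XT d L, hs C =
      ∑ α, ∑ β, ‖(inner ℂ (b' β) (C (b α)) : ℂ)‖ ^ 2 := by
    intro C
    rw [hs_basis b C]
    exact Finset.sum_congr rfl fun α _ => (b'.sum_sq_norm_inner_right _).symm
  have e1 : ∀ α β, ‖(inner ℂ (b' β) ((A ^ (n + 1) - B ^ (n + 1)) (b α)) : ℂ)‖ ^ 2 =
      (E α ^ (n + 1) - E' β ^ (n + 1)) ^ 2 * ‖(inner ℂ (b' β) (b α) : ℂ)‖ ^ 2 := by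
    intro α β
    rw [sub_apply, inner_sub_right, inner_pow hB (hb' β), pow_ev (hb α),
      inner_smul_right, ← sub_mul, norm_mul, mul_pow, ← Complex.ofReal_sub, Complex.norm_real,
      Real.norm_eq_abs, sq_abs]
  have e2 : ∀ α β, ‖(inner ℂ (b' β) (((A - B) * A ^ n) (b α)) : ℂ)‖ ^ 2 =
      (E α - E' β) ^ 2 * (E α ^ n) ^ 2 * ‖(inner ℂ (b' β) (b α) : ℂ)‖ ^ 2 := by
    intro α β
    have h1 : ((A - B) * A ^ n) (b α) = A ((A ^ n) (b α)) - B ((A ^ n) (b α)) := rfl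
    rw [h1, inner_sub_right, ← sa_inner hB (b' β), hb' β, pow_ev (hb α), map_smul, hb α,
      inner_smul_right, inner_smul_right, inner_smul_right, inner_smul_left, Complex.conj_ofReal]
    have h2 : ((E α ^ n : ℝ) : ℂ) * (((E α : ℝ) : ℂ) * inner ℂ (b' β) (b α)) -
        ((E α ^ n : ℝ) : ℂ) * (((E' β : ℝ) : ℂ) * inner ℂ (b' β) (b α)) =
        (((E α - E' β) * E α ^ n : ℝ) : ℂ) * inner ℂ (b' β) (b α) := by
      push_cast
      ring
    rw [h2, norm_mul, mul_pow, Complex.norm_real, Real.norm_eq_abs, sq_abs, mul_pow]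
  have e3 : ∀ α β, ‖(inner ℂ (b' β) ((B ^ n * (A - B)) (b α)) : ℂ)‖ ^ 2 =
      (E α - E' β) ^ 2 * (E' β ^ n) ^ 2 * ‖(inner ℂ (b' β) (b α) : ℂ)‖ ^ 2 := by
    intro α β
    have h1 : (B ^ n * (A - B)) (b α) = (B ^ n) (A (b α) - B (b α)) := rfl
    rw [h1, inner_pow hB (hb' β), inner_sub_right, ← sa_inner hB (b' β), hb' β, hb α,
      inner_smul_right, inner_smul_left, Complex.conj_ofReal]
    have h2 : ((E' β ^ n : ℝ) : ℂ) * (((E α : ℝ) : ℂ) * inner ℂ (b' β) (b α) -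
        ((E' β : ℝ) : ℂ) * inner ℂ (b' β) (b α)) =
        (((E α - E' β) * E' β ^ n : ℝ) : ℂ) * inner ℂ (b' β) (b α) := by
      push_cast
      ring
    rw [h2, norm_mul, mul_pow, Complex.norm_real, Real.norm_eq_abs, sq_abs, mul_pow]
  have hadj : hs ((A - B) * B ^ n) = hs (B ^ n * (A - B)) := by
    rw [← hs_adj]
    congr 1
    have h4 : star (A - B) = A - B := by
      rw [ContinuousLinearMap.star_eq_adjoint, map_sub, ← ContinuousLinearMap.star_eq_adjoint,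
        ← ContinuousLinearMap.star_eq_adjoint, hA.star_eq, hB.star_eq]
    have h3 : star ((A - B) * B ^ n) = B ^ n * (A - B) := by
      rw [star_mul, star_pow, h4, hB.star_eq]
    exact h3
  rw [hadj, hex, hex, hex, ← Finset.sum_add_distrib, Finset.mul_sum]
  refine Finset.sum_le_sum fun α _ => ?_
  rw [← Finset.sum_add_distrib, Finset.mul_sum]
  refine Finset.sum_le_sum fun β _ => ?_
  rw [e1, e2, e3]
  have h1 := pow_diff_real (E α) (E' β) n
  have h2 : 0 ≤ ‖(inner ℂ (b' β) (b α) : ℂ)‖ ^ 2 := by positivity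
  calc _ ≤ (((n : ℝ) + 1) ^ 2 * ((E α - E' β) ^ 2 * (E α ^ n) ^ 2 +
        (E α - E' β) ^ 2 * (E' β ^ n) ^ 2)) * ‖(inner ℂ (b' β) (b α) : ℂ)‖ ^ 2 := by gcongr
    _ = _ := by ring

theorem hs_mul_sum {ι : Type*} (s : Finset ι) (D : ι → XT d L →L[ℂ] XT d L) (K : ℝ)
    (hD : ∀ u : XT d L, ∑ i ∈ s, ‖D i u‖ ^ 2 ≤ K * ‖u‖ ^ 2) (W : XT d L →L[ℂ] XT d L) :
    ∑ i ∈ s, hs (D i * W) ≤ K * hs W := by
  unfold hs
  rw [Finset.sum_comm, Finset.mul_sum]
  exact Finset.sum_le_sum fun x _ => hD (W (es x))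

theorem hs_le_card (C : XT d L →L[ℂ] XT d L) (K : ℝ) (hC : ‖C‖ ≤ K) :
    hs C ≤ (L : ℝ) ^ d * K ^ 2 := by
  unfold hs
  have h1 : ∀ x ∈ (Finset.univ : Finset (T d L)), ‖C (es x)‖ ^ 2 ≤ K ^ 2 := by
    intro x _
    have h2 := C.le_opNorm (es x)
    rw [es_norm, mul_one] at h2
    exact pow_le_pow_left₀ (norm_nonneg _) (h2.trans hC) 2
  refine (Finset.sum_le_sum h1).trans (le_of_eq ?_)
  rw [Finset.sum_const, Finset.card_univ, nsmul_eq_mul, card_TdL]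

/-- the norm of a vector under a self-adjoint operator, from a power -/
theorem norm_le_hs (A : XT d L →L[ℂ] XT d L) (hA : IsSelfAdjoint A) (n : ℕ) (u : XT d L)
    (hu : ‖u‖ = 1) : (‖A u‖ ^ 2) ^ (n + 1) ≤ hs (A ^ (n + 1)) := by
  obtain ⟨b, E, hb⟩ := ex_basis A hA
  have h0 : ∀ m : ℕ, ‖(A ^ m) u‖ ^ 2 = ∑ α, ‖(inner ℂ (b α) u : ℂ)‖ ^ 2 * (E α ^ m) ^ 2 := by
    intro m
    rw [← b.sum_sq_norm_inner_right]
    refine Finset.sum_congr rfl fun α _ => ?_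
    rw [inner_pow hA (hb α), norm_mul, mul_pow, Complex.norm_real, Real.norm_eq_abs, sq_abs]
    ring
  have h1 := h0 1
  rw [pow_one] at h1
  have h2 := h0 (n + 1)
  have h3 := Real.pow_arith_mean_le_arith_mean_pow Finset.univ
    (fun α => ‖(inner ℂ (b α) u : ℂ)‖ ^ 2) (fun α => E α ^ 2) (fun _ _ => by positivity)
    (by rw [b.sum_sq_norm_inner_right, hu, one_pow]) (fun _ _ => by positivity) (n + 1)
  have h4 : (‖A u‖ ^ 2) ^ (n + 1) ≤ ‖(A ^ (n + 1)) u‖ ^ 2 := by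
    rw [h1, h2]
    simp only [pow_one]
    refine h3.trans (le_of_eq ?_)
    refine Finset.sum_congr rfl fun α _ => ?_
    rw [← pow_mul, ← pow_mul, mul_comm 2 (n + 1)]
  refine h4.trans ?_
  rw [hs_basis b]
  have h5 : ∀ α, ‖(A ^ (n + 1)) (b α)‖ ^ 2 = (E α ^ (n + 1)) ^ 2 := by
    intro α
    rw [pow_ev (hb α), norm_smul, Complex.norm_real, b.norm_eq_one α, mul_one, Real.norm_eq_abs,
      sq_abs]
  rw [h2]
  refine Finset.sum_le_sum fun α _ => ?_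
  rw [h5]
  have h6 : ‖(inner ℂ (b α) u : ℂ)‖ ^ 2 ≤ 1 := by
    have h7 := norm_inner_le_norm (𝕜 := ℂ) (b α) u
    rw [b.norm_eq_one α, hu, mul_one] at h7
    exact pow_le_one₀ (norm_nonneg _) h7
  have h7 : 0 ≤ (E α ^ (n + 1)) ^ 2 := by positivity
  nlinarith

end Pool.Agent.V8H95.NE
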