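import Pool.Agent.V8H95.NE.One

/-!
The eigenfunctions at the lowest energies.
-/

set_option autoImplicit false
set_option linter.unusedSectionVars false
set_option linter.unusedVariables false

open Complex MeasureTheory
open scoped BigOperators ComplexConjugate

namespace Pool.Agent.V8H95.NE

open Pool.Agent.H4R2.AE Pool.Agent.V8H99.AD Pool.Agent.V8H95.MF Pool.Agent.V8H95.BW
open Pool.Agent.V8H95.EF Pool.Agent.V8H95.NM

theorem E_ge_u {d L : ℕ} [NeZero L] {lam c0 η m : ℝ} {V φ : T d L → ℝ}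
    (h : Gd lam c0 η m V φ) (u : XT d L) (hu : ‖u‖ = 1) (E : ℝ)
    (hE : HC lam V u = ((E : ℝ) : ℂ) • u) : c0 ≤ E := by
  have h1 := dir_le' h (und φ u)
  rw [mu_und h] at h1
  have h2 : inner ℂ u (HC lam V u - ((c0 : ℝ) : ℂ) • u) = ((E - c0 : ℝ) : ℂ) := by
    rw [hE, ← sub_smul, inner_smul_right, inner_self_eq_norm_sq_to_K, hu]
    push_cast
    ring
  rw [h2, Complex.ofReal_re] at h1
  have := Dir_nonneg (fun y => (und φ u) y)
  linarith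

theorem GT_ev {d L : ℕ} [NeZero L] {lam : ℝ} {V : T d L → ℝ} {w : ℂ} (hw : w.im ≠ 0)
    (u : XT d L) (E : ℝ) (hE : HC lam V u = ((E : ℝ) : ℂ) • u) :
    GT lam V w u = (((E : ℝ) : ℂ) - w)⁻¹ • u := by
  have h : ((E : ℝ) : ℂ) - w ≠ 0 := by
    intro h
    have h1 := congrArg Complex.im h
    rw [Complex.sub_im, Complex.ofReal_im, zero_sub, Complex.zero_im, neg_eq_zero] at h1
    exact hw h1
  apply rg_uniq (HC_sa lam V) hw
  rw [map_smul, hE, smul_smul, smul_smul, ← sub_smul]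
  have e : (((E : ℝ) : ℂ) - w)⁻¹ * ((E : ℝ) : ℂ) - w * (((E : ℝ) : ℂ) - w)⁻¹ = 1 := by
    field_simp
  rw [e, one_smul]

theorem low_pt {L : ℕ} [NeZero L] {lam c0 η m A : ℝ} {V φ : T 3 L → ℝ} (hIN : INb A)
    (h : Gd lam c0 η m V φ) (u : XT 3 L) (hu : ‖u‖ = 1) (E : ℝ)
    (hE : HC lam V u = ((E : ℝ) : ℂ) • u) (κ : ℝ) (hκ : 0 < κ) (hEκ : E ≤ c0 + κ ^ 2)
    (x : T 3 L) : ‖u x‖ ^ 2 ≤ 2 * A * κ ^ 3 := by
  have hE0 := E_ge_u h u hu E hE
  have hκ2 : 0 < κ ^ 2 := by positivity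
  obtain ⟨z, hz⟩ : ∃ z, z = zz c0 (κ ^ 2) (κ ^ 2) := ⟨_, rfl⟩
  have hzi : z.im = κ ^ 2 := by rw [hz, zz_im]
  have hz0 : 0 < z.im := by rw [hzi]; exact hκ2
  have h1 := hIN L lam c0 η m V φ h x κ hκ
  rw [← hz, XX_eq lam hz0.ne', hzi] at h1
  have h2 : (inner ℂ (GT lam V (conj z) u) (es x) : ℂ) = inner ℂ u (GT lam V z (es x)) :=
    rg_adj (HC_sa lam V) hz0.ne' u (es x)
  rw [GT_ev (conj_im_ne hz0) u E hE] at h2
  have h3 : ‖(inner ℂ u (GT lam V z (es x)) : ℂ)‖ ≤ ‖GT lam V z (es x)‖ := by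
    refine (norm_inner_le_norm _ _).trans ?_
    rw [hu, one_mul]
  rw [← h2, inner_smul_left, norm_mul] at h3
  have h4 : ‖(inner ℂ u (es x) : ℂ)‖ = ‖u x‖ := by
    unfold es
    rw [EuclideanSpace.inner_single_right]
    simp
  rw [h4, Complex.norm_conj, norm_inv] at h3
  have h5 : ‖((E : ℝ) : ℂ) - conj z‖ ^ 2 = (E - c0 - κ ^ 2) ^ 2 + (κ ^ 2) ^ 2 := by
    rw [← zz_norm, ← hz]
    congr 1
    rw [← Complex.norm_conj, map_sub, Complex.conj_ofReal, Complex.conj_conj]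
  have h6 : ‖((E : ℝ) : ℂ) - conj z‖ ^ 2 ≤ 2 * κ ^ 4 := by
    rw [h5]
    nlinarith
  have h7 : 0 < ‖((E : ℝ) : ℂ) - conj z‖ := by
    have : 0 < ‖((E : ℝ) : ℂ) - conj z‖ ^ 2 := by
      rw [h5]
      positivity
    by_contra hc
    have h8 : ‖((E : ℝ) : ℂ) - conj z‖ = 0 := le_antisymm (not_lt.1 hc) (norm_nonneg _)
    rw [h8] at this
    norm_num at this
  rw [inv_mul_le_iff₀ h7] at h3
  have h8 := pow_le_pow_left₀ (norm_nonneg _) h3 2
  rw [mul_pow] at h8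
  have h9 : ‖GT lam V z (es x)‖ ^ 2 ≤ A * κ / κ ^ 2 := by
    rw [le_div_iff₀ hκ2]
    linarith
  calc ‖u x‖ ^ 2 ≤ ‖((E : ℝ) : ℂ) - conj z‖ ^ 2 * ‖GT lam V z (es x)‖ ^ 2 := h8
    _ ≤ (2 * κ ^ 4) * (A * κ / κ ^ 2) := by gcongr
    _ = _ := by field_simp

theorem cube_mass {d L : ℕ} [NeZero L] (u : XT d L) (B : ℝ) (hB : ∀ x, ‖u x‖ ^ 2 ≤ B) (R : ℕ)
    (x0 : T d L) : ‖rs (fun y => nn (y - x0) ≤ R) u‖ ^ 2 ≤ (2 * R + 1) ^ d * B := by
  classical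
  have hB0 : 0 ≤ B := le_trans (by positivity) (hB 0)
  rw [rs_norm, ← Equiv.sum_comp (Equiv.addRight x0)]
  refine (Finset.sum_le_sum (g := fun x => if nn x ≤ R then B else 0) fun x _ => ?_).trans ?_
  · have e : (Equiv.addRight x0) x - x0 = x := by
      show x + x0 - x0 = x
      abel
    rw [e]
    by_cases h1 : nn x ≤ R
    · rw [if_pos h1, if_pos h1]
      exact hB _
    · rw [if_neg h1, if_neg h1]
  rw [← Finset.sum_filter, Finset.sum_const, nsmul_eq_mul]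
  have h2 := cnt_le (d := d) (L := L) R
  have h3 : (((Finset.univ : Finset (T d L)).filter fun x => nn x ≤ R).card : ℝ) ≤
      (2 * R + 1) ^ d := by exact_mod_cast h2
  gcongr

end Pool.Agent.V8H95.NE
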