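import Pool.Agent.V8H95.NE.Exch

/-!
Moments of self-adjoint random operators: a recursion.
-/

set_option autoImplicit false
set_option linter.unusedSectionVars false
set_option linter.unusedVariables false

open Complex MeasureTheory
open scoped BigOperators ComplexConjugate

namespace Pool.Agent.V8H95.NE

open Pool.Agent.H4R2.AE Pool.Agent.V8H99.AD Pool.Agent.V8H95.MF Pool.Agent.V8H95.BW
open Pool.Agent.V8H95.EF Pool.Agent.V8H95.NM

variable {d L : ℕ} [NeZero L]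

section
variable {Ω : Type*} [MeasurableSpace Ω] (P : Measure Ω) [IsProbabilityMeasure P]

theorem var_id (Y : Ω → XT d L) (hY : Integrable Y P) (hY2 : Integrable (fun w => ‖Y w‖ ^ 2) P) :
    ∫ w, ‖Y w‖ ^ 2 ∂P = ∫ w, ‖Y w - ∫ w', Y w' ∂P‖ ^ 2 ∂P + ‖∫ w, Y w ∂P‖ ^ 2 := by
  set a := ∫ w, Y w ∂P with ha
  have h1 : ∀ w, ‖Y w - a‖ ^ 2 = ‖Y w‖ ^ 2 - (2 * (inner ℂ a (Y w) : ℂ).re - ‖a‖ ^ 2) := by
    intro w
    have h2 := norm_sub_sq (𝕜 := ℂ) (Y w) a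
    rw [h2, ← inner_conj_symm]
    simp only [RCLike.re_to_complex, Complex.conj_re]
    ring
  have i1 : Integrable (fun w => (inner ℂ a (Y w) : ℂ)) P := hY.const_inner a
  have i2 : Integrable (fun w => (inner ℂ a (Y w) : ℂ).re) P := i1.re
  have i3 : Integrable (fun w => 2 * (inner ℂ a (Y w) : ℂ).re) P := i2.const_mul 2
  have i4 : Integrable (fun w => 2 * (inner ℂ a (Y w) : ℂ).re - ‖a‖ ^ 2) P :=
    i3.sub (integrable_const _)
  have h3 : ∫ w, (inner ℂ a (Y w) : ℂ).re ∂P = ‖a‖ ^ 2 := by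
    have h4 : ∫ w, (inner ℂ a (Y w) : ℂ).re ∂P = (∫ w, (inner ℂ a (Y w) : ℂ) ∂P).re :=
      integral_re i1
    rw [h4, integral_inner hY a, ← ha]
    have := inner_self_eq_norm_sq (𝕜 := ℂ) a
    simpa using this
  simp only [h1]
  rw [integral_sub hY2 i4, integral_sub i3 (integrable_const _), integral_const_mul, h3]
  simp
  ring

/-- a Cauchy-Schwarz inequality -/
theorem mean_le (F : Ω → XT d L →L[ℂ] XT d L) (w : Ω → XT d L) (v : ℝ) (hv0 : 0 < v)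
    (hs' : ∀ ω, IsSelfAdjoint (F ω)) (hFw : Integrable (fun ω => F ω (w ω)) P)
    (hw2 : Integrable (fun ω => ‖w ω‖ ^ 2) P)
    (hF2 : ∀ u : XT d L, Integrable (fun ω => ‖F ω u‖ ^ 2) P)
    (hv : ∀ u : XT d L, ∫ ω, ‖F ω u‖ ^ 2 ∂P ≤ v * ‖u‖ ^ 2) :
    ‖∫ ω, F ω (w ω) ∂P‖ ^ 2 ≤ v * ∫ ω, ‖w ω‖ ^ 2 ∂P := by
  set a := ∫ ω, F ω (w ω) ∂P with ha
  have i1 : Integrable (fun ω => (inner ℂ a (F ω (w ω)) : ℂ)) P := hFw.const_inner a
  have h1 : ‖a‖ ^ 2 = ∫ ω, (inner ℂ a (F ω (w ω)) : ℂ).re ∂P := by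
    have h4 : ∫ ω, (inner ℂ a (F ω (w ω)) : ℂ).re ∂P =
        (∫ ω, (inner ℂ a (F ω (w ω)) : ℂ) ∂P).re := integral_re i1
    rw [h4, integral_inner hFw a, ← ha]
    have := inner_self_eq_norm_sq (𝕜 := ℂ) a
    simpa using this.symm
  have h2 : ∀ ω, (inner ℂ a (F ω (w ω)) : ℂ).re ≤ 1 / (2 * v) * ‖F ω a‖ ^ 2 +
      v / 2 * ‖w ω‖ ^ 2 := by
    intro ω
    rw [← sa_inner (hs' ω)]
    refine (Complex.re_le_norm _).trans ((norm_inner_le_norm _ _).trans ?_)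
    set p := ‖F ω a‖
    set q := ‖w ω‖
    have h3 : 1 / (2 * v) * p ^ 2 + v / 2 * q ^ 2 - p * q = (p - v * q) ^ 2 / (2 * v) := by
      field_simp
      ring
    have h4 : 0 ≤ (p - v * q) ^ 2 / (2 * v) := by positivity
    linarith
  have h3 : ∫ ω, (inner ℂ a (F ω (w ω)) : ℂ).re ∂P ≤
      1 / (2 * v) * ∫ ω, ‖F ω a‖ ^ 2 ∂P + v / 2 * ∫ ω, ‖w ω‖ ^ 2 ∂P := by
    rw [← integral_const_mul, ← integral_const_mul,
      ← integral_add ((hF2 a).const_mul _) (hw2.const_mul _)]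
    exact integral_mono i1.re (((hF2 a).const_mul _).add (hw2.const_mul _)) h2
  have h4 : 1 / (2 * v) * ∫ ω, ‖F ω a‖ ^ 2 ∂P ≤ 1 / 2 * ‖a‖ ^ 2 := by
    calc 1 / (2 * v) * ∫ ω, ‖F ω a‖ ^ 2 ∂P ≤ 1 / (2 * v) * (v * ‖a‖ ^ 2) := by
          gcongr
          exact hv a
      _ = _ := by field_simp
  linarith

end

section
variable (μ : Measure ℝ) [IsProbabilityMeasure μ]

theorem opn_pow (A : XT d L →L[ℂ] XT d L) (K : ℝ) (hK : 0 ≤ K) (hA : ‖A‖ ≤ K) (n : ℕ)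
    (u : XT d L) : ‖(A ^ n) u‖ ≤ K ^ n * ‖u‖ := by
  induction n generalizing u with
  | zero => simp
  | succ n ih =>
    have e : (A ^ (n + 1)) u = (A ^ n) (A u) := by rw [pow_succ]; rfl
    rw [e]
    calc ‖(A ^ n) (A u)‖ ≤ K ^ n * ‖A u‖ := ih _
      _ ≤ K ^ n * (K * ‖u‖) := by
          gcongr
          exact (A.le_opNorm u).trans (by gcongr)
      _ = _ := by ring

theorem hs_pow_le (A : XT d L →L[ℂ] XT d L) (K : ℝ) (hK : 0 ≤ K) (hA : ‖A‖ ≤ K) (n : ℕ) :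
    hs (A ^ n) ≤ (L : ℝ) ^ d * (K ^ n) ^ 2 := by
  apply hs_le_card
  exact ContinuousLinearMap.opNorm_le_bound _ (by positivity) (opn_pow A K hK hA n)

theorem hs_comm (A B W : XT d L →L[ℂ] XT d L) : hs ((A - B) * W) = hs ((B - A) * W) := by
  unfold hs
  refine Finset.sum_congr rfl fun x _ => ?_
  show ‖(A - B) (W (es x))‖ ^ 2 = ‖(B - A) (W (es x))‖ ^ 2
  rw [sub_apply, sub_apply, norm_sub_rev]

/-- **the recursion for the moments** -/
theorem mom_step (F : (T d L → ℝ) → XT d L →L[ℂ] XT d L) (hFc : Continuous F)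
    (hFs : ∀ V, IsSelfAdjoint (F V)) (hF2 : ∀ V, ‖F V‖ ≤ 2)
    (hμ : μ (Set.Icc (-1) 1)ᶜ = 0) (O : Set (T d L → ℝ)) (hO : MeasurableSet O) (v K : ℝ)
    (hv0 : 0 < v) (hK0 : 0 ≤ K)
    (hv : ∀ u : XT d L, ∫ V, ‖F V u‖ ^ 2 ∂(Measure.pi fun _ : T d L => μ) ≤ v * ‖u‖ ^ 2)
    (hD : ∀ V ∈ O, ∀ c ∈ Set.Icc (-1 : ℝ) 1, ∀ u : XT d L,
      ∑ y, ‖(F V - F (Function.update V y c)) u‖ ^ 2 ≤ K * ‖u‖ ^ 2) (n : ℕ) :
    ∫ V, hs (F V ^ (n + 1)) ∂(Measure.pi fun _ : T d L => μ) ≤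
      (v + 2 * ((n : ℝ) + 1) ^ 2 * K) * ∫ V, hs (F V ^ n) ∂(Measure.pi fun _ : T d L => μ) +
      32 * ((n : ℝ) + 1) ^ 2 * ((L : ℝ) ^ d) ^ 2 * (2 ^ n) ^ 2 *
        (Measure.pi fun _ : T d L => μ).real Oᶜ := by
  set P : Measure (T d L → ℝ) := Measure.pi fun _ : T d L => μ with hP
  have hLd : 0 < (L : ℝ) ^ d := L_pos'
  have hpc : ∀ k : ℕ, Continuous fun V => F V ^ k := fun k => hFc.pow k
  have hpx : ∀ (k : ℕ) (u : XT d L), Continuous fun V => (F V ^ k) u := fun k u =>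
    (hpc k).clm_apply continuous_const
  have hpb : ∀ (k : ℕ) (V : T d L → ℝ) (u : XT d L), ‖(F V ^ k) u‖ ≤ 2 ^ k * ‖u‖ := fun k V u =>
    opn_pow (F V) 2 (by norm_num) (hF2 V) k u
  have hpn : ∀ (k : ℕ) (V : T d L → ℝ), ‖F V ^ k‖ ≤ 2 ^ k := fun k V =>
    ContinuousLinearMap.opNorm_le_bound _ (by positivity) (hpb k V)
  have hpi : ∀ (k : ℕ) (u : XT d L), Integrable (fun V => (F V ^ k) u) P := fun k u =>
    Integrable.of_bound (C := 2 ^ k * ‖u‖) (hpx k u).aestronglyMeasurable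
      (Filter.Eventually.of_forall fun V => hpb k V u)
  have hpi2 : ∀ (k : ℕ) (u : XT d L), Integrable (fun V => ‖(F V ^ k) u‖ ^ 2) P := fun k u => by
    refine int_of P _ ((hpx k u).norm.pow 2).measurable ((2 ^ k * ‖u‖) ^ 2) fun V => ?_
    rw [abs_pow, abs_norm]
    exact pow_le_pow_left₀ (norm_nonneg _) (hpb k V u) 2
  set X : (T d L → ℝ) → XT d L →L[ℂ] XT d L := fun V => F V ^ (n + 1) with hX
  have hXi : Integrable X P := Integrable.of_bound (C := 2 ^ (n + 1)) (hpc (n + 1)).aestronglyMeasurable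
    (Filter.Eventually.of_forall fun V => hpn (n + 1) V)
  have hmean : ∀ x : T d L, (∫ U, X U ∂P) (es x) = ∫ U, X U (es x) ∂P := fun x =>
    ContinuousLinearMap.integral_apply hXi (es x)
  have hmb : ‖∫ U, X U ∂P‖ ≤ 2 ^ (n + 1) := by
    have := norm_integral_le_of_norm_le_const (μ := P) (f := X) (C := 2 ^ (n + 1))
      (Filter.Eventually.of_forall fun V => hpn (n + 1) V)
    simpa using this
  -- the mean part
  have hsum : ∫ V, hs (X V) ∂P = ∑ x : T d L, ∫ V, ‖X V (es x)‖ ^ 2 ∂P := by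
    unfold hs
    exact integral_finsetSum _ fun x _ => hpi2 (n + 1) (es x)
  have hsumn : ∫ V, hs (F V ^ n) ∂P = ∑ x : T d L, ∫ V, ‖(F V ^ n) (es x)‖ ^ 2 ∂P := by
    unfold hs
    exact integral_finsetSum _ fun x _ => hpi2 n (es x)
  have ivar : ∀ x : T d L, Integrable (fun V => ‖X V (es x) - ∫ U, X U (es x) ∂P‖ ^ 2) P := by
    intro x
    refine int_of P _ (((hpx (n + 1) (es x)).sub continuous_const).norm.pow 2).measurable
      ((2 ^ (n + 1) + 2 ^ (n + 1)) ^ 2) fun V => ?_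
    rw [abs_pow, abs_norm]
    refine pow_le_pow_left₀ (norm_nonneg _) ((norm_sub_le _ _).trans (add_le_add ?_ ?_)) 2
    · have := hpb (n + 1) V (es x)
      rwa [es_norm, mul_one] at this
    · rw [← hmean]
      have h2 := (∫ U, X U ∂P).le_opNorm (es x)
      rw [es_norm, mul_one] at h2
      exact h2.trans hmb
  have hsumv : ∫ V, hs (X V - ∫ U, X U ∂P) ∂P =
      ∑ x : T d L, ∫ V, ‖X V (es x) - ∫ U, X U (es x) ∂P‖ ^ 2 ∂P := by
    rw [← integral_finsetSum _ fun x _ => ivar x]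
    congr 1
    funext V
    unfold hs
    exact Finset.sum_congr rfl fun x _ => by rw [sub_apply, hmean]
  have hpart1 : ∫ V, hs (X V) ∂P ≤ ∫ V, hs (X V - ∫ U, X U ∂P) ∂P +
      v * ∫ V, hs (F V ^ n) ∂P := by
    rw [hsum, hsumn, hsumv, Finset.mul_sum, ← Finset.sum_add_distrib]
    refine Finset.sum_le_sum fun x _ => ?_
    rw [var_id P (fun V => X V (es x)) (hpi (n + 1) (es x)) (hpi2 (n + 1) (es x))]
    have e : ∀ V, X V (es x) = F V ((F V ^ n) (es x)) := fun V => by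
      show (F V ^ (n + 1)) (es x) = _
      rw [pow_succ']
      rfl
    have h1 := mean_le P F (fun V => (F V ^ n) (es x)) v hv0 hFs (by
      have := hpi (n + 1) (es x)
      refine this.congr (Filter.Eventually.of_forall fun V => ?_)
      exact e V) (hpi2 n (es x)) (fun u => by
        have := hpi2 1 u
        simpa only [pow_one] using this) hv
    have h2 : ∫ V, X V (es x) ∂P = ∫ V, F V ((F V ^ n) (es x)) ∂P := by
      congr 1
      funext V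
      exact e V
    rw [← h2] at h1
    linarith
  -- the variance part
  have hupc : ∀ y : T d L, Continuous fun q : ℝ × (T d L → ℝ) => Function.update q.2 y q.1 :=
    fun y => continuous_snd.update y continuous_fst
  set Q : Measure (ℝ × (T d L → ℝ)) := μ.prod P with hQ
  have hFu : ∀ y : T d L, Continuous fun q : ℝ × (T d L → ℝ) => F (Function.update q.2 y q.1) :=
    fun y => hFc.comp (hupc y)
  have hFs2 : Continuous fun q : ℝ × (T d L → ℝ) => F q.2 := hFc.comp continuous_snd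
  have cA : ∀ y : T d L, Continuous fun q : ℝ × (T d L → ℝ) =>
      hs ((F q.2 - F (Function.update q.2 y q.1)) * F q.2 ^ n) := fun y =>
    hs_cont.comp ((hFs2.sub (hFu y)).mul (hFs2.pow n))
  have cB : ∀ y : T d L, Continuous fun q : ℝ × (T d L → ℝ) =>
      hs ((F q.2 - F (Function.update q.2 y q.1)) * F (Function.update q.2 y q.1) ^ n) := fun y =>
    hs_cont.comp ((hFs2.sub (hFu y)).mul ((hFu y).pow n))
  have cX : ∀ y : T d L, Continuous fun q : ℝ × (T d L → ℝ) =>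
      hs (X q.2 - X (Function.update q.2 y q.1)) := fun y =>
    hs_cont.comp ((hFs2.pow (n + 1)).sub ((hFu y).pow (n + 1)))
  have hDn : ∀ V W : T d L → ℝ, ‖F V - F W‖ ≤ 4 := fun V W =>
    (norm_sub_le _ _).trans (by linarith [hF2 V, hF2 W])
  have bAB : ∀ V W U : T d L → ℝ, hs ((F V - F W) * F U ^ n) ≤ 16 * ((L : ℝ) ^ d * (2 ^ n) ^ 2) := by
    intro V W U
    have h1 := hs_mul_sum (Finset.univ : Finset Unit) (fun _ => F V - F W) 16 (fun u => by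
      simp only [Finset.univ_unique, Finset.sum_singleton]
      have h2 := (F V - F W).le_opNorm u
      have h3 : ‖(F V - F W) u‖ ≤ 4 * ‖u‖ := h2.trans (by gcongr; exact hDn V W)
      calc ‖(F V - F W) u‖ ^ 2 ≤ (4 * ‖u‖) ^ 2 := by gcongr
        _ = _ := by ring) (F U ^ n)
    simp only [Finset.univ_unique, Finset.sum_singleton] at h1
    refine h1.trans ?_
    gcongr
    exact hs_pow_le (F U) 2 (by norm_num) (hF2 U) n
  have bX : ∀ V W : T d L → ℝ, hs (X V - X W) ≤ (L : ℝ) ^ d * (2 ^ (n + 1) + 2 ^ (n + 1)) ^ 2 :=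
    fun V W => hs_le_card _ _ ((norm_sub_le _ _).trans (add_le_add (hpn _ V) (hpn _ W)))
  have iA : ∀ y : T d L, Integrable (fun q : ℝ × (T d L → ℝ) =>
      hs ((F q.2 - F (Function.update q.2 y q.1)) * F q.2 ^ n)) Q := fun y =>
    int_of Q _ (cA y).measurable _ fun q => by
      rw [abs_of_nonneg (hs_nonneg _)]
      exact bAB _ _ _
  have iB : ∀ y : T d L, Integrable (fun q : ℝ × (T d L → ℝ) =>
      hs ((F q.2 - F (Function.update q.2 y q.1)) * F (Function.update q.2 y q.1) ^ n)) Q := fun y =>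
    int_of Q _ (cB y).measurable _ fun q => by
      rw [abs_of_nonneg (hs_nonneg _)]
      exact bAB _ _ _
  have iX : ∀ y : T d L, Integrable (fun q : ℝ × (T d L → ℝ) =>
      hs (X q.2 - X (Function.update q.2 y q.1))) Q := fun y =>
    int_of Q _ (cX y).measurable _ fun q => by
      rw [abs_of_nonneg (hs_nonneg _)]
      exact bX _ _
  have hpart2 : ∫ V, hs (X V - ∫ U, X U ∂P) ∂P ≤
      ∫ q : ℝ × (T d L → ℝ), ∑ y, hs (X q.2 - X (Function.update q.2 y q.1)) ∂Q := by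
    rw [hQ, integral_prod _ (by rw [← hQ]; exact integrable_finsetSum _ fun y _ => iX y)]
    have h1 : ∀ c : ℝ, ∫ V, hs (X V - ∫ U, X U ∂P) ∂P ≤
        ∫ V, ∑ y, hs (X V - X (Function.update V y c)) ∂P := fun c =>
      es_hs μ c X (hpc (n + 1)) (2 ^ (n + 1)) (hpn (n + 1))
    have h2 := integral_mono (μ := μ) (integrable_const (∫ V, hs (X V - ∫ U, X U ∂P) ∂P))
      ((integrable_finsetSum Finset.univ fun y _ => iX y).integral_prod_left) h1
    have h3 : ∫ _c : ℝ, (∫ V, hs (X V - ∫ U, X U ∂P) ∂P) ∂μ =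
        ∫ V, hs (X V - ∫ U, X U ∂P) ∂P := by simp
    rw [h3] at h2
    exact h2
  have hpart3 : ∫ q : ℝ × (T d L → ℝ), ∑ y, hs (X q.2 - X (Function.update q.2 y q.1)) ∂Q ≤
      ((n : ℝ) + 1) ^ 2 * (∑ y, ∫ q : ℝ × (T d L → ℝ),
        hs ((F q.2 - F (Function.update q.2 y q.1)) * F q.2 ^ n) ∂Q +
      ∑ y, ∫ q : ℝ × (T d L → ℝ), hs ((F q.2 - F (Function.update q.2 y q.1)) *
        F (Function.update q.2 y q.1) ^ n) ∂Q) := by
    rw [integral_finsetSum _ fun y _ => iX y, ← Finset.sum_add_distrib, Finset.mul_sum]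
    refine Finset.sum_le_sum fun y _ => ?_
    rw [← integral_add (iA y) (iB y), ← integral_const_mul]
    refine integral_mono (iX y) (((iA y).add (iB y)).const_mul _) fun q => ?_
    exact hs_pow_sub (F q.2) (F (Function.update q.2 y q.1)) (hFs _) (hFs _) n
  have hpart4 : ∀ y : T d L, ∫ q : ℝ × (T d L → ℝ), hs ((F q.2 - F (Function.update q.2 y q.1)) *
        F (Function.update q.2 y q.1) ^ n) ∂Q =
      ∫ q : ℝ × (T d L → ℝ), hs ((F q.2 - F (Function.update q.2 y q.1)) * F q.2 ^ n) ∂Q := by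
    intro y
    have h1 := exch μ y (fun V W => hs ((F V - F W) * F V ^ n)) (by
      exact (hs_cont.comp (((hFu y).sub hFs2).mul ((hFu y).pow n))).measurable)
    rw [hQ, hP, h1]
    refine integral_congr_ae (Filter.Eventually.of_forall fun q => ?_)
    show hs ((F q.2 - F (Function.update q.2 y q.1)) * F (Function.update q.2 y q.1) ^ n) =
      hs ((F (Function.update q.2 y q.1) - F q.2) * F (Function.update q.2 y q.1) ^ n)
    exact hs_comm _ _ _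
  have hpart5 : ∑ y, ∫ q : ℝ × (T d L → ℝ),
        hs ((F q.2 - F (Function.update q.2 y q.1)) * F q.2 ^ n) ∂Q ≤
      K * ∫ V, hs (F V ^ n) ∂P + 16 * ((L : ℝ) ^ d) ^ 2 * (2 ^ n) ^ 2 * P.real Oᶜ := by
    rw [← integral_finsetSum _ fun y _ => iA y]
    have hae : ∀ᵐ q : ℝ × (T d L → ℝ) ∂Q, q.1 ∈ Set.Icc (-1 : ℝ) 1 := by
      rw [ae_iff]
      have e : {q : ℝ × (T d L → ℝ) | ¬ q.1 ∈ Set.Icc (-1 : ℝ) 1} =
          (Set.Icc (-1 : ℝ) 1)ᶜ ×ˢ Set.univ := by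
        ext q
        simp
      rw [e, hQ, Measure.prod_prod, hμ, zero_mul]
    have ihs : Integrable (fun V => hs (F V ^ n)) P :=
      int_of P _ (hs_cont.comp (hpc n)).measurable _ fun V => by
        rw [abs_of_nonneg (hs_nonneg _)]
        exact hs_pow_le (F V) 2 (by norm_num) (hF2 V) n
    have ihs2 : Integrable (fun q : ℝ × (T d L → ℝ) => K * hs (F q.2 ^ n)) Q :=
      (ihs.comp_snd μ).const_mul K
    have iO : Integrable (Oᶜ.indicator fun _ : T d L → ℝ =>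
        16 * ((L : ℝ) ^ d) ^ 2 * (2 ^ n) ^ 2) P := (integrable_const _).indicator hO.compl
    have iO2 : Integrable (fun q : ℝ × (T d L → ℝ) =>
        Oᶜ.indicator (fun _ : T d L → ℝ => 16 * ((L : ℝ) ^ d) ^ 2 * (2 ^ n) ^ 2) q.2) Q :=
      iO.comp_snd μ
    have h1 := integral_mono_ae (integrable_finsetSum Finset.univ fun y _ => iA y)
      (ihs2.add iO2) (by
        filter_upwards [hae] with q hq
        show ∑ y, hs ((F q.2 - F (Function.update q.2 y q.1)) * F q.2 ^ n) ≤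
          K * hs (F q.2 ^ n) + Oᶜ.indicator (fun _ : T d L → ℝ =>
            16 * ((L : ℝ) ^ d) ^ 2 * (2 ^ n) ^ 2) q.2
        have h0 := hs_nonneg (F q.2 ^ n)
        by_cases hV : q.2 ∈ O
        · rw [Set.indicator_of_notMem (by simpa using hV), add_zero]
          exact hs_mul_sum Finset.univ _ K (hD q.2 hV q.1 hq) _
        · rw [Set.indicator_of_mem (show q.2 ∈ Oᶜ from hV)]
          have h2 : ∑ y : T d L, hs ((F q.2 - F (Function.update q.2 y q.1)) * F q.2 ^ n) ≤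
              ∑ _y : T d L, 16 * ((L : ℝ) ^ d * (2 ^ n) ^ 2) :=
            Finset.sum_le_sum fun y _ => bAB _ _ _
          rw [Finset.sum_const, Finset.card_univ, nsmul_eq_mul, card_TdL] at h2
          have h3 : 0 ≤ K * hs (F q.2 ^ n) := by positivity
          calc _ ≤ _ := h2
            _ = 16 * ((L : ℝ) ^ d) ^ 2 * (2 ^ n) ^ 2 := by ring
            _ ≤ _ := by linarith)
    refine h1.trans (le_of_eq ?_)
    have e1 := integral_add ihs2 iO2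
    refine e1.trans ?_
    have e2 : ∫ q : ℝ × (T d L → ℝ), K * hs (F q.2 ^ n) ∂Q = K * ∫ V, hs (F V ^ n) ∂P := by
      rw [integral_const_mul, hQ, integral_prod _ (by rw [← hQ]; exact ihs.comp_snd μ)]
      simp
    have e3 : ∫ q : ℝ × (T d L → ℝ), Oᶜ.indicator (fun _ : T d L → ℝ =>
        16 * ((L : ℝ) ^ d) ^ 2 * (2 ^ n) ^ 2) q.2 ∂Q =
        16 * ((L : ℝ) ^ d) ^ 2 * (2 ^ n) ^ 2 * P.real Oᶜ := by
      rw [hQ, integral_prod _ (by rw [← hQ]; exact iO2)]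
      have e4 : ∫ V, Oᶜ.indicator (fun _ : T d L → ℝ => 16 * ((L : ℝ) ^ d) ^ 2 * (2 ^ n) ^ 2) V ∂P =
          16 * ((L : ℝ) ^ d) ^ 2 * (2 ^ n) ^ 2 * P.real Oᶜ := by
        rw [integral_indicator hO.compl, setIntegral_const, smul_eq_mul, mul_comm]
      simp only [e4]
      simp
    rw [e2, e3]
  have h6 : ∑ y, ∫ q : ℝ × (T d L → ℝ), hs ((F q.2 - F (Function.update q.2 y q.1)) *
        F (Function.update q.2 y q.1) ^ n) ∂Q = ∑ y, ∫ q : ℝ × (T d L → ℝ),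
        hs ((F q.2 - F (Function.update q.2 y q.1)) * F q.2 ^ n) ∂Q :=
    Finset.sum_congr rfl fun y _ => hpart4 y
  rw [h6] at hpart3
  have h7 : ((n : ℝ) + 1) ^ 2 * (∑ y, ∫ q : ℝ × (T d L → ℝ),
        hs ((F q.2 - F (Function.update q.2 y q.1)) * F q.2 ^ n) ∂Q + ∑ y, ∫ q : ℝ × (T d L → ℝ),
        hs ((F q.2 - F (Function.update q.2 y q.1)) * F q.2 ^ n) ∂Q) ≤
      ((n : ℝ) + 1) ^ 2 * ((K * ∫ V, hs (F V ^ n) ∂P +
        16 * ((L : ℝ) ^ d) ^ 2 * (2 ^ n) ^ 2 * P.real Oᶜ) + (K * ∫ V, hs (F V ^ n) ∂P +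
        16 * ((L : ℝ) ^ d) ^ 2 * (2 ^ n) ^ 2 * P.real Oᶜ)) := by
    gcongr
  calc ∫ V, hs (X V) ∂P ≤ ∫ V, hs (X V - ∫ U, X U ∂P) ∂P + v * ∫ V, hs (F V ^ n) ∂P := hpart1
    _ ≤ ((n : ℝ) + 1) ^ 2 * ((K * ∫ V, hs (F V ^ n) ∂P +
        16 * ((L : ℝ) ^ d) ^ 2 * (2 ^ n) ^ 2 * P.real Oᶜ) + (K * ∫ V, hs (F V ^ n) ∂P +
        16 * ((L : ℝ) ^ d) ^ 2 * (2 ^ n) ^ 2 * P.real Oᶜ)) + v * ∫ V, hs (F V ^ n) ∂P := by
        linarith [hpart2, hpart3, h7]
    _ = _ := by ring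

/-- **the moments** -/
theorem mom_all (F : (T d L → ℝ) → XT d L →L[ℂ] XT d L) (hFc : Continuous F)
    (hFs : ∀ V, IsSelfAdjoint (F V)) (hF2 : ∀ V, ‖F V‖ ≤ 2)
    (hμ : μ (Set.Icc (-1) 1)ᶜ = 0) (O : Set (T d L → ℝ)) (hO : MeasurableSet O) (v K w : ℝ)
    (hv0 : 0 < v) (hK0 : 0 ≤ K)
    (hv : ∀ u : XT d L, ∫ V, ‖F V u‖ ^ 2 ∂(Measure.pi fun _ : T d L => μ) ≤ v * ‖u‖ ^ 2)
    (hD : ∀ V ∈ O, ∀ c ∈ Set.Icc (-1 : ℝ) 1, ∀ u : XT d L,
      ∑ y, ‖(F V - F (Function.update V y c)) u‖ ^ 2 ≤ K * ‖u‖ ^ 2) (N : ℕ)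
    (hw : v + 2 * (N : ℝ) ^ 2 * K ≤ w) (hw1 : w ≤ 1) (n : ℕ) (hn : n ≤ N) :
    ∫ V, hs (F V ^ n) ∂(Measure.pi fun _ : T d L => μ) ≤ (L : ℝ) ^ d * w ^ n +
      n * (32 * (N : ℝ) ^ 2 * ((L : ℝ) ^ d) ^ 2 * (2 ^ N) ^ 2 *
        (Measure.pi fun _ : T d L => μ).real Oᶜ) := by
  induction n with
  | zero =>
    have h1 : hs (1 : XT d L →L[ℂ] XT d L) = (L : ℝ) ^ d := by
      unfold hs
      have : ∀ x : T d L, ‖(1 : XT d L →L[ℂ] XT d L) (es x)‖ ^ 2 = 1 := fun x => by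
        show ‖(es x : XT d L)‖ ^ 2 = 1
        rw [es_norm, one_pow]
      rw [Finset.sum_congr rfl fun x _ => this x, Finset.sum_const, Finset.card_univ,
        nsmul_eq_mul, card_TdL, mul_one]
    simp only [pow_zero, h1]
    simp
  | succ n ih =>
    have h1 := ih (by omega)
    have h2 := mom_step μ F hFc hFs hF2 hμ O hO v K hv0 hK0 hv hD n
    have hn1 : (n : ℝ) + 1 ≤ N := by exact_mod_cast hn
    have hw0 : 0 ≤ w := le_trans (by positivity) hw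
    have hp0 : 0 ≤ (Measure.pi fun _ : T d L => μ).real Oᶜ := measureReal_nonneg
    have hI0 : 0 ≤ ∫ V, hs (F V ^ n) ∂(Measure.pi fun _ : T d L => μ) :=
      integral_nonneg fun V => hs_nonneg _
    set I := ∫ V, hs (F V ^ n) ∂(Measure.pi fun _ : T d L => μ) with hI
    set R := 32 * (N : ℝ) ^ 2 * ((L : ℝ) ^ d) ^ 2 * (2 ^ N) ^ 2 *
        (Measure.pi fun _ : T d L => μ).real Oᶜ with hR
    have hR0 : 0 ≤ R := by positivity
    have h3 : v + 2 * ((n : ℝ) + 1) ^ 2 * K ≤ w := by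
      refine le_trans ?_ hw
      gcongr
    have h4 : 32 * ((n : ℝ) + 1) ^ 2 * ((L : ℝ) ^ d) ^ 2 * (2 ^ n) ^ 2 *
        (Measure.pi fun _ : T d L => μ).real Oᶜ ≤ R := by
      rw [hR]
      have : (2 : ℝ) ^ n ≤ 2 ^ N := pow_le_pow_right₀ (by norm_num) (by omega)
      gcongr
    calc _ ≤ (v + 2 * ((n : ℝ) + 1) ^ 2 * K) * I +
        32 * ((n : ℝ) + 1) ^ 2 * ((L : ℝ) ^ d) ^ 2 * (2 ^ n) ^ 2 *
        (Measure.pi fun _ : T d L => μ).real Oᶜ := h2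
      _ ≤ w * ((L : ℝ) ^ d * w ^ n + n * R) + R := by gcongr
      _ = (L : ℝ) ^ d * w ^ (n + 1) + w * (n * R) + R := by ring
      _ ≤ (L : ℝ) ^ d * w ^ (n + 1) + 1 * (n * R) + R := by gcongr
      _ = _ := by push_cast; ring

/-- **concentration in operator norm** -/
theorem conc (F : (T d L → ℝ) → XT d L →L[ℂ] XT d L) (hFc : Continuous F)
    (hFs : ∀ V, IsSelfAdjoint (F V)) (hF2 : ∀ V, ‖F V‖ ≤ 2)
    (hμ : μ (Set.Icc (-1) 1)ᶜ = 0) (O : Set (T d L → ℝ)) (hO : MeasurableSet O) (v K w : ℝ)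
    (hv0 : 0 < v) (hK0 : 0 ≤ K)
    (hv : ∀ u : XT d L, ∫ V, ‖F V u‖ ^ 2 ∂(Measure.pi fun _ : T d L => μ) ≤ v * ‖u‖ ^ 2)
    (hD : ∀ V ∈ O, ∀ c ∈ Set.Icc (-1 : ℝ) 1, ∀ u : XT d L,
      ∑ y, ‖(F V - F (Function.update V y c)) u‖ ^ 2 ≤ K * ‖u‖ ^ 2) (N : ℕ) (hN : 1 ≤ N)
    (hw : v + 2 * (N : ℝ) ^ 2 * K ≤ w) (hw1 : w ≤ 1) (ϑ : ℝ) (hϑ : 0 < ϑ) :
    ∃ S : Set (T d L → ℝ), MeasurableSet S ∧ (Measure.pi fun _ : T d L => μ).real Sᶜ ≤
      ((L : ℝ) ^ d * w ^ N + N * (32 * (N : ℝ) ^ 2 * ((L : ℝ) ^ d) ^ 2 * (2 ^ N) ^ 2 *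
        (Measure.pi fun _ : T d L => μ).real Oᶜ)) / (ϑ ^ 2) ^ N ∧
      ∀ V ∈ S, ∀ u : XT d L, ‖u‖ = 1 → ‖F V u‖ ^ 2 ≤ ϑ ^ 2 := by
  set P : Measure (T d L → ℝ) := Measure.pi fun _ : T d L => μ with hP
  have hc : Continuous fun V => hs (F V ^ N) := hs_cont.comp (hFc.pow N)
  refine ⟨{V | hs (F V ^ N) ≤ (ϑ ^ 2) ^ N}, measurableSet_le hc.measurable measurable_const, ?_, ?_⟩
  · have h1 := mom_all μ F hFc hFs hF2 hμ O hO v K w hv0 hK0 hv hD N hw hw1 N le_rfl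
    rw [← hP] at h1
    have hi : Integrable (fun V => hs (F V ^ N)) P :=
      int_of P _ hc.measurable _ fun V => by
        rw [abs_of_nonneg (hs_nonneg _)]
        exact hs_pow_le (F V) 2 (by norm_num) (hF2 V) N
    have h2 := mul_meas_ge_le_integral_of_nonneg (μ := P)
      (Filter.Eventually.of_forall fun V => hs_nonneg (F V ^ N)) hi ((ϑ ^ 2) ^ N)
    have hϑN : 0 < (ϑ ^ 2) ^ N := by positivity
    rw [le_div_iff₀ hϑN, mul_comm]
    refine le_trans (le_trans ?_ h2) h1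
    have : {V : T d L → ℝ | hs (F V ^ N) ≤ (ϑ ^ 2) ^ N}ᶜ ⊆ {V | (ϑ ^ 2) ^ N ≤ hs (F V ^ N)} := by
      intro V hV
      have hV' : ¬ hs (F V ^ N) ≤ (ϑ ^ 2) ^ N := hV
      exact (not_le.1 hV').le
    exact mul_le_mul_of_nonneg_left (measureReal_mono this (measure_ne_top P _)) hϑN.le
  · intro V hV u hu
    obtain ⟨n, hn⟩ : ∃ n, N = n + 1 := ⟨N - 1, by omega⟩
    have h1 := norm_le_hs (F V) (hFs V) n u hu
    rw [← hn] at h1
    have h2 : (‖F V u‖ ^ 2) ^ N ≤ (ϑ ^ 2) ^ N := h1.trans hV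
    exact (pow_le_pow_iff_left₀ (by positivity) (by positivity) (by omega)).1 h2

end

end Pool.Agent.V8H95.NE
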