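import Pool.Agent.V8H95.NE.Ev

/-!
The event at one energy: all eigenfunctions near this energy are spread.
-/

set_option autoImplicit false
set_option linter.unusedSectionVars false
set_option linter.unusedVariables false

open Complex MeasureTheory
open scoped BigOperators ComplexConjugate

namespace Pool.Agent.V8H95.NE

open Pool.Agent.H4R2.AE Pool.Agent.V8H99.AD Pool.Agent.V8H95.MF Pool.Agent.V8H95.BW
open Pool.Agent.V8H95.EF Pool.Agent.V8H95.NM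

theorem one_e {L : ℕ} [NeZero L] (μ : Measure ℝ) [IsProbabilityMeasure μ]
    (hμ : μ (Set.Icc (-1) 1)ᶜ = 0) {Cg Cs A : ℝ}
    {g0 bq J Q N2 p : ℕ} {lam c0 θ mg κ x ϑ : ℝ} (G : Set (T 3 L → ℝ))
    (h : Sm L Cg Cs A g0 bq J Q N2 p lam c0 θ mg κ x ϑ 1 1
      ((Measure.pi fun _ : T 3 L => μ).real Gᶜ))
    (hGm : MeasurableSet G) (hG : ∀ V ∈ G, ∃ ψ : T 3 L → ℝ, Gd lam c0 θ mg V ψ)
    (hGG : GGb Cg) (hIN : INb A) (hRC : RCb Cs g0) (N : ℕ) (hN : 1 ≤ N)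
    (z10 : (4 * A + 1 + 32 * (N : ℝ) ^ 2 * A) * x ≤ 1) (z11 : 5000 * x ≤ 1) :
    ∃ S : Set (T 3 L → ℝ), MeasurableSet S ∧ (Measure.pi fun _ : T 3 L => μ).real Sᶜ ≤
      ((L : ℝ) ^ 3 * (x ^ 4) ^ N + N * (32 * (N : ℝ) ^ 2 * ((L : ℝ) ^ 3) ^ 2 * (2 ^ N) ^ 2 *
        ((Measure.pi fun _ : T 3 L => μ).real Gᶜ +
          (J + 1) * (L : ℝ) ^ 3 * K0 g0 / (1 / x) ^ (3 * 2 ^ bq)))) / x ^ N ∧
      ∀ V ∈ S, ∀ (ψ : XT 3 L) (E : ℝ), HC lam V ψ = ((E : ℝ) : ℂ) • ψ → ‖ψ‖ = 1 →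
        |E - (c0 + κ ^ 2)| ≤ et lam κ x / 2 → ∀ (R : ℕ) (x0 : T 3 L),
        ‖rs (fun y => nn (y - x0) ≤ R) ψ‖ ^ 2 ≤
          72 * ((2 * R + 1) * (8 * √((3 : ℕ) : ℝ) * et lam κ x / κ + 1 / L)) + 24 * x := by
  set P : Measure (T 3 L → ℝ) := Measure.pi fun _ : T 3 L => μ with hP
  have hx := h.x0
  have hx1 := h.x1
  have hκ := h.k0
  have hl := h.lam0
  have hA := h.A1
  have hA0 : 0 < A := by linarith
  have hη := h.et0
  obtain ⟨ρ, hρx, hρe, hB⟩ := bh_ok μ G h hGm hG κ (by linarith) (by linarith)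
  have hρ0 := hB.r0
  have hρ1 := hB.r1
  have H1' : lam * (Cg / √κ + 2 / ρ * ((J + 2) * (1 / x * (A * κ) / ρ))) ≤ 1 / 4 := by
    obtain ⟨hke3, hkex, hke0⟩ := h.ke κ (by linarith)
    have hCg := h.Cg1
    have a1 : lam / x ^ 7 ≤ √κ := by
      apply Real.le_sqrt_of_sq_le
      rw [div_pow, div_le_iff₀ (by positivity)]
      calc lam ^ 2 ≤ κ * x ^ 16 := h.klo
        _ ≤ κ * (x ^ 7) ^ 2 := by
            have : x ^ 16 ≤ (x ^ 7) ^ 2 := by
              rw [← pow_mul]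
              exact pow_le_pow_of_le_one hx.le h.x1 (by norm_num)
            gcongr
    have hx2 : x ≤ 1 / 5000 := by linarith
    have hxx : x ^ 6 ≤ 1 / 2 := by
      calc x ^ 6 ≤ x ^ 1 := pow_le_pow_of_le_one hx.le h.x1 (by norm_num)
        _ = x := pow_one x
        _ ≤ 1 / 2 := by linarith
    have a2 : lam * (Cg / √κ) ≤ 1 / 8 := by
      have e1 : lam * (Cg / (lam / x ^ 7)) = Cg * x ^ 7 := by field_simp
      calc lam * (Cg / √κ) ≤ lam * (Cg / (lam / x ^ 7)) := by gcongr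
        _ = Cg * x ^ 7 := e1
        _ = (Cg * x) * x ^ 6 := by ring
        _ ≤ (Cg * x) * (1 / 2) := by gcongr
        _ ≤ 1 / 8 := by linarith [h.z3]
    have h3 : A * κ ≤ 1 := by
      have := h.k1
      linarith
    have hx12 : x ^ 12 ≤ 1 / 2 := by
      calc x ^ 12 ≤ x ^ 1 := pow_le_pow_of_le_one hx.le h.x1 (by norm_num)
        _ = x := pow_one x
        _ ≤ 1 / 2 := by linarith
    have a3 : lam * (2 / ρ * ((J + 2) * (1 / x * (A * κ) / ρ))) ≤ 1 / 8 := by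
      calc lam * (2 / ρ * ((J + 2) * (1 / x * (A * κ) / ρ))) ≤
          x ^ 16 * (2 / x * ((J + 2) * (1 / x * 1 / x))) := by
            have := h.lx
            gcongr
        _ = (2 * (J + 2) * x) * x ^ 12 := by field_simp
        _ ≤ (2 * (J + 2) * x) * (1 / 2) := by gcongr
        _ ≤ 1 / 8 := by linarith [h.z4]
    rw [mul_add]
    linarith
  obtain ⟨hvar, O, hOm, hOP, hO⟩ := descent2 hB hA h.Cs1 hGG hIN hRC h.J1 H1'
  have hcx := next_cx hB hA J le_rfl hvar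
  have hκ4 := kap_le hB hA
  set z := ze c0 κ ρ J with hzd
  have hzi : z.im = κ ^ 2 * ρ ^ J := ze_im _ _ _ _
  have hze : z.im = et lam κ x := hzi.trans hρe
  have hzr : z.re = c0 + κ ^ 2 := zz_re _ _ _
  have hz0 : 0 < z.im := by rw [hze]; exact hη
  obtain ⟨s, hs⟩ : ∃ s, s = 4 * lam ^ 2 * (1 / x * (A * κ) / ρ ^ 2) / (κ ^ 2 * ρ ^ J) := ⟨_, rfl⟩
  rw [← hs] at hvar hcx
  have hb : lam ^ 2 * (1 / x * (A * κ) / ρ ^ 2) / et lam κ x ≤ A * x ^ 5 := by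
    calc lam ^ 2 * (1 / x * (A * κ) / ρ ^ 2) / et lam κ x ≤
        lam ^ 2 * (1 / x * (A * κ) / x ^ 2) / et lam κ x := by gcongr
      _ = A * x ^ 5 := by
          unfold et
          field_simp
  have hs1 : s ≤ 4 * A * x ^ 5 := by
    rw [hs, hρe]
    calc 4 * lam ^ 2 * (1 / x * (A * κ) / ρ ^ 2) / et lam κ x =
        4 * (lam ^ 2 * (1 / x * (A * κ) / ρ ^ 2) / et lam κ x) := by ring
      _ ≤ 4 * (A * x ^ 5) := by gcongr
      _ = _ := by ring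
  have hs0 : 0 < s := by
    rw [hs]
    positivity
  obtain ⟨K, hK⟩ : ∃ K, K = 16 * lam ^ 2 * (1 / x * (A * κ) / ρ) / z.im := ⟨_, rfl⟩
  have hK0 : 0 ≤ K := by
    rw [hK]
    positivity
  have hK1 : K ≤ 16 * A * x ^ 5 := by
    rw [hK, hze]
    have h1 : 1 / x * (A * κ) / ρ ≤ 1 / x * (A * κ) / ρ ^ 2 := by
      have : ρ ^ 2 ≤ ρ := by nlinarith
      gcongr
    calc 16 * lam ^ 2 * (1 / x * (A * κ) / ρ) / et lam κ x ≤
        16 * lam ^ 2 * (1 / x * (A * κ) / ρ ^ 2) / et lam κ x := by gcongr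
      _ = 16 * (lam ^ 2 * (1 / x * (A * κ) / ρ ^ 2) / et lam κ x) := by ring
      _ ≤ 16 * (A * x ^ 5) := by gcongr
      _ = _ := by ring
  have hxe : x * z.im ^ 2 ≤ x ^ 5 := by
    rw [hze]
    have h1 := h.et_le
    have h2 : et lam κ x ≤ x ^ 8 * 1 := by
      refine h1.trans ?_
      have : κ ^ 2 ≤ 1 := pow_le_one₀ hκ.le (by linarith)
      gcongr
    calc x * et lam κ x ^ 2 ≤ x * (x ^ 8 * 1) ^ 2 := by gcongr
      _ = x ^ 17 := by ring
      _ ≤ x ^ 5 := pow_le_pow_of_le_one hx.le h.x1 (by norm_num)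
  have hS := conc μ (Fo μ lam z) (Fo_cont μ lam hz0) (Fo_sa μ lam hz0) (Fo_norm μ lam hz0) hμ O hOm
    (s + x * z.im ^ 2) K (x ^ 4) (by positivity) hK0
    (Fo_var μ lam hz0 s x hs0.le hx.le hvar)
    (fun V hV c hc u => by
      obtain ⟨o1, o2, o3⟩ := hO V hV
      rw [hK]
      exact Fo_sf μ lam hl.le hz0 V o1 o2 _ o3 c (abs_le.2 hc) u) N hN (by
      calc s + x * z.im ^ 2 + 2 * (N : ℝ) ^ 2 * K ≤
          4 * A * x ^ 5 + x ^ 5 + 2 * (N : ℝ) ^ 2 * (16 * A * x ^ 5) := by gcongr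
        _ = ((4 * A + 1 + 32 * (N : ℝ) ^ 2 * A) * x) * x ^ 4 := by ring
        _ ≤ 1 * x ^ 4 := by gcongr
        _ = x ^ 4 := one_mul _) (pow_le_one₀ hx.le hx1) (√x) (Real.sqrt_pos.2 hx)
  obtain ⟨S, hSm, hSP, hS⟩ := hS
  rw [Real.sq_sqrt hx.le] at hSP
  refine ⟨S, hSm, ?_, ?_⟩
  · refine hSP.trans ?_
    have := hOP
    gcongr
  · intro V hV ψ E hE hψ hc R x0
    have hF := hS V hV ψ hψ
    rw [Real.sq_sqrt hx.le] at hF
    have hv := h.hv
    have h1 := eig_cube hcx hzi (by norm_num) ϑ h.thv (by linarith [h.thv]) (by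
        push_cast
        linarith) (by
        rw [hs]
        exact hB.H2) (by
        nlinarith) (by
        rw [hρe]
        have h1 := h.et_le
        have h2 : x ^ 8 ≤ 1 / 5000 := by
          calc x ^ 8 ≤ x ^ 1 := pow_le_pow_of_le_one hx.le h.x1 (by norm_num)
            _ = x := pow_one x
            _ ≤ 1 / 5000 := by linarith
        have h3 : x ^ 8 * κ ^ 2 ≤ 1 / 5000 * κ ^ 2 := by gcongr
        nlinarith [sq_nonneg κ]) κ hκ rfl V ψ E hE hψ (by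
        rw [hzr, hρe]
        exact hc) x hF R x0
    rw [hρe] at h1
    refine h1.trans (le_of_eq ?_)
    push_cast
    ring

end Pool.Agent.V8H95.NE
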