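import Pool.Agent.V8H95.NE.Grid

/-!
Approximate eigenfunctions.
-/

set_option autoImplicit false
set_option linter.unusedSectionVars false
set_option linter.unusedVariables false

open Complex MeasureTheory
open scoped BigOperators ComplexConjugate

namespace Pool.Agent.V8H95.NE

open Pool.Agent.H4R2.AE Pool.Agent.V8H99.AD Pool.Agent.V8H95.MF Pool.Agent.V8H95.BW
open Pool.Agent.V8H95.EF Pool.Agent.V8H95.NM

variable {d L : ℕ} [NeZero L]

theorem Ez_ne' (E : ℝ) {w : ℂ} (hw : w.im ≠ 0) : ((E : ℝ) : ℂ) - w ≠ 0 := by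
  intro h
  have h1 := congrArg Complex.im h
  rw [Complex.sub_im, Complex.ofReal_im, zero_sub, Complex.zero_im, neg_eq_zero] at h1
  exact hw h1

theorem GT_q (lam : ℝ) {w : ℂ} (hw : w.im ≠ 0) (V : T d L → ℝ) (ψ : XT d L) (E : ℝ) :
    GT lam V w ψ = (((E : ℝ) : ℂ) - w)⁻¹ •
      (ψ - GT lam V w (HC lam V ψ - ((E : ℝ) : ℂ) • ψ)) := by
  have h1 : GT lam V w (HC lam V ψ - w • ψ) = ψ := rg_right (HC_sa lam V) hw ψ
  have h2 : ψ - GT lam V w (HC lam V ψ - ((E : ℝ) : ℂ) • ψ) =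
      (((E : ℝ) : ℂ) - w) • GT lam V w ψ := by
    nth_rewrite 1 [← h1]
    rw [← map_sub, ← map_smul]
    congr 1
    rw [sub_smul]
    abel
  rw [h2, smul_smul, inv_mul_cancel₀ (Ez_ne' E hw), one_smul]

theorem w_eq {z : ℂ} (hz : 0 < z.im) (E : ℝ) :
    (((z.im / 2 : ℝ) : ℂ) * (-Complex.I)) * ((((E : ℝ) : ℂ) - z)⁻¹ - (((E : ℝ) : ℂ) - conj z)⁻¹) =
      ((z.im ^ 2 / ‖((E : ℝ) : ℂ) - z‖ ^ 2 : ℝ) : ℂ) := by
  have h1 := Ez_ne' E hz.ne'
  have h2 := Ez_ne' E (conj_im_ne hz)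
  have h3 : ((‖((E : ℝ) : ℂ) - z‖ ^ 2 : ℝ) : ℂ) = (((E : ℝ) : ℂ) - z) * (((E : ℝ) : ℂ) - conj z) := by
    rw [Complex.ofReal_pow, ← Complex.mul_conj', map_sub, Complex.conj_ofReal]
  have h4 : z - conj z = 2 * ((z.im : ℝ) : ℂ) * Complex.I := by
    rw [Complex.sub_conj]
    push_cast
    ring
  have h6 : ((z.im ^ 2 / ‖((E : ℝ) : ℂ) - z‖ ^ 2 : ℝ) : ℂ) =
      (z.im : ℂ) ^ 2 / ((((E : ℝ) : ℂ) - z) * (((E : ℝ) : ℂ) - conj z)) := by
    rw [Complex.ofReal_div, h3, Complex.ofReal_pow]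
  rw [h6]
  have h5 : (((E : ℝ) : ℂ) - z)⁻¹ - (((E : ℝ) : ℂ) - conj z)⁻¹ =
      (z - conj z) / ((((E : ℝ) : ℂ) - z) * (((E : ℝ) : ℂ) - conj z)) := by
    field_simp
    ring
  rw [h5, h4, ← mul_div_assoc]
  congr 1
  push_cast
  have hI : Complex.I * Complex.I = -1 := Complex.I_mul_I
  linear_combination (-(z.im : ℂ) ^ 2) * hI

theorem Ez_ge (E : ℝ) (w : ℂ) : |w.im| ≤ ‖((E : ℝ) : ℂ) - w‖ := by
  have h := Complex.abs_im_le_norm (((E : ℝ) : ℂ) - w)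
  rwa [Complex.sub_im, Complex.ofReal_im, zero_sub, abs_neg] at h

theorem Yo_q (lam : ℝ) {z : ℂ} (hz : 0 < z.im) (V : T d L → ℝ) (ψ : XT d L) (E : ℝ) :
    ‖Yo lam z V ψ - ((z.im ^ 2 / ‖((E : ℝ) : ℂ) - z‖ ^ 2 : ℝ) : ℂ) • ψ‖ ≤
      ‖HC lam V ψ - ((E : ℝ) : ℂ) • ψ‖ / z.im := by
  obtain ⟨r, hr⟩ : ∃ r, r = HC lam V ψ - ((E : ℝ) : ℂ) • ψ := ⟨_, rfl⟩
  rw [Yo_apply, GT_q lam hz.ne' V ψ E, GT_q lam (conj_im_ne hz) V ψ E, ← w_eq hz E, ← hr]
  have e : (((z.im / 2 : ℝ) : ℂ) * (-Complex.I)) • ((((E : ℝ) : ℂ) - z)⁻¹ • (ψ - GT lam V z r) -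
      (((E : ℝ) : ℂ) - conj z)⁻¹ • (ψ - GT lam V (conj z) r)) -
      ((((z.im / 2 : ℝ) : ℂ) * (-Complex.I)) * ((((E : ℝ) : ℂ) - z)⁻¹ -
        (((E : ℝ) : ℂ) - conj z)⁻¹)) • ψ =
      (((z.im / 2 : ℝ) : ℂ) * (-Complex.I)) • ((((E : ℝ) : ℂ) - conj z)⁻¹ • GT lam V (conj z) r -
        (((E : ℝ) : ℂ) - z)⁻¹ • GT lam V z r) := by
    module
  rw [e, norm_smul, coef_norm z hz]
  have h1 : ∀ w : ℂ, |w.im| = z.im → ‖GT lam V w r‖ ≤ ‖r‖ / z.im →
      ‖(((E : ℝ) : ℂ) - w)⁻¹ • GT lam V w r‖ ≤ 1 / z.im * (‖r‖ / z.im) := by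
    intro w hw h
    rw [norm_smul, norm_inv]
    have h2 := Ez_ge E w
    rw [hw] at h2
    have h3 : ‖((E : ℝ) : ℂ) - w‖⁻¹ ≤ 1 / z.im := by
      rw [← one_div]
      exact one_div_le_one_div_of_le hz h2
    gcongr
  have h2 := h1 z (abs_of_pos hz) (GT_norm lam hz V r)
  have h3 := h1 (conj z) (by rw [Complex.conj_im, abs_neg, abs_of_pos hz]) (GT_norm2 lam hz V r)
  calc z.im / 2 * ‖(((E : ℝ) : ℂ) - conj z)⁻¹ • GT lam V (conj z) r -
        (((E : ℝ) : ℂ) - z)⁻¹ • GT lam V z r‖ ≤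
      z.im / 2 * (1 / z.im * (‖r‖ / z.im) + 1 / z.im * (‖r‖ / z.im)) := by
        gcongr
        exact (norm_sub_le _ _).trans (add_le_add h3 h2)
    _ = ‖r‖ / z.im := by field_simp; ring

section
variable (μ : Measure ℝ) [IsProbabilityMeasure μ]

/-- the approximate eigenfunctions are concentrated near the energy shell -/
theorem off_mass_q (lam : ℝ) {z : ℂ} (hz : 0 < z.im) (V : T d L → ℝ) (ψ : XT d L) (E : ℝ)
    (r : ℝ) (hr0 : 0 ≤ r) (hE : ‖HC lam V ψ - ((E : ℝ) : ℂ) • ψ‖ ≤ r * z.im) (hψ : ‖ψ‖ = 1)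
    (hc : |E - z.re| ≤ z.im / 2) (δ : ℝ)
    (hF : ‖Fo μ lam z V ψ‖ ^ 2 ≤ δ) (S : Finset (T d L))
    (hS : ∀ k, k ∉ S → 2 * z.im < ‖Fk μ lam z k‖) :
    ‖ψ - pr S ψ‖ ^ 2 ≤ 24 * (δ + r ^ 2) := by
  classical
  have hLd : 0 < (L : ℝ) ^ d := L_pos'
  obtain ⟨w, hw⟩ : ∃ w, w = z.im ^ 2 / ‖((E : ℝ) : ℂ) - z‖ ^ 2 := ⟨_, rfl⟩
  have hn : ‖((E : ℝ) : ℂ) - z‖ ^ 2 = (E - z.re) ^ 2 + z.im ^ 2 := by
    rw [Complex.sq_norm, Complex.normSq_apply]
    simp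
    ring
  have hwl : 4 / 5 ≤ w := by
    rw [hw, hn, div_le_div_iff₀ (by norm_num) (by positivity)]
    have h1 : (E - z.re) ^ 2 ≤ (z.im / 2) ^ 2 := by
      rw [← sq_abs]
      exact pow_le_pow_left₀ (abs_nonneg _) hc 2
    nlinarith
  have hYq := Yo_q lam hz V ψ E
  rw [← hw] at hYq
  have herr : ‖Yo lam z V ψ - ((w : ℝ) : ℂ) • ψ‖ ≤ r := by
    refine hYq.trans ?_
    rw [div_le_iff₀ hz]
    exact hE
  obtain ⟨g, hg⟩ : ∃ g, g = Fo μ lam z V ψ - (Yo lam z V ψ - ((w : ℝ) : ℂ) • ψ) := ⟨_, rfl⟩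
  have hgn : ‖g‖ ^ 2 ≤ 2 * (δ + r ^ 2) := by
    rw [hg]
    have h1 := norm_sub_le (Fo μ lam z V ψ) (Yo lam z V ψ - ((w : ℝ) : ℂ) • ψ)
    have h2 := pow_le_pow_left₀ (norm_nonneg _) h1 2
    have h3 := pow_le_pow_left₀ (norm_nonneg _) herr 2
    nlinarith [sq_nonneg (‖Fo μ lam z V ψ‖ - ‖Yo lam z V ψ - ((w : ℝ) : ℂ) • ψ‖)]
  have hgk : ∀ k, ft g k = ((w - z.im * (mk μ lam z k).im : ℝ) : ℂ) * ft ψ k := by
    intro k
    have h1 : g = ((w : ℝ) : ℂ) • ψ - Ym μ lam z ψ := by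
      rw [hg]
      have h2 : Fo μ lam z V ψ = Yo lam z V ψ - Ym μ lam z ψ := rfl
      rw [h2]
      abel
    rw [h1, ft_sub, ft_inner, inner_smul_right, ft_inner,
      ← sa_inner (Ym_sa μ lam hz), Ym_pw μ lam hz, inner_smul_left, Complex.conj_ofReal, ft_inner]
    push_cast
    ring
  have hpt : ∀ k, k ∉ S → ‖ft ψ k‖ ^ 2 ≤ 100 / 9 * ‖ft g k‖ ^ 2 := by
    intro k hk
    rw [hgk, norm_mul, Complex.norm_real, Real.norm_eq_abs, mul_pow, sq_abs]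
    have h1 := hS k hk
    rw [F_norm] at h1
    have h2 : z.im * |(mk μ lam z k).im| ≤ 1 / 2 := by
      have h3 : 0 < ‖mk μ lam z k‖ := by
        by_contra hcon
        have h4 : ‖mk μ lam z k‖ = 0 := le_antisymm (not_lt.1 hcon) (norm_nonneg _)
        rw [h4, div_zero] at h1
        linarith
      rw [lt_div_iff₀ h3] at h1
      have h4 := Complex.abs_im_le_norm (mk μ lam z k)
      nlinarith
    have h3 : 3 / 10 ≤ w - z.im * (mk μ lam z k).im := by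
      have h4 : z.im * (mk μ lam z k).im ≤ z.im * |(mk μ lam z k).im| := by
        have := le_abs_self (mk μ lam z k).im
        gcongr
      linarith
    have h4 : (3 / 10) ^ 2 ≤ (w - z.im * (mk μ lam z k).im) ^ 2 := by gcongr
    have h5 : 0 ≤ ‖ft ψ k‖ ^ 2 := by positivity
    nlinarith
  have h1 : (L : ℝ) ^ d * ‖ψ - pr S ψ‖ ^ 2 ≤ 100 / 9 * ((L : ℝ) ^ d * ‖g‖ ^ 2) := by
    rw [← parseval_norm, ← parseval_norm, Finset.mul_sum]
    refine Finset.sum_le_sum fun k _ => ?_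
    rw [ft_sub, ft_pr]
    by_cases hk : k ∈ S
    · rw [if_pos hk, sub_self]
      have h0 : ‖(0 : ℂ)‖ ^ 2 = 0 := by simp
      rw [h0]
      positivity
    · rw [if_neg hk, sub_zero]
      exact hpt k hk
  have h2 : (L : ℝ) ^ d * ‖ψ - pr S ψ‖ ^ 2 ≤ (L : ℝ) ^ d * (24 * (δ + r ^ 2)) := by
    refine h1.trans ?_
    have h3 : 0 ≤ δ := le_trans (by positivity) hF
    calc 100 / 9 * ((L : ℝ) ^ d * ‖g‖ ^ 2) ≤
        100 / 9 * ((L : ℝ) ^ d * (2 * (δ + r ^ 2))) := by gcongr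
      _ ≤ 12 * ((L : ℝ) ^ d * (2 * (δ + r ^ 2))) := by
          have : 0 ≤ (L : ℝ) ^ d * (2 * (δ + r ^ 2)) := by positivity
          linarith
      _ = _ := by ring
  exact le_of_mul_le_mul_left h2 hLd

end

section
variable {μ : Measure ℝ} [IsProbabilityMeasure μ] {lam c0 θ mg : ℝ} {G : Set (T d L → ℝ)} {z : ℂ}
  {e y σ : ℝ}

/-- **the approximate eigenfunctions are spread over cubes** -/
theorem eig_cube_q (h : Cx μ lam c0 θ mg G z e y σ) (hy : z.im = y) (hd : 1 ≤ d) (ϑ : ℝ)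
    (hϑ : θ ≤ ϑ) (hθ : θ ≤ 1 / 1600)
    (hϑ1 : ϑ * (1000 * d) ≤ 1) (hσ : σ ≤ ϑ ^ 2) (he : e ≤ 1 / 2) (hyx : 2 * y ≤ e / 4)
    (κ : ℝ) (hκ : 0 < κ) (hκ2 : κ ^ 2 = e)
    (V : T d L → ℝ) (ψ : XT d L) (E : ℝ)
    (r : ℝ) (hr0 : 0 ≤ r) (hE : ‖HC lam V ψ - ((E : ℝ) : ℂ) • ψ‖ ≤ r * y) (hψ : ‖ψ‖ = 1)
    (hc : |E - z.re| ≤ y / 2) (δ : ℝ)
    (hF : ‖Fo μ lam z V ψ‖ ^ 2 ≤ δ) (R : ℕ) (x0 : T d L) :
    ‖rs (fun x => nn (x - x0) ≤ R) ψ‖ ^ 2 ≤
      8 * (d : ℝ) ^ 2 * ((2 * R + 1) * (8 * √d * y / κ + 1 / L)) + 48 * (δ + r ^ 2) := by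
  classical
  have hL := L_pos (L := L)
  have hy0 := h.y0
  have hz : 0 < z.im := by rw [hy]; exact hy0
  have hd' : (1 : ℝ) ≤ d := by exact_mod_cast hd
  have he0 := h.e0
  set S : Finset (T d L) := Finset.univ.filter fun k => ‖Fk μ lam z k‖ ≤ 2 * y with hS
  set s : ℝ := κ / (2 * √d) with hs
  have hsd : 0 < √(d : ℝ) := Real.sqrt_pos.2 (by linarith)
  have hs0 : 0 < s := by positivity
  have hs2 : s ^ 2 * (4 * d) = e := by
    rw [hs, div_pow, mul_pow, Real.sq_sqrt (by linarith), hκ2]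
    field_simp
    ring
  have hex : ∀ k : T d L, ‖Fk μ lam z k‖ ≤ 2 * y → ∃ a : Fin d × Bool,
      s ≤ (if a.2 then (1 : ℝ) else -1) * (ch k (Pi.single a.1 1)).im := by
    intro k hk
    obtain ⟨h1, h2⟩ := shell h hθ k (hk.trans hyx)
    have h3 : ∃ i, e / (2 * d) ≤ k1q k i := by
      by_contra hcon
      push Not at hcon
      have h4 : kq k < e / 2 := by
        unfold kq
        have hne : (Finset.univ : Finset (Fin d)).Nonempty := ⟨⟨0, by omega⟩, Finset.mem_univ _⟩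
        calc ∑ i, k1q k i < ∑ _i : Fin d, e / (2 * d) :=
              Finset.sum_lt_sum_of_nonempty hne fun i _ => hcon i
          _ = e / 2 := by
              rw [Finset.sum_const, Finset.card_univ, Fintype.card_fin, nsmul_eq_mul]
              field_simp
      linarith
    obtain ⟨i, hi⟩ := h3
    obtain ⟨u1, u2⟩ := ch_re_im k i
    set a := (ch k (Pi.single i 1)).re
    set b := (ch k (Pi.single i 1)).im with hb
    have h5 : k1q k i ≤ 1 := (k1q_le k i).trans (h2.trans (by linarith))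
    have h6 : s ^ 2 ≤ b ^ 2 := by
      have e1 : a = 1 - k1q k i / 2 := by linarith
      have e2 : b ^ 2 = k1q k i - k1q k i ^ 2 / 4 := by
        rw [e1] at u1
        nlinarith
      have e3 : e / (2 * d) = 2 * s ^ 2 := by
        rw [← hs2]
        field_simp
        ring
      rw [e3] at hi
      have := k1q_nonneg k i
      nlinarith
    have h7 : s ≤ |b| := by
      have := sq_le_sq.1 h6
      rwa [abs_of_pos hs0] at this
    rcases le_abs.1 h7 with h8 | h8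
    · exact ⟨(i, true), by simpa using h8⟩
    · exact ⟨(i, false), by simpa using h8⟩
  have hj0 : ∀ k : T d L, ∃ a : Fin d × Bool, k ∈ S →
      s ≤ (if a.2 then (1 : ℝ) else -1) * (ch k (Pi.single a.1 1)).im := by
    intro k
    by_cases hk : k ∈ S
    · have hk' := hk
      rw [hS, Finset.mem_filter] at hk'
      obtain ⟨a, ha⟩ := hex k hk'.2
      exact ⟨a, fun _ => ha⟩
    · exact ⟨(⟨0, by omega⟩, true), fun h => absurd h hk⟩
  choose j hj using hj0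
  set nS : ℝ := 2 * (2 * y * L / s) + 1 with hnS
  have hnS0 : 0 ≤ nS := by positivity
  have hcount : ∀ a : Fin d × Bool, ∀ k ∈ S, j k = a →
      (((Finset.univ : Finset (ZMod L)).filter fun n =>
      k + Pi.single a.1 n ∈ S ∧ j (k + Pi.single a.1 n) = a).card : ℝ) ≤ nS := by
    intro a k hk hka
    have hk0 := hj k hk
    rw [hka] at hk0
    have hsub : ((Finset.univ : Finset (ZMod L)).filter fun n =>
        k + Pi.single a.1 n ∈ S ∧ j (k + Pi.single a.1 n) = a) ⊆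
        (Finset.univ : Finset (ZMod L)).filter fun n => na n ≤ ⌊2 * y * L / s⌋₊ := by
      intro n hn
      rw [Finset.mem_filter] at hn
      rw [Finset.mem_filter]
      refine ⟨Finset.mem_univ _, ?_⟩
      have hn0 := hj _ hn.2.1
      rw [hn.2.2] at hn0
      have hkS := hk
      have hnS' := hn.2.1
      rw [hS, Finset.mem_filter] at hkS hnS'
      have h3 := line h hd ϑ hϑ hϑ1 hσ he (2 * y) hyx k a.1 n (if a.2 then (1 : ℝ) else -1)
        (by split_ifs <;> norm_num) s hs0 hs2 hkS.2 hnS'.2 hk0 hn0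
      have h4 : (na ((Pi.single a.1 n : T d L) a.1) : ℝ) ≤ 2 * y * L / s := by
        apply na_bound _ _ _ (by positivity)
        unfold k1q
        apply pow_le_pow_left₀ (norm_nonneg _)
        rw [← mul_div_assoc, div_div, le_div_iff₀ (by positivity)]
        nlinarith
      rw [Pi.single_eq_same] at h4
      exact Nat.le_floor h4
    have h5 := (Finset.card_le_card hsub).trans (cnt1_le _)
    have h6 : (⌊2 * y * L / s⌋₊ : ℝ) ≤ 2 * y * L / s := Nat.floor_le (by positivity)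
    have h7 : (((Finset.univ : Finset (ZMod L)).filter fun n =>
        k + Pi.single a.1 n ∈ S ∧ j (k + Pi.single a.1 n) = a).card : ℝ) ≤
        2 * (⌊2 * y * L / s⌋₊ : ℝ) + 1 := by exact_mod_cast h5
    linarith
  have hoff := off_mass_q μ lam hz V ψ E r hr0 (by rw [hy]; exact hE) hψ (by rw [hy]; exact hc) δ hF
    S (by
    intro k hk
    rw [hS, Finset.mem_filter, not_and, not_le] at hk
    rw [hy]
    exact hk (Finset.mem_univ k))
  have hmain := cube_pieces ψ S j (fun a => a.1) nS hnS0 hcount R x0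
  refine hmain.trans ?_
  have hcard : (Fintype.card (Fin d × Bool) : ℝ) = 2 * d := by
    rw [Fintype.card_prod, Fintype.card_fin, Fintype.card_bool]
    push_cast
    ring
  have hnL : nS / L = 8 * √d * y / κ + 1 / L := by
    rw [hnS, hs]
    field_simp
    ring
  rw [hcard, hψ, hnL, one_pow, mul_one]
  have h9 : 2 * (2 * (d : ℝ)) ^ 2 = 8 * (d : ℝ) ^ 2 := by ring
  rw [h9]
  linarith

end

end Pool.Agent.V8H95.NE
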