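import Pool.Agent.V8H95.NE.Yop

/-!
Functions with few momenta on every line are spread over slabs.
-/

set_option autoImplicit false
set_option linter.unusedSectionVars false
set_option linter.unusedVariables false

open Complex MeasureTheory
open scoped BigOperators ComplexConjugate

namespace Pool.Agent.V8H95.NE

open Pool.Agent.H4R2.AE Pool.Agent.V8H99.AD Pool.Agent.V8H95.MF Pool.Agent.V8H95.BW
open Pool.Agent.V8H95.EF Pool.Agent.V8H95.NM

variable {d L : ℕ} [NeZero L]

theorem ft_inner (f : XT d L) (q : T d L) : ft f q = inner ℂ (pw q) f := by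
  rw [inner_eq]
  rfl

theorem ft_add (f h : XT d L) (q : T d L) : ft (f + h) q = ft f q + ft h q := by
  rw [ft_inner, ft_inner, ft_inner, inner_add_right]

theorem ft_Tw (f : XT d L) (q k : T d L) : ft (Tw q f) k = ft f (k + q) := by
  rw [ft_inner, inner_Tw, ft_inner]

theorem ch_one_dim (i : Fin d) (n : ZMod L) (x : T d L) :
    ch (Pi.single i n : T d L) x = ZMod.stdAddChar (n * x i) := by
  unfold ch
  congr 1
  rw [Finset.sum_eq_single i]
  · rw [Pi.single_eq_same]
  · intro j _ hj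
    rw [Pi.single_eq_of_ne hj, zero_mul]
  · intro h
    exact absurd (Finset.mem_univ i) h

theorem orth_one (i : Fin d) (x : T d L) (t : ZMod L) :
    ∑ n : ZMod L, conj (ch (Pi.single i n : T d L) x) * ZMod.stdAddChar (n * t) =
      if x i = t then (L : ℂ) else 0 := by
  have h1 : ∀ n : ZMod L, conj (ch (Pi.single i n : T d L) x) * (ZMod.stdAddChar (n * t) : ℂ) =
      ZMod.stdAddChar (n * (t - x i)) := by
    intro n
    have e : (ZMod.stdAddChar (n * (t - x i)) : ℂ) =
        ZMod.stdAddChar (n * t) * ZMod.stdAddChar (-(n * x i)) := by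
      rw [mul_sub, sub_eq_add_neg, AddChar.map_add_eq_mul]
    rw [e, mul_comm (conj _)]
    congr 1
    have h2 := ch_conj (Pi.single i n : T d L) x
    have h3 : (ZMod.stdAddChar (-(n * x i)) : ℂ) * ch (Pi.single i n : T d L) x = 1 := by
      rw [ch_one_dim, ← AddChar.map_add_eq_mul, neg_add_cancel, AddChar.map_zero_eq_one]
    have h4 : ch (Pi.single i n : T d L) x ≠ 0 := by
      intro h0
      rw [h0, mul_zero] at h2
      exact zero_ne_one h2
    exact mul_right_cancel₀ h4 (h2.trans h3.symm)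
  rw [Finset.sum_congr rfl fun n _ => h1 n,
    AddChar.sum_mulShift (t - x i) (ZMod.isPrimitive_stdAddChar L), ZMod.card]
  by_cases h : x i = t
  · rw [if_pos h, if_pos (by rw [h, sub_self])]
  · rw [if_neg h, if_neg (sub_ne_zero.2 (Ne.symm h))]
    simp

theorem dcount {G Z : Type} [AddCommGroup G] [Fintype G] [DecidableEq G] [AddCommGroup Z]
    [Fintype Z] (φ : Z → G) (hφ : ∀ n, φ (-n) = -φ n) (S : Finset G) (a : G → ℝ)
    (ha : ∀ k, 0 ≤ a k) (nS : ℝ)
    (hn : ∀ k ∈ S, (((Finset.univ : Finset Z).filter fun n => k + φ n ∈ S).card : ℝ) ≤ nS)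
    (hS : ∀ k, k ∉ S → a k = 0) :
    ∑ n : Z, ∑ k : G, (if k ∈ S ∧ k + φ n ∈ S then (a k + a (k + φ n)) / 2 else 0) ≤
      nS * ∑ k, a k := by
  have h0 : ∑ n : Z, ∑ k : G, (if k ∈ S ∧ k + φ n ∈ S then a k else 0) ≤ nS * ∑ k, a k := by
    rw [Finset.sum_comm, Finset.mul_sum]
    refine Finset.sum_le_sum fun k _ => ?_
    by_cases hk : k ∈ S
    · simp only [hk, true_and]
      rw [← Finset.sum_filter, Finset.sum_const, nsmul_eq_mul]
      have := hn k hk
      have := ha k
      gcongr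
    · simp only [hk, false_and, if_false, Finset.sum_const_zero]
      rw [hS k hk, mul_zero]
  have h1 : ∑ n : Z, ∑ k : G, (if k ∈ S ∧ k + φ n ∈ S then a (k + φ n) else 0) =
      ∑ n : Z, ∑ k : G, (if k ∈ S ∧ k + φ n ∈ S then a k else 0) := by
    have h2 : ∀ n : Z, ∑ k : G, (if k ∈ S ∧ k + φ n ∈ S then a (k + φ n) else 0) =
        ∑ k : G, (if k ∈ S ∧ k + φ (-n) ∈ S then a k else 0) := by
      intro n
      have h3 := Equiv.sum_comp (Equiv.addRight (φ n)) (fun k : G =>
        (if k ∈ S ∧ k + φ (-n) ∈ S then a k else 0))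
      rw [← h3]
      refine Finset.sum_congr rfl fun k _ => ?_
      simp only [Equiv.coe_addRight, hφ, add_neg_cancel_right]
      simp only [and_comm]
    rw [Finset.sum_congr rfl fun n _ => h2 n]
    exact Equiv.sum_comp (Equiv.neg Z) (fun n => ∑ k : G,
      (if k ∈ S ∧ k + φ n ∈ S then a k else 0))
  have h2 : ∑ n : Z, ∑ k : G, (if k ∈ S ∧ k + φ n ∈ S then (a k + a (k + φ n)) / 2 else 0) =
      1 / 2 * ∑ n : Z, ∑ k : G, (if k ∈ S ∧ k + φ n ∈ S then a k else 0) +
      1 / 2 * ∑ n : Z, ∑ k : G, (if k ∈ S ∧ k + φ n ∈ S then a (k + φ n) else 0) := by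
    rw [Finset.mul_sum, Finset.mul_sum, ← Finset.sum_add_distrib]
    refine Finset.sum_congr rfl fun n _ => ?_
    rw [Finset.mul_sum, Finset.mul_sum, ← Finset.sum_add_distrib]
    refine Finset.sum_congr rfl fun k _ => ?_
    split_ifs <;> ring
  rw [h2, h1]
  linarith

theorem single_neg' (i : Fin d) (n : ZMod L) :
    (Pi.single i (-n) : T d L) = -(Pi.single i n : T d L) := by
  funext j
  by_cases hj : j = i
  · subst hj
    simp
  · rw [Pi.neg_apply, Pi.single_eq_of_ne hj, Pi.single_eq_of_ne hj, neg_zero]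

/-- **the mass in a hyperplane** -/
theorem slab (f : XT d L) (S : Finset (T d L)) (hS : ∀ k, k ∉ S → ft f k = 0) (i : Fin d)
    (nS : ℝ) (hn : ∀ k ∈ S, (((Finset.univ : Finset (ZMod L)).filter fun n =>
      k + Pi.single i n ∈ S).card : ℝ) ≤ nS) (t : ZMod L) :
    (L : ℝ) * ∑ x : T d L, (if x i = t then ‖f x‖ ^ 2 else 0) ≤ nS * ‖f‖ ^ 2 := by
  have hLd : 0 < (L : ℝ) ^ d := L_pos'
  -- the expansion of the indicator
  have h1 : (((L : ℝ) * ∑ x : T d L, (if x i = t then ‖f x‖ ^ 2 else 0) : ℝ) : ℂ) =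
      ∑ n : ZMod L, ZMod.stdAddChar (n * t) * inner ℂ f (Tw (Pi.single i n : T d L) f) := by
    have h2 : ∀ n : ZMod L, (ZMod.stdAddChar (n * t) : ℂ) *
        inner ℂ f (Tw (Pi.single i n : T d L) f) = ∑ x : T d L,
          (conj (ch (Pi.single i n : T d L) x) * ZMod.stdAddChar (n * t)) *
            ((‖f x‖ ^ 2 : ℝ) : ℂ) := by
      intro n
      rw [inner_eq, Finset.mul_sum]
      refine Finset.sum_congr rfl fun x _ => ?_
      rw [Tw_apply, Complex.ofReal_pow, ← Complex.conj_mul']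
      ring
    rw [Finset.sum_congr rfl fun n _ => h2 n, Finset.sum_comm, Complex.ofReal_mul,
      Complex.ofReal_sum, Finset.mul_sum]
    refine Finset.sum_congr rfl fun x _ => ?_
    rw [← Finset.sum_mul, orth_one]
    split_ifs with h
    · push_cast
      ring
    · simp
  have h3 : ∀ n : ZMod L, ‖(inner ℂ f (Tw (Pi.single i n : T d L) f) : ℂ)‖ ≤
      1 / (L : ℝ) ^ d * ∑ k : T d L, (if k ∈ S ∧ k + Pi.single i n ∈ S then
        (‖ft f k‖ ^ 2 + ‖ft f (k + Pi.single i n)‖ ^ 2) / 2 else 0) := by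
    intro n
    have h4 := parseval f (Tw (Pi.single i n : T d L) f)
    have h5 : ‖(L : ℂ) ^ d * inner ℂ f (Tw (Pi.single i n : T d L) f)‖ =
        (L : ℝ) ^ d * ‖(inner ℂ f (Tw (Pi.single i n : T d L) f) : ℂ)‖ := by
      rw [norm_mul, norm_pow, Complex.norm_natCast]
    rw [one_div, inv_mul_eq_div, le_div_iff₀ hLd, mul_comm, ← h5, ← h4]
    refine (norm_sum_le _ _).trans (Finset.sum_le_sum fun k _ => ?_)
    rw [norm_mul, Complex.norm_conj, ft_Tw]
    split_ifs with h
    · nlinarith [sq_nonneg (‖ft f k‖ - ‖ft f (k + Pi.single i n)‖)]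
    · rcases not_and_or.1 h with h6 | h6
      · rw [hS k h6]
        simp
      · rw [hS _ h6]
        simp
  have h4 : (L : ℝ) * ∑ x : T d L, (if x i = t then ‖f x‖ ^ 2 else 0) ≤
      ∑ n : ZMod L, ‖(inner ℂ f (Tw (Pi.single i n : T d L) f) : ℂ)‖ := by
    have h5 : 0 ≤ (L : ℝ) * ∑ x : T d L, (if x i = t then ‖f x‖ ^ 2 else 0) := by
      refine mul_nonneg (Nat.cast_nonneg L) (Finset.sum_nonneg fun x _ => ?_)
      split_ifs <;> positivity
    have h6 := congrArg (fun c : ℂ => ‖c‖) h1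
    simp only [Complex.norm_real, Real.norm_eq_abs] at h6
    rw [abs_of_nonneg h5] at h6
    rw [h6]
    refine (norm_sum_le _ _).trans (Finset.sum_le_sum fun n _ => ?_)
    rw [norm_mul]
    have : ‖(ZMod.stdAddChar (n * t) : ℂ)‖ = 1 := by
      rw [ZMod.stdAddChar_apply]
      exact Circle.norm_coe _
    rw [this, one_mul]
  refine h4.trans ((Finset.sum_le_sum fun n _ => h3 n).trans ?_)
  rw [← Finset.mul_sum]
  have h5 := dcount (G := T d L) (Z := ZMod L) (fun n : ZMod L => (Pi.single i n : T d L))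
    (single_neg' i) S (fun k => ‖ft f k‖ ^ 2) (fun _ => by positivity) nS hn (fun k hk => by
      rw [hS k hk]
      simp)
  have h6 : 1 / (L : ℝ) ^ d * (nS * ∑ k : T d L, ‖ft f k‖ ^ 2) = nS * ‖f‖ ^ 2 := by
    rw [parseval_norm]
    field_simp
  rw [← h6]
  exact mul_le_mul_of_nonneg_left h5 (by positivity)

/-- **the mass in a cube** -/
theorem cube (f : XT d L) (S : Finset (T d L)) (hS : ∀ k, k ∉ S → ft f k = 0) (i : Fin d)
    (nS : ℝ) (hn : ∀ k ∈ S, (((Finset.univ : Finset (ZMod L)).filter fun n =>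
      k + Pi.single i n ∈ S).card : ℝ) ≤ nS) (R : ℕ) (x0 : T d L) :
    ‖rs (fun x => nn (x - x0) ≤ R) f‖ ^ 2 ≤ (2 * R + 1) * (nS / L) * ‖f‖ ^ 2 := by
  classical
  have hL := L_pos (L := L)
  rw [rs_norm]
  set A := (Finset.univ : Finset (ZMod L)).filter fun a => na (a - x0 i) ≤ R with hA
  have hAc : (A.card : ℝ) ≤ 2 * R + 1 := by
    have h1 : A.card ≤ ((Finset.univ : Finset (ZMod L)).filter fun a => na a ≤ R).card := by
      refine Finset.card_le_card_of_injOn (fun a => a - x0 i) (fun a ha => ?_) ?_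
      · have h2 : na (a - x0 i) ≤ R := by
          rw [hA] at ha
          simpa using ha
        simpa using h2
      · intro a _ b _ hab
        simpa using hab
    have h2 := h1.trans (cnt1_le R)
    exact_mod_cast h2
  refine (Finset.sum_le_sum (g := fun x => ∑ t ∈ A, (if x i = t then ‖f x‖ ^ 2 else 0))
    fun x _ => ?_).trans ?_
  · split_ifs with h
    · have h2 : x i ∈ A := by
        rw [hA, Finset.mem_filter]
        refine ⟨Finset.mem_univ _, ?_⟩
        have := (na_le_nn (x - x0) i).trans h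
        simpa using this
      have h3 := Finset.single_le_sum (f := fun t => (if x i = t then ‖f x‖ ^ 2 else 0))
        (s := A) (fun t _ => by split_ifs <;> positivity) h2
      simpa using h3
    · exact Finset.sum_nonneg fun t _ => by split_ifs <;> positivity
  rw [Finset.sum_comm]
  have h2 : ∀ t ∈ A, ∑ x : T d L, (if x i = t then ‖f x‖ ^ 2 else 0) ≤ nS / L * ‖f‖ ^ 2 := by
    intro t _
    have := slab f S hS i nS hn t
    rw [div_mul_eq_mul_div, le_div_iff₀ hL, mul_comm]
    exact this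
  have h3 := Finset.sum_le_sum h2
  rw [Finset.sum_const, nsmul_eq_mul] at h3
  have hns : 0 ≤ nS / L * ‖f‖ ^ 2 ∨ A.card = 0 := by
    by_cases hA0 : A.card = 0
    · exact Or.inr hA0
    · obtain ⟨t, ht⟩ := Finset.card_pos.1 (Nat.pos_of_ne_zero hA0)
      left
      refine le_trans (Finset.sum_nonneg fun x _ => ?_) (h2 t ht)
      split_ifs <;> positivity
  refine h3.trans ?_
  rcases hns with h4 | h4
  · calc (A.card : ℝ) * (nS / L * ‖f‖ ^ 2) ≤ (2 * R + 1) * (nS / L * ‖f‖ ^ 2) := by gcongr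
      _ = _ := by ring
  · have hx0 : x0 i ∈ A := by
      rw [hA, Finset.mem_filter]
      exact ⟨Finset.mem_univ _, by rw [sub_self, na_zero]; exact Nat.zero_le _⟩
    rw [Finset.card_eq_zero] at h4
    rw [h4] at hx0
    exact absurd hx0 (Finset.notMem_empty _)

/-- the projection on a set of momenta -/
noncomputable def pr (S : Finset (T d L)) (f : XT d L) : XT d L :=
  ((1 : ℂ) / (L : ℂ) ^ d) • ∑ k ∈ S, ft f k • pw k

theorem ch_symm (q x : T d L) : ch q x = ch x q := by
  unfold ch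
  congr 1
  exact Finset.sum_congr rfl fun i _ => mul_comm _ _

theorem ft_pw (k k' : T d L) : ft (pw k' : XT d L) k = if k = k' then (L : ℂ) ^ d else 0 := by
  have h1 : ft (pw k' : XT d L) k = ∑ x : T d L, ch x (k' - k) := by
    unfold ft
    refine Finset.sum_congr rfl fun x _ => ?_
    rw [pw_apply, ch_sub, ch_symm x k', ch_symm x k, mul_comm]
  rw [h1, ch_orth]
  by_cases h : k = k'
  · rw [if_pos h, if_pos (by rw [h, sub_self])]
  · rw [if_neg h, if_neg (sub_ne_zero.2 (Ne.symm h))]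

open scoped Classical in
theorem ft_pr (S : Finset (T d L)) (f : XT d L) (k : T d L) :
    ft (pr S f) k = if k ∈ S then ft f k else 0 := by
  have hL : (L : ℂ) ^ d ≠ 0 := by
    have : (L : ℂ) ≠ 0 := by
      have := NeZero.ne L
      exact_mod_cast this
    exact pow_ne_zero _ this
  unfold pr
  rw [ft_inner, inner_smul_right, inner_sum]
  have h1 : ∀ k' ∈ S, (inner ℂ (pw k) (ft f k' • pw k') : ℂ) =
      if k = k' then ft f k' * (L : ℂ) ^ d else 0 := by
    intro k' _
    rw [inner_smul_right, ← ft_inner, ft_pw]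
    split_ifs <;> simp
  rw [Finset.sum_congr rfl h1, Finset.sum_ite_eq]
  split_ifs
  · field_simp
  · simp

theorem ft_inj (f g : XT d L) (h : ∀ k, ft f k = ft g k) : f = g := by
  have h1 := parseval_norm (f - g)
  have h2 : ∑ q : T d L, ‖ft (f - g) q‖ ^ 2 = 0 := by
    refine Finset.sum_eq_zero fun q _ => ?_
    rw [ft_sub, h q, sub_self]
    simp
  rw [h2] at h1
  have h3 : ‖f - g‖ ^ 2 = 0 := by
    rcases mul_eq_zero.1 h1.symm with h4 | h4
    · exact absurd h4 (L_pos' (d := d) (L := L)).ne'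
    · exact h4
  have h4 : ‖f - g‖ = 0 := by
    rcases pow_eq_zero_iff (two_ne_zero) |>.1 h3 with h5
    exact h5
  exact sub_eq_zero.1 (norm_eq_zero.1 h4)

open scoped Classical in
theorem pr_norm (S : Finset (T d L)) (f : XT d L) :
    (L : ℝ) ^ d * ‖pr S f‖ ^ 2 = ∑ k ∈ S, ‖ft f k‖ ^ 2 := by
  rw [← parseval_norm, ← Finset.sum_filter_add_sum_filter_not Finset.univ (fun k => k ∈ S)]
  have h1 : ∑ k ∈ (Finset.univ : Finset (T d L)).filter (fun k => ¬ k ∈ S),
      ‖ft (pr S f) k‖ ^ 2 = 0 := by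
    refine Finset.sum_eq_zero fun k hk => ?_
    rw [Finset.mem_filter] at hk
    rw [ft_pr, if_neg hk.2]
    simp
  rw [h1, add_zero]
  have h2 : (Finset.univ : Finset (T d L)).filter (fun k => k ∈ S) = S := by
    ext k
    simp
  rw [h2]
  refine Finset.sum_congr rfl fun k hk => ?_
  rw [ft_pr, if_pos hk]

theorem pr_le (S : Finset (T d L)) (f : XT d L) : ‖pr S f‖ ^ 2 ≤ ‖f‖ ^ 2 := by
  have hLd : 0 < (L : ℝ) ^ d := L_pos'
  have h1 := pr_norm S f
  have h2 := parseval_norm f
  have h3 : ∑ k ∈ S, ‖ft f k‖ ^ 2 ≤ ∑ k : T d L, ‖ft f k‖ ^ 2 :=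
    Finset.sum_le_univ_sum_of_nonneg fun k => by positivity
  rw [← h1, h2] at h3
  exact le_of_mul_le_mul_left h3 hLd

/-- **pieces** -/
theorem cube_pieces {ι : Type} [Fintype ι] [DecidableEq ι] (f : XT d L) (S : Finset (T d L))
    (j : T d L → ι) (dir : ι → Fin d) (nS : ℝ) (hnS : 0 ≤ nS)
    (hn : ∀ a : ι, ∀ k ∈ S, j k = a → (((Finset.univ : Finset (ZMod L)).filter fun n =>
      k + Pi.single (dir a) n ∈ S ∧ j (k + Pi.single (dir a) n) = a).card : ℝ) ≤ nS)
    (R : ℕ) (x0 : T d L) :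
    ‖rs (fun x => nn (x - x0) ≤ R) f‖ ^ 2 ≤
      2 * (Fintype.card ι) ^ 2 * ((2 * R + 1) * (nS / L)) * ‖f‖ ^ 2 + 2 * ‖f - pr S f‖ ^ 2 := by
  classical
  have hL := L_pos (L := L)
  set Sa : ι → Finset (T d L) := fun a => S.filter fun k => j k = a with hSa
  have hsum : pr S f = ∑ a : ι, pr (Sa a) f := by
    apply ft_inj
    intro k
    have h1 : ft (∑ a : ι, pr (Sa a) f) k = ∑ a : ι, ft (pr (Sa a) f) k := by
      rw [ft_inner, inner_sum]
      exact Finset.sum_congr rfl fun a _ => (ft_inner _ _).symm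
    rw [h1, ft_pr]
    simp only [ft_pr]
    have h2 : ∀ a, (if k ∈ Sa a then ft f k else 0) = if j k = a then
        (if k ∈ S then ft f k else 0) else 0 := by
      intro a
      by_cases h3 : k ∈ S
      · by_cases h4 : j k = a
        · have : k ∈ Sa a := by rw [hSa, Finset.mem_filter]; exact ⟨h3, h4⟩
          simp [this, h3, h4]
        · have : k ∉ Sa a := by
            rw [hSa, Finset.mem_filter]
            exact fun h => h4 h.2
          simp [this, h4]
      · have : k ∉ Sa a := by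
          rw [hSa, Finset.mem_filter]
          exact fun h => h3 h.1
        simp [this, h3]
    simp only [h2]
    simp
  set C := (2 * (R : ℝ) + 1) * (nS / L) with hC
  have hC0 : 0 ≤ C := by positivity
  have hpiece : ∀ a : ι, ‖rs (fun x => nn (x - x0) ≤ R) (pr (Sa a) f)‖ ≤ √C * ‖f‖ := by
    intro a
    have h1 := cube (pr (Sa a) f) (Sa a) (fun k hk => by rw [ft_pr, if_neg hk]) (dir a) nS (by
      intro k hk
      rw [hSa, Finset.mem_filter] at hk
      refine le_trans ?_ (hn a k hk.1 hk.2)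
      have : ((Finset.univ : Finset (ZMod L)).filter fun n => k + Pi.single (dir a) n ∈ Sa a) ⊆
          (Finset.univ : Finset (ZMod L)).filter fun n =>
            k + Pi.single (dir a) n ∈ S ∧ j (k + Pi.single (dir a) n) = a := by
        intro n hn'
        rw [Finset.mem_filter, hSa, Finset.mem_filter] at hn'
        rw [Finset.mem_filter]
        exact ⟨Finset.mem_univ _, hn'.2⟩
      exact_mod_cast Finset.card_le_card this) R x0
    have h2 : ‖rs (fun x => nn (x - x0) ≤ R) (pr (Sa a) f)‖ ^ 2 ≤ (√C * ‖f‖) ^ 2 := by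
      rw [mul_pow, Real.sq_sqrt hC0]
      refine h1.trans ?_
      have := pr_le (Sa a) f
      gcongr
    exact (abs_le_of_sq_le_sq' h2 (by positivity)).2
  have h1 : ‖rs (fun x => nn (x - x0) ≤ R) (pr S f)‖ ≤ Fintype.card ι * (√C * ‖f‖) := by
    rw [hsum, map_sum]
    refine (norm_sum_le _ _).trans ((Finset.sum_le_sum fun a _ => hpiece a).trans (le_of_eq ?_))
    rw [Finset.sum_const, Finset.card_univ, nsmul_eq_mul]
  have h2 : ‖rs (fun x => nn (x - x0) ≤ R) f‖ ≤ Fintype.card ι * (√C * ‖f‖) + ‖f - pr S f‖ := by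
    have e : f = pr S f + (f - pr S f) := by abel
    nth_rewrite 1 [e]
    rw [map_add]
    refine (norm_add_le _ _).trans (add_le_add h1 ?_)
    have h3 : ‖rs (fun x => nn (x - x0) ≤ R) (f - pr S f)‖ ^ 2 ≤ ‖f - pr S f‖ ^ 2 := by
      rw [rs_norm, EuclideanSpace.norm_sq_eq]
      refine Finset.sum_le_sum fun x _ => ?_
      split_ifs
      · exact le_rfl
      · positivity
    exact (abs_le_of_sq_le_sq' h3 (norm_nonneg _)).2
  have h3 := pow_le_pow_left₀ (norm_nonneg _) h2 2
  refine h3.trans ?_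
  have h4 : ((Fintype.card ι : ℝ) * (√C * ‖f‖)) ^ 2 = (Fintype.card ι) ^ 2 * C * ‖f‖ ^ 2 := by
    rw [mul_pow, mul_pow, Real.sq_sqrt hC0]
    ring
  nlinarith [sq_nonneg ((Fintype.card ι : ℝ) * (√C * ‖f‖) - ‖f - pr S f‖)]

end Pool.Agent.V8H95.NE
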