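import Pool.Agent.V8H95.NE.Mom

/-!
The imaginary part of the resolvent.
-/

set_option autoImplicit false
set_option linter.unusedSectionVars false
set_option linter.unusedVariables false

open Complex MeasureTheory
open scoped BigOperators ComplexConjugate

namespace Pool.Agent.V8H95.NE

open Pool.Agent.H4R2.AE Pool.Agent.V8H99.AD Pool.Agent.V8H95.MF Pool.Agent.V8H95.BW
open Pool.Agent.V8H95.EF Pool.Agent.V8H95.NM

variable {d L : ℕ} [NeZero L]

/-- the normalised imaginary part of the resolvent -/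
noncomputable def Yo (lam : ℝ) (z : ℂ) (V : T d L → ℝ) : XT d L →L[ℂ] XT d L :=
  (((z.im / 2 : ℝ) : ℂ) * (-Complex.I)) • (GT lam V z - GT lam V (conj z))

theorem Yo_apply (lam : ℝ) (z : ℂ) (V : T d L → ℝ) (u : XT d L) :
    Yo lam z V u = (((z.im / 2 : ℝ) : ℂ) * (-Complex.I)) • (GT lam V z u - GT lam V (conj z) u) :=
  rfl

theorem coef_norm (z : ℂ) (hz : 0 < z.im) : ‖(((z.im / 2 : ℝ) : ℂ) * (-Complex.I))‖ = z.im / 2 := by
  rw [norm_mul, norm_neg, Complex.norm_I, mul_one, Complex.norm_real, Real.norm_eq_abs,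
    abs_of_pos (by positivity)]

theorem conj_im_ne {z : ℂ} (hz : 0 < z.im) : (conj z).im ≠ 0 := by
  rw [Complex.conj_im]
  linarith

theorem Yo_sa (lam : ℝ) {z : ℂ} (hz : 0 < z.im) (V : T d L → ℝ) : IsSelfAdjoint (Yo lam z V) := by
  rw [ContinuousLinearMap.isSelfAdjoint_iff_isSymmetric]
  intro f g
  show (inner ℂ (Yo lam z V f) g : ℂ) = inner ℂ f (Yo lam z V g)
  have h1 : (inner ℂ (GT lam V (conj z) f) g : ℂ) = inner ℂ f (GT lam V z g) :=
    rg_adj (HC_sa lam V) hz.ne' f g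
  have h2 : (inner ℂ (GT lam V z f) g : ℂ) = inner ℂ f (GT lam V (conj z) g) := by
    have := rg_adj (HC_sa lam V) (conj_im_ne hz) f g
    rw [Complex.conj_conj] at this
    exact this
  rw [Yo_apply, Yo_apply, inner_smul_left, inner_smul_right, inner_sub_left, inner_sub_right, h1,
    h2, map_mul, Complex.conj_ofReal, map_neg, Complex.conj_I]
  ring

theorem GT_norm2 (lam : ℝ) {z : ℂ} (hz : 0 < z.im) (V : T d L → ℝ) (u : XT d L) :
    ‖GT lam V (conj z) u‖ ≤ ‖u‖ / z.im := by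
  have h := GT_norm' lam (conj_im_ne hz) V u
  rwa [Complex.conj_im, abs_neg, abs_of_pos hz] at h

theorem Yo_le (lam : ℝ) {z : ℂ} (hz : 0 < z.im) (V : T d L → ℝ) (u : XT d L) :
    ‖Yo lam z V u‖ ≤ ‖u‖ := by
  rw [Yo_apply, norm_smul, coef_norm z hz]
  have h1 := GT_norm lam hz V u
  have h2 := GT_norm2 lam hz V u
  calc z.im / 2 * ‖GT lam V z u - GT lam V (conj z) u‖ ≤
      z.im / 2 * (‖u‖ / z.im + ‖u‖ / z.im) := by
        gcongr
        exact (norm_sub_le _ _).trans (add_le_add h1 h2)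
    _ = ‖u‖ := by field_simp; ring

theorem Yo_norm (lam : ℝ) {z : ℂ} (hz : 0 < z.im) (V : T d L → ℝ) : ‖Yo lam z V‖ ≤ 1 :=
  ContinuousLinearMap.opNorm_le_bound _ zero_le_one fun u => by
    rw [one_mul]
    exact Yo_le lam hz V u

theorem Yo_cont (lam : ℝ) {z : ℂ} (hz : 0 < z.im) :
    Continuous fun V : T d L → ℝ => (Yo lam z V : XT d L →L[ℂ] XT d L) := by
  have h := (GT_cont (d := d) (L := L) lam hz.ne').sub (GT_cont lam (conj_im_ne hz))
  exact Continuous.const_smul h (((z.im / 2 : ℝ) : ℂ) * (-Complex.I))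

section
variable (μ : Measure ℝ) [IsProbabilityMeasure μ]

/-- its mean -/
noncomputable def Ym (lam : ℝ) (z : ℂ) : XT d L →L[ℂ] XT d L :=
  ∫ V, Yo lam z V ∂(Measure.pi fun _ : T d L => μ)

/-- the centred operator -/
noncomputable def Fo (lam : ℝ) (z : ℂ) (V : T d L → ℝ) : XT d L →L[ℂ] XT d L :=
  Yo lam z V - Ym μ lam z

theorem Yo_int (lam : ℝ) {z : ℂ} (hz : 0 < z.im) :
    Integrable (fun V : T d L → ℝ => (Yo lam z V : XT d L →L[ℂ] XT d L))
      (Measure.pi fun _ : T d L => μ) :=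
  Integrable.of_bound (C := 1) (Yo_cont lam hz).aestronglyMeasurable
    (Filter.Eventually.of_forall fun V => Yo_norm lam hz V)

theorem Ym_apply (lam : ℝ) {z : ℂ} (hz : 0 < z.im) (u : XT d L) :
    (Ym μ lam z : XT d L →L[ℂ] XT d L) u =
      ∫ V, Yo lam z V u ∂(Measure.pi fun _ : T d L => μ) :=
  ContinuousLinearMap.integral_apply (Yo_int μ lam hz) u

theorem Ym_sa (lam : ℝ) {z : ℂ} (hz : 0 < z.im) :
    IsSelfAdjoint (Ym μ lam z : XT d L →L[ℂ] XT d L) := by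
  rw [ContinuousLinearMap.isSelfAdjoint_iff_isSymmetric]
  intro f g
  show (inner ℂ (Ym μ lam z f) g : ℂ) = inner ℂ f (Ym μ lam z g)
  have hi : ∀ u : XT d L, Integrable (fun V : T d L → ℝ => Yo lam z V u)
      (Measure.pi fun _ : T d L => μ) := fun u =>
    (Yo_int μ lam hz).apply_continuousLinearMap u
  rw [Ym_apply μ lam hz, Ym_apply μ lam hz, ← inner_conj_symm, ← integral_inner (hi f) g,
    ← integral_inner (hi g) f, ← integral_conj]
  congr 1
  funext V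
  rw [inner_conj_symm]
  exact sa_inner (Yo_sa lam hz V) f g

theorem Ym_norm (lam : ℝ) {z : ℂ} (hz : 0 < z.im) :
    ‖(Ym μ lam z : XT d L →L[ℂ] XT d L)‖ ≤ 1 := by
  have := norm_integral_le_of_norm_le_const (μ := Measure.pi fun _ : T d L => μ)
    (f := fun V : T d L → ℝ => (Yo lam z V : XT d L →L[ℂ] XT d L)) (C := 1)
    (Filter.Eventually.of_forall fun V => Yo_norm lam hz V)
  unfold Ym
  simpa using this

theorem Fo_cont (lam : ℝ) {z : ℂ} (hz : 0 < z.im) :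
    Continuous fun V : T d L → ℝ => (Fo μ lam z V : XT d L →L[ℂ] XT d L) :=
  (Yo_cont lam hz).sub continuous_const

theorem Fo_sa (lam : ℝ) {z : ℂ} (hz : 0 < z.im) (V : T d L → ℝ) :
    IsSelfAdjoint (Fo μ lam z V : XT d L →L[ℂ] XT d L) := by
  rw [ContinuousLinearMap.isSelfAdjoint_iff_isSymmetric]
  intro f g
  show (inner ℂ (Yo lam z V f - Ym μ lam z f) g : ℂ) = inner ℂ f (Yo lam z V g - Ym μ lam z g)
  rw [inner_sub_left, inner_sub_right, sa_inner (Yo_sa lam hz V), sa_inner (Ym_sa μ lam hz)]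

theorem Fo_norm (lam : ℝ) {z : ℂ} (hz : 0 < z.im) (V : T d L → ℝ) :
    ‖(Fo μ lam z V : XT d L →L[ℂ] XT d L)‖ ≤ 2 :=
  (norm_sub_le _ _).trans (by
    have h1 := Yo_norm lam hz V
    have h2 := Ym_norm (d := d) (L := L) μ lam hz
    linarith)

theorem cj_norm (f : XT d L) : ‖cj f‖ = ‖f‖ := by
  rw [← sq_eq_sq₀ (norm_nonneg _) (norm_nonneg _), EuclideanSpace.norm_sq_eq,
    EuclideanSpace.norm_sq_eq]
  refine Finset.sum_congr rfl fun x _ => ?_
  rw [cj_apply, Complex.norm_conj]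

theorem cj_cj (f : XT d L) : cj (cj f) = f := by
  ext x
  rw [cj_apply, cj_apply, Complex.conj_conj]

theorem cj_sub (f g : XT d L) : cj (f - g) = cj f - cj g := by
  ext x
  rw [cj_apply, PiLp.sub_apply, PiLp.sub_apply, cj_apply, cj_apply, map_sub]

theorem GT_conj (lam : ℝ) {z : ℂ} (hz : 0 < z.im) (V : T d L → ℝ) (u : XT d L) :
    GT lam V (conj z) u = cj (GT lam V z (cj u)) := by
  rw [cj_GT lam V hz.ne', cj_cj]

theorem mean_conj (lam : ℝ) {z : ℂ} (hz : 0 < z.im) (u : XT d L) :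
    ∫ V, GT lam V (conj z) u ∂(Measure.pi fun _ : T d L => μ) =
      cj (∫ V, GT lam V z (cj u) ∂(Measure.pi fun _ : T d L => μ)) := by
  ext x
  rw [mean_coord μ lam (conj_im_ne hz), cj_apply, mean_coord μ lam hz.ne', ← integral_conj]
  congr 1
  funext V
  rw [GT_conj lam hz, cj_apply]

/-- the second moment of the centred operator -/
theorem Fo_var (lam : ℝ) {z : ℂ} (hz : 0 < z.im) (s T' : ℝ) (hs0 : 0 ≤ s) (hT : 0 ≤ T')
    (hv : ∀ u : XT d L, ∫ V, ‖GT lam V z u -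
        ∫ U, GT lam U z u ∂(Measure.pi fun _ : T d L => μ)‖ ^ 2 ∂(Measure.pi fun _ : T d L => μ) ≤
      s * ∫ V, ‖GT lam V z u‖ ^ 2 ∂(Measure.pi fun _ : T d L => μ) + T' * ‖u‖ ^ 2) (u : XT d L) :
    ∫ V, ‖Fo μ lam z V u‖ ^ 2 ∂(Measure.pi fun _ : T d L => μ) ≤
      (s + T' * z.im ^ 2) * ‖u‖ ^ 2 := by
  set P : Measure (T d L → ℝ) := Measure.pi fun _ : T d L => μ with hP
  have hG : ∀ u : XT d L, ∫ V, ‖GT lam V z u‖ ^ 2 ∂P ≤ 1 / z.im ^ 2 * ‖u‖ ^ 2 := by
    intro u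
    have h1 : ∀ V : T d L → ℝ, ‖GT lam V z u‖ ^ 2 ≤ 1 / z.im ^ 2 * ‖u‖ ^ 2 := by
      intro V
      have h2 := pow_le_pow_left₀ (norm_nonneg _) (GT_norm lam hz V u) 2
      rw [div_pow] at h2
      calc _ ≤ _ := h2
        _ = _ := by ring
    have h2 := integral_mono (GT2i μ lam hz.ne' u) (integrable_const _) h1
    simpa using h2
  have hv' : ∀ u : XT d L, ∫ V, ‖GT lam V z u - ∫ U, GT lam U z u ∂P‖ ^ 2 ∂P ≤
      (s / z.im ^ 2 + T') * ‖u‖ ^ 2 := by
    intro u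
    refine (hv u).trans ?_
    calc s * ∫ V, ‖GT lam V z u‖ ^ 2 ∂P + T' * ‖u‖ ^ 2 ≤
        s * (1 / z.im ^ 2 * ‖u‖ ^ 2) + T' * ‖u‖ ^ 2 := by
          gcongr
          exact hG u
      _ = _ := by ring
  have hc : ∀ V, ‖GT lam V (conj z) u - ∫ U, GT lam U (conj z) u ∂P‖ =
      ‖GT lam V z (cj u) - ∫ U, GT lam U z (cj u) ∂P‖ := by
    intro V
    rw [hP, mean_conj μ lam hz, GT_conj lam hz, ← cj_sub, cj_norm]
  have hYm : (Ym μ lam z : XT d L →L[ℂ] XT d L) u = (((z.im / 2 : ℝ) : ℂ) * (-Complex.I)) •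
      ((∫ U, GT lam U z u ∂P) - ∫ U, GT lam U (conj z) u ∂P) := by
    rw [Ym_apply μ lam hz]
    simp only [Yo_apply]
    rw [integral_smul, integral_sub (GTi μ lam hz.ne' u) (GTi μ lam (conj_im_ne hz) u)]
  have hpt : ∀ V, ‖Fo μ lam z V u‖ ^ 2 ≤ z.im ^ 2 / 2 *
      (‖GT lam V z u - ∫ U, GT lam U z u ∂P‖ ^ 2 +
        ‖GT lam V z (cj u) - ∫ U, GT lam U z (cj u) ∂P‖ ^ 2) := by
    intro V
    have e : Fo μ lam z V u = (((z.im / 2 : ℝ) : ℂ) * (-Complex.I)) •
        ((GT lam V z u - ∫ U, GT lam U z u ∂P) -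
          (GT lam V (conj z) u - ∫ U, GT lam U (conj z) u ∂P)) := by
      show Yo lam z V u - Ym μ lam z u = _
      rw [hYm, Yo_apply, ← smul_sub]
      congr 1
      abel
    rw [e, norm_smul, coef_norm z hz, mul_pow]
    have h1 := norm_sub_le (GT lam V z u - ∫ U, GT lam U z u ∂P)
      (GT lam V (conj z) u - ∫ U, GT lam U (conj z) u ∂P)
    rw [hc V] at h1
    set p := ‖GT lam V z u - ∫ U, GT lam U z u ∂P‖
    set q := ‖GT lam V z (cj u) - ∫ U, GT lam U z (cj u) ∂P‖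
    have h2 := pow_le_pow_left₀ (norm_nonneg _) h1 2
    have h3 : (p + q) ^ 2 ≤ 2 * (p ^ 2 + q ^ 2) := by nlinarith [sq_nonneg (p - q)]
    calc (z.im / 2) ^ 2 * ‖(GT lam V z u - ∫ U, GT lam U z u ∂P) -
          (GT lam V (conj z) u - ∫ U, GT lam U (conj z) u ∂P)‖ ^ 2 ≤
        (z.im / 2) ^ 2 * (2 * (p ^ 2 + q ^ 2)) := by
          gcongr
          exact h2.trans h3
      _ = _ := by ring
  have i1 : ∀ u : XT d L, Integrable (fun V => ‖GT lam V z u - ∫ U, GT lam U z u ∂P‖ ^ 2) P := by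
    intro u
    have hb : ‖∫ U, GT lam U z u ∂P‖ ≤ ‖u‖ / z.im := by
      have := norm_integral_le_of_norm_le_const (μ := P) (f := fun V => GT lam V z u)
        (C := ‖u‖ / z.im) (Filter.Eventually.of_forall fun V => GT_norm lam hz V u)
      simpa using this
    refine int_of P _ (((GTf_cont lam hz.ne' u).sub continuous_const).norm.pow 2).measurable
      ((‖u‖ / z.im + ‖u‖ / z.im) ^ 2) fun V => ?_
    rw [abs_pow, abs_norm]
    exact pow_le_pow_left₀ (norm_nonneg _) ((norm_sub_le _ _).trans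
      (add_le_add (GT_norm lam hz V u) hb)) 2
  have i2 : Integrable (fun V => ‖Fo μ lam z V u‖ ^ 2) P := by
    refine int_of P _ ((((Fo_cont μ lam hz).clm_apply continuous_const).norm.pow 2).measurable)
      ((2 * ‖u‖) ^ 2) fun V => ?_
    rw [abs_pow, abs_norm]
    exact pow_le_pow_left₀ (norm_nonneg _) (((Fo μ lam z V).le_opNorm u).trans
      (by gcongr; exact Fo_norm μ lam hz V)) 2
  have h1 := integral_mono i2 (((i1 u).add (i1 (cj u))).const_mul _) hpt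
  refine h1.trans ?_
  rw [integral_const_mul]
  have e1 := integral_add (i1 u) (i1 (cj u))
  have h2 := hv' u
  have h3 := hv' (cj u)
  rw [cj_norm] at h3
  calc z.im ^ 2 / 2 * ∫ V, (‖GT lam V z u - ∫ U, GT lam U z u ∂P‖ ^ 2 +
        ‖GT lam V z (cj u) - ∫ U, GT lam U z (cj u) ∂P‖ ^ 2) ∂P ≤
      z.im ^ 2 / 2 * ((s / z.im ^ 2 + T') * ‖u‖ ^ 2 + (s / z.im ^ 2 + T') * ‖u‖ ^ 2) := by
        gcongr
        refine (le_of_eq e1).trans (add_le_add h2 h3)
    _ = _ := by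
        field_simp
        ring

end

/-- changing one coordinate -/
theorem upd_c (lam : ℝ) (hlam : 0 ≤ lam) {z : ℂ} (hz : 0 < z.im) (V : T d L → ℝ) (y : T d L)
    (c : ℝ) (hV : |V y| ≤ 1) (hc : |c| ≤ 1) (hG : lam * ‖GG lam z y y V‖ ≤ 1 / 4) (u : XT d L) :
    ‖GT lam V z u - GT lam (Function.update V y c) z u‖ ^ 2 ≤
      16 * lam ^ 2 / z.im * (XX lam z y V * ‖(GT lam V z u) y‖ ^ 2) := by
  have hv : |lam * (c - V y)| ≤ 2 * lam := by
    rw [abs_mul, abs_of_nonneg hlam]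
    have : |c - V y| ≤ 2 := (abs_sub _ _).trans (by linarith)
    calc lam * |c - V y| ≤ lam * 2 := by gcongr
      _ = 2 * lam := by ring
  have h1 : ‖((lam * (c - V y) : ℝ) : ℂ) * GG lam z y y V‖ ≤ 1 / 2 := by
    rw [norm_mul, Complex.norm_real, Real.norm_eq_abs]
    calc |lam * (c - V y)| * ‖GG lam z y y V‖ ≤ (2 * lam) * ‖GG lam z y y V‖ := by gcongr
      _ ≤ 1 / 2 := by linarith
  obtain ⟨hne, h2⟩ := GT_update lam c hz.ne' V y u h1
  rw [h2, sub_sub_cancel, norm_smul, mul_pow, norm_mul, norm_div, Complex.norm_real,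
    Real.norm_eq_abs]
  set D : ℂ := 1 + ((lam * (c - V y) : ℝ) : ℂ) * GG lam z y y V with hD
  have hDn : 1 / 2 ≤ ‖D‖ := by
    have h3 := norm_sub_le_norm_add (1 : ℂ) (((lam * (c - V y) : ℝ) : ℂ) * GG lam z y y V)
    rw [norm_one] at h3
    linarith
  have h4 : |lam * (c - V y)| / ‖D‖ ≤ 4 * lam := by
    rw [div_le_iff₀ (by linarith)]
    nlinarith [abs_nonneg (lam * (c - V y))]
  have h5 : ‖GT lam V z (es y)‖ ^ 2 = XX lam z y V / z.im := by
    rw [XX_eq lam hz.ne', mul_div_assoc, mul_div_cancel₀ _ hz.ne']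
  rw [h5]
  have hX := XX_nonneg lam hz y V
  calc (|lam * (c - V y)| / ‖D‖ * ‖(GT lam V z u) y‖) ^ 2 * (XX lam z y V / z.im) ≤
      (4 * lam * ‖(GT lam V z u) y‖) ^ 2 * (XX lam z y V / z.im) := by gcongr
    _ = _ := by ring

section
variable (μ : Measure ℝ) [IsProbabilityMeasure μ]

/-- the square function of the centred operator -/
theorem Fo_sf (lam : ℝ) (hlam : 0 ≤ lam) {z : ℂ} (hz : 0 < z.im) (V : T d L → ℝ)
    (hV : ∀ y, |V y| ≤ 1) (hG : ∀ y, lam * ‖GG lam z y y V‖ ≤ 1 / 4) (B : ℝ)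
    (hB : ∀ y, XX lam z y V ≤ B) (c : ℝ) (hc : |c| ≤ 1) (u : XT d L) :
    ∑ y, ‖(Fo μ lam z V - Fo μ lam z (Function.update V y c)) u‖ ^ 2 ≤
      16 * lam ^ 2 * B / z.im * ‖u‖ ^ 2 := by
  have hB0 : 0 ≤ B := (XX_nonneg lam hz (0 : T d L) V).trans (hB 0)
  have hpt : ∀ y, ‖(Fo μ lam z V - Fo μ lam z (Function.update V y c)) u‖ ^ 2 ≤
      z.im ^ 2 / 2 * (16 * lam ^ 2 / z.im * (B * ‖(GT lam V z u) y‖ ^ 2) +
        16 * lam ^ 2 / z.im * (B * ‖(GT lam V z (cj u)) y‖ ^ 2)) := by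
    intro y
    have e : (Fo μ lam z V - Fo μ lam z (Function.update V y c)) u =
        (((z.im / 2 : ℝ) : ℂ) * (-Complex.I)) •
        ((GT lam V z u - GT lam (Function.update V y c) z u) -
          (GT lam V (conj z) u - GT lam (Function.update V y c) (conj z) u)) := by
      show (Yo lam z V u - Ym μ lam z u) - (Yo lam z (Function.update V y c) u - Ym μ lam z u) = _
      rw [Yo_apply, Yo_apply, sub_sub_sub_cancel_right, ← smul_sub]
      congr 1
      abel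
    have hcj : ‖GT lam V (conj z) u - GT lam (Function.update V y c) (conj z) u‖ =
        ‖GT lam V z (cj u) - GT lam (Function.update V y c) z (cj u)‖ := by
      rw [GT_conj lam hz, GT_conj lam hz, ← cj_sub, cj_norm]
    rw [e, norm_smul, coef_norm z hz, mul_pow]
    have h1 := norm_sub_le (GT lam V z u - GT lam (Function.update V y c) z u)
      (GT lam V (conj z) u - GT lam (Function.update V y c) (conj z) u)
    rw [hcj] at h1
    have h4 := upd_c lam hlam hz V y c (hV y) hc (hG y) u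
    have h5 := upd_c lam hlam hz V y c (hV y) hc (hG y) (cj u)
    have h6 : 16 * lam ^ 2 / z.im * (XX lam z y V * ‖(GT lam V z u) y‖ ^ 2) ≤
        16 * lam ^ 2 / z.im * (B * ‖(GT lam V z u) y‖ ^ 2) := by
      have := hB y
      gcongr
    have h7 : 16 * lam ^ 2 / z.im * (XX lam z y V * ‖(GT lam V z (cj u)) y‖ ^ 2) ≤
        16 * lam ^ 2 / z.im * (B * ‖(GT lam V z (cj u)) y‖ ^ 2) := by
      have := hB y
      gcongr
    set p := ‖GT lam V z u - GT lam (Function.update V y c) z u‖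
    set q := ‖GT lam V z (cj u) - GT lam (Function.update V y c) z (cj u)‖
    have h2 := pow_le_pow_left₀ (norm_nonneg _) h1 2
    have h3 : (p + q) ^ 2 ≤ 2 * (p ^ 2 + q ^ 2) := by nlinarith [sq_nonneg (p - q)]
    calc (z.im / 2) ^ 2 * ‖(GT lam V z u - GT lam (Function.update V y c) z u) -
          (GT lam V (conj z) u - GT lam (Function.update V y c) (conj z) u)‖ ^ 2 ≤
        (z.im / 2) ^ 2 * (2 * (p ^ 2 + q ^ 2)) := by
          gcongr
          exact h2.trans h3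
      _ = z.im ^ 2 / 2 * (p ^ 2 + q ^ 2) := by ring
      _ ≤ _ := by
          gcongr
          · exact h4.trans h6
          · exact h5.trans h7
  refine (Finset.sum_le_sum fun y _ => hpt y).trans ?_
  rw [← Finset.mul_sum, Finset.sum_add_distrib, ← Finset.mul_sum, ← Finset.mul_sum,
    ← Finset.mul_sum, ← Finset.mul_sum, ← EuclideanSpace.norm_sq_eq, ← EuclideanSpace.norm_sq_eq]
  have h1 := pow_le_pow_left₀ (norm_nonneg _) (GT_norm lam hz V u) 2
  have h2 := pow_le_pow_left₀ (norm_nonneg _) (GT_norm lam hz V (cj u)) 2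
  rw [cj_norm] at h2
  calc z.im ^ 2 / 2 * (16 * lam ^ 2 / z.im * (B * ‖GT lam V z u‖ ^ 2) +
        16 * lam ^ 2 / z.im * (B * ‖GT lam V z (cj u)‖ ^ 2)) ≤
      z.im ^ 2 / 2 * (16 * lam ^ 2 / z.im * (B * (‖u‖ / z.im) ^ 2) +
        16 * lam ^ 2 / z.im * (B * (‖u‖ / z.im) ^ 2)) := by gcongr
    _ = _ := by
        field_simp
        ring

end

end Pool.Agent.V8H95.NE
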