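import Pool.Agent.V8H95.NE.Fq
import Pool.Agent.V8H95.NE.Box

/-!
Solutions in boxes of `ℤ³`.
-/

set_option autoImplicit false
set_option linter.unusedSectionVars false
set_option linter.unusedVariables false

open Complex MeasureTheory
open scoped BigOperators ComplexConjugate

namespace Pool.Agent.V8H95.NE

open Pool.Agent.H4R2.AE Pool.Agent.V8H99.AD Pool.Agent.V8H95.MF Pool.Agent.V8H95.BW
open Pool.Agent.V8H95.EF

theorem local3 (N P : ℕ) (a : ℝ) (ha : 0 < a) (ha1 : a ≤ 1) :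
    ∃ k lam0 : ℝ, 0 < k ∧ 0 < lam0 ∧
    ∀ (μ : Measure ℝ) [IsProbabilityMeasure μ], μ (Set.Icc (-1) 1)ᶜ = 0 →
    ∀ lam : ℝ, 0 < lam → lam ≤ lam0 → ∀ W : ℕ, 1 / lam ^ 6 ≤ (W : ℝ) → (W : ℝ) ≤ 1 / lam ^ N →
    ∃ G : Set ((Fin 3 → ℤ) → ℝ), MeasurableSet G ∧
      1 - lam ^ P ≤ (Measure.infinitePi fun _ : Fin 3 → ℤ => μ).real G ∧
      ∀ ω ∈ G, ∀ (x₀ : Fin 3 → ℤ), nz x₀ ≤ W → ∀ (ψ : (Fin 3 → ℤ) → ℂ) (E : ℝ), E ≤ k →
        (∀ x, nz (x - x₀) ≤ W → HF lam ω ψ x = (E : ℂ) * ψ x) →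
        bm ψ x₀ ⌊lam ^ (a - 2)⌋₊ ≤ lam ^ (a / 64) * bm ψ x₀ (W + 1) := by
  obtain ⟨k, lam1, hk, hlam1, H⟩ := every_q (N + 1) P a ha ha1
  have ha64 : 0 < a / 64 := by positivity
  refine ⟨k, min (min lam1 (1 / 7)) ((1 / 200) ^ (1 / (a / 64))), hk, by positivity, ?_⟩
  intro μ _ hμ lam hlam hlam0 W hW1 hW2
  have hl1 : lam ≤ lam1 := hlam0.trans ((min_le_left _ _).trans (min_le_left _ _))
  have hl7 : lam ≤ 1 / 7 := hlam0.trans ((min_le_left _ _).trans (min_le_right _ _))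
  have hl2 : lam ≤ (1 / 200) ^ (1 / (a / 64)) := hlam0.trans (min_le_right _ _)
  have hl : lam ≤ 1 := by linarith
  obtain ⟨y, hy⟩ : ∃ y : ℝ, y = lam ^ (a / 64) := ⟨_, rfl⟩
  have hy0 : 0 < y := by rw [hy]; positivity
  have hy2 : 200 * y ≤ 1 := by
    have h1 : lam ^ (a / 64) ≤ ((1 / 200 : ℝ) ^ (1 / (a / 64))) ^ (a / 64) :=
      Real.rpow_le_rpow hlam.le hl2 ha64.le
    rw [← Real.rpow_mul (by norm_num), one_div_mul_cancel ha64.ne', Real.rpow_one, ← hy] at h1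
    linarith
  have hyx : lam ^ (a / 32) = y ^ 2 := by
    rw [hy, ← Real.rpow_natCast, ← Real.rpow_mul hlam.le]
    congr 1
    push_cast
    ring
  have hly : lam ≤ y ^ 2 := by
    rw [← hyx]
    calc lam = lam ^ (1 : ℝ) := (Real.rpow_one lam).symm
      _ ≤ lam ^ (a / 32) := Real.rpow_le_rpow_of_exponent_ge hlam hl (by linarith)
  have hsq : √(y ^ 2) = y := Real.sqrt_sq hy0.le
  have hW0 : (1 : ℝ) ≤ W := by
    refine le_trans ?_ hW1
    rw [le_div_iff₀ (by positivity), one_mul]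
    exact pow_le_one₀ hlam.le hl
  have hmono : ∀ n m : ℕ, n ≤ m → 1 / lam ^ n ≤ 1 / lam ^ m := fun n m hnm => by
    apply one_div_le_one_div_of_le (by positivity)
    exact pow_le_pow_of_le_one hlam.le hl hnm
  obtain ⟨L, hL⟩ : ∃ L : ℕ, L = 4 * W + 3 := ⟨_, rfl⟩
  have : NeZero L := ⟨by omega⟩
  have hLr : (L : ℝ) = 4 * W + 3 := by rw [hL]; push_cast; ring
  obtain ⟨G, hGm, hGP, hG⟩ := H μ hμ lam hlam hl1 L (by
      have := hmono 3 6 (by norm_num)
      rw [hLr]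
      linarith) (by
      rw [hLr]
      calc 4 * (W : ℝ) + 3 ≤ 7 * W := by linarith
        _ ≤ 7 * (1 / lam ^ N) := by gcongr
        _ ≤ (1 / lam) * (1 / lam ^ N) := by
            have : 7 ≤ 1 / lam := by
              rw [le_div_iff₀ hlam]
              linarith
            gcongr
        _ = 1 / lam ^ (N + 1) := by
            rw [pow_succ]
            field_simp)
  obtain ⟨G', hG'm, hG'P, hG'⟩ := lift_event μ hμ G hGm _ hGP
  refine ⟨G', hG'm, ?_, ?_⟩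
  · have h1 := probReal_add_probReal_compl (μ := Measure.infinitePi fun _ : Fin 3 → ℤ => μ) hG'm
    linarith
  intro ω hω x₀ hx₀ ψ E hE hψ
  obtain ⟨hωG, hω1⟩ := hG' ω hω
  obtain ⟨R, hR⟩ : ∃ R : ℕ, R = ⌊lam ^ (a - 2)⌋₊ := ⟨_, rfl⟩
  have hra : lam ^ (a - 2) ≤ 1 / lam ^ 2 := by
    rw [Real.rpow_sub hlam, Real.rpow_ofNat]
    have : lam ^ a ≤ 1 := Real.rpow_le_one hlam.le hl ha.le
    gcongr
  have hRW : 2 * R ≤ W + 1 := by
    have h1 : (R : ℝ) ≤ lam ^ (a - 2) := by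
      rw [hR]
      exact Nat.floor_le (by positivity)
    have h2 : 2 * (1 / lam ^ 2) ≤ 1 / lam ^ 6 := by
      have h3 : 2 ≤ 1 / lam ^ 4 := by
        rw [le_div_iff₀ (by positivity)]
        have h4 : lam ^ 4 ≤ lam ^ 1 := pow_le_pow_of_le_one hlam.le hl (by norm_num)
        rw [pow_one] at h4
        linarith
      calc 2 * (1 / lam ^ 2) ≤ 1 / lam ^ 4 * (1 / lam ^ 2) := by gcongr
        _ = 1 / lam ^ 6 := by
            field_simp
    have h5 : (2 : ℝ) * R ≤ W := by linarith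
    have h6 : 2 * R ≤ W := by exact_mod_cast h5
    omega
  rw [← hR, ← hy]
  have key := box_mass (L := L) (lam := lam) hω1 W R (by omega) hRW k (lam ^ 5) (50 * y ^ 2)
    (y ^ 2) (by positivity) (by
      rw [hsq]
      have h1 : 1 / lam ^ 6 ≤ (W : ℝ) + 1 := by linarith
      have h2 : 6 * lam ≤ y := by nlinarith
      calc 2 * ((3 : ℕ) : ℝ) / ((W : ℝ) + 1) ≤ 2 * ((3 : ℕ) : ℝ) / (1 / lam ^ 6) := by gcongr
        _ = lam ^ 5 * (6 * lam) := by
            push_cast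
            field_simp
            ring
        _ ≤ lam ^ 5 * y := by gcongr) (by
      intro φ E' hφ1 hφr hE' y0
      have h1 := hG _ hωG φ E' hφ1 hφr hE' y0
      rw [hyx] at h1
      refine le_trans (le_of_eq ?_) h1
      classical
      rw [rs_norm, rs_norm]
      refine Finset.sum_congr rfl fun v _ => ?_
      by_cases h2 : nn (v - y0) ≤ R
      · rw [if_pos h2, if_pos]
        rw [hR] at h2
        exact (Nat.le_floor_iff (by positivity)).1 h2
      · rw [if_neg h2, if_neg]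
        intro h3
        apply h2
        rw [hR]
        exact Nat.le_floor h3) (by nlinarith) ψ E hE x₀ hx₀ hψ
  refine key.trans ?_
  have h1 := bm_nonneg ψ x₀ (W + 1)
  apply mul_le_mul_of_nonneg_right _ h1
  nlinarith

end Pool.Agent.V8H95.NE
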